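import Pool.Agent.Lib.MP_7428c0_nt.Extend

/-!
# Consequences of generation and separation by Whittaker objects
-/

set_option autoImplicit false

namespace TwistDescent

open CategoryTheory Category

universe v u v' u' v'' u'' w

section rigid

variable {C : Type u} [Category.{v} C] {D : Type u'} [Category.{v'} D]

theorem rigid_id {W : C} (hW : IsSeparator W) : Rigid (𝟭 C) W (𝟙 W) := by
  intro θ hθ x
  apply hW.def
  intro w
  have h1 : w ≫ θ.hom.app x = θ.hom.app W ≫ w := θ.hom.naturality w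
  have h2 : θ.hom.app W = 𝟙 W := (id_comp _).symm.trans hθ
  rw [h1, h2]
  exact (id_comp w).trans (comp_id w).symm

theorem rigid_of_universal {i : C ⥤ D} {W : C} {V : D} {u : V ⟶ i.obj W} (hu : Universal i u)
    (hV : IsSeparator V) : Rigid i W u := by
  intro θ hθ x
  apply hV.def
  intro w
  obtain ⟨f, hf, -⟩ := hu x w
  have hf' : w = u ≫ i.map f := hf
  rw [hf', assoc, θ.hom.naturality, ← assoc, hθ, comp_id]

theorem Universal.freeOn {i : C ⥤ D} {W : C} {V : D} {u : V ⟶ i.obj W} (hu : Universal i u) :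
    FreeOn i W u := fun f => hu W f

end rigid

section generated

variable {C : Type u} [Category.{v} C] [Preadditive C] {J : Type w} {D : J → Type u'}
  [∀ j, Category.{v'} (D j)] (i : ∀ j, D j ⥤ C) (V : ∀ j, D j) {W : C}
  (u : ∀ j, W ⟶ (i j).obj (V j))

/-- If the objects `i V` generate, `W` is a separator, the vectors `W ⟶ i V` are free and the
endomorphisms of the `V` commute, then every automorphism of `W` comes from the centre. -/
theorem centerOnto_of_generated (hu : ∀ j, FreeOn (i j) (V j) (u j))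
    (hc : ∀ (j : J) (a b : V j ⟶ V j), a ≫ b = b ≫ a) (hW : IsSeparator W)
    (hP : ∀ x : C, GeneratedBy (fun j => (i j).obj (V j)) x) : CenterOnto W := by
  intro z
  have ha : ∀ j, ∃ a : V j ⟶ V j, z.hom ≫ u j = u j ≫ (i j).map a := fun j =>
    (hu j (z.hom ≫ u j)).exists
  have hb : ∀ j, ∃ b : V j ⟶ V j, z.inv ≫ u j = u j ≫ (i j).map b := fun j =>
    (hu j (z.inv ≫ u j)).exists
  choose a ha using ha
  choose b hb using hb
  have hone : ∀ j (c : V j ⟶ V j), u j = u j ≫ (i j).map c → c = 𝟙 (V j) := by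
    intro j c h
    refine (hu j (u j)).unique h ?_
    show u j = u j ≫ (i j).map (𝟙 (V j))
    rw [CategoryTheory.Functor.map_id, comp_id]
  have hab : ∀ j, a j ≫ b j = 𝟙 (V j) := by
    intro j
    apply hone
    rw [Functor.map_comp, ← assoc, ← ha, assoc, ← hb, Iso.hom_inv_id_assoc]
  let θ : ∀ j, (i j).obj (V j) ≅ (i j).obj (V j) := fun j =>
    (i j).mapIso ⟨a j, b j, hab j, by rw [← hc]; exact hab j⟩
  obtain ⟨Θ, -, hΘ⟩ := exists_iso_of_separator hP (𝟭 C) (𝟭 C) hW θ z (by
    intro j w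
    obtain ⟨ε, hε, -⟩ := hu j w
    have hε' : w = u j ≫ (i j).map ε := hε
    show w ≫ (i j).map (a j) = z.hom ≫ w
    rw [hε', assoc, ← Functor.map_comp, ← hc, Functor.map_comp, ← assoc, ← ha, assoc])
  exact ⟨Θ, hΘ⟩

/-- Two functors which agree on `W`, on the objects `i V` and on the endomorphisms of the objects
`V` are isomorphic. -/
theorem exists_iso_of_center {X : Type u''} [Category.{v''} X] [Preadditive X]
    (hu : ∀ j, FreeOn (i j) (V j) (u j)) (hW : IsSeparator W)
    (hP : ∀ x : C, GeneratedBy (fun j => (i j).obj (V j)) x) (F F' : C ⥤ X) [F.Additive]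
    [F'.Additive] [F'.Full] [F'.Faithful] {O : X} {S : J → X} (v : ∀ j, O ⟶ S j)
    (e : F.obj W ≅ O) (e' : F'.obj W ≅ O) (t : ∀ j, F.obj ((i j).obj (V j)) ≅ S j)
    (t' : ∀ j, F'.obj ((i j).obj (V j)) ≅ S j) (ht : ∀ j, F.map (u j) ≫ (t j).hom = e.hom ≫ v j)
    (ht' : ∀ j, F'.map (u j) ≫ (t' j).hom = e'.hom ≫ v j)
    (c : ∀ (j : J), (V j ⟶ V j) → (S j ⟶ S j))
    (hc : ∀ (j : J) (z : V j ⟶ V j), F.map ((i j).map z) ≫ (t j).hom = (t j).hom ≫ c j z)
    (hc' : ∀ (j : J) (z : V j ⟶ V j), F'.map ((i j).map z) ≫ (t' j).hom = (t' j).hom ≫ c j z) :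
    ∃ Θ : F ≅ F', Θ.hom.app W ≫ e'.hom = e.hom := by
  obtain ⟨Θ, -, hΘ⟩ := exists_iso_of_separator hP F F' hW (fun j => t j ≪≫ (t' j).symm)
    (e ≪≫ e'.symm) (by
      intro j w
      obtain ⟨ε, hε, -⟩ := hu j w
      have hε' : w = u j ≫ (i j).map ε := hε
      simp only [Iso.trans_hom, Iso.symm_hom]
      rw [← cancel_mono (t' j).hom]
      simp only [assoc, Iso.inv_hom_id, comp_id]
      rw [hε', Functor.map_comp, Functor.map_comp, assoc, hc, reassoc_of% ht, assoc, hc',
        reassoc_of% ht', Iso.inv_hom_id_assoc])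
  exact ⟨Θ, by rw [hΘ]; simp⟩

end generated

end TwistDescent
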