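import Pool.Agent.Lib.MP_7428c0_nt.Twist

/-!
# Building a functor from its values on generating objects
-/

set_option autoImplicit false

namespace TwistDescent

namespace Build

open CategoryTheory Category Limits

universe v u v' u' w

variable {C : Type u} [Category.{v} C] [Preadditive C] {D : Type u'} [Category.{v'} D]
  [Preadditive D] {J : Type w} (P : J → C) (S : J → D)

/-- An additive functor on the full subcategory of the objects `P j`. -/
structure Pre where
  /-- the action on morphisms -/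
  map : ∀ i j : J, (P i ⟶ P j) → (S i ⟶ S j)
  map_id : ∀ i, map i i (𝟙 (P i)) = 𝟙 (S i)
  map_comp : ∀ (i j k : J) (f : P i ⟶ P j) (g : P j ⟶ P k),
    map i k (f ≫ g) = map i j f ≫ map j k g
  map_add : ∀ (i j : J) (f g : P i ⟶ P j), map i j (f + g) = map i j f + map i j g

variable {P S}

/-- The additive map on a Hom group. -/
def Pre.hom (Φ : Pre P S) (i j : J) : (P i ⟶ P j) →+ (S i ⟶ S j) where
  toFun := Φ.map i j
  map_zero' := by
    have h := Φ.map_add i j 0 0
    rw [add_zero] at h
    exact left_eq_add.mp h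
  map_add' := Φ.map_add i j

theorem Pre.map_sum (Φ : Pre P S) {i j : J} {T : Type} (s : Finset T) (f : T → (P i ⟶ P j)) :
    Φ.map i j (∑ t ∈ s, f t) = ∑ t ∈ s, Φ.map i j (f t) := _root_.map_sum (Φ.hom i j) f s

/-- The value of the functor at `x`. -/
structure Value (Φ : Pre P S) (x : C) where
  /-- the object -/
  obj : D
  /-- the action on morphisms to generating objects -/
  a : ∀ k : J, (x ⟶ P k) →+ (obj ⟶ S k)
  /-- the action on morphisms from generating objects -/
  b : ∀ i : J, (P i ⟶ x) →+ (S i ⟶ obj)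
  ba : ∀ (i k : J) (p : P i ⟶ x) (q : x ⟶ P k), b i p ≫ a k q = Φ.map i k (p ≫ q)
  a_comp : ∀ (i k : J) (q : x ⟶ P i) (r : P i ⟶ P k), a i q ≫ Φ.map i k r = a k (q ≫ r)
  comp_b : ∀ (i k : J) (r : P i ⟶ P k) (p : P k ⟶ x), Φ.map i k r ≫ b k p = b i (r ≫ p)
  total : ∃ (n : ℕ) (j : Fin n → J) (α : ∀ t, x ⟶ P (j t)) (β : ∀ t, P (j t) ⟶ x),
    ∑ t, α t ≫ β t = 𝟙 x ∧ ∑ t, a (j t) (α t) ≫ b (j t) (β t) = 𝟙 obj

variable [HasFiniteBiproducts D] [IsIdempotentComplete D]

theorem exists_value (Φ : Pre P S) {x : C} (hx : GeneratedBy P x) : Nonempty (Value Φ x) := by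
  obtain ⟨n, j, α, β, hαβ⟩ := hx
  let Z : D := ⨁ fun t => S (j t)
  let E : Z ⟶ Z := ∑ s, ∑ t, biproduct.π (fun t => S (j t)) s ≫
    Φ.map (j s) (j t) (β s ≫ α t) ≫ biproduct.ι (fun t => S (j t)) t
  have hιπ : ∀ s t, biproduct.ι (fun t => S (j t)) s ≫ biproduct.π (fun t => S (j t)) t =
      if h : s = t then eqToHom (by rw [h]) else 0 := fun s t => biproduct.ι_π _ s t
  have hιE : ∀ s, biproduct.ι (fun t => S (j t)) s ≫ E =
      ∑ t, Φ.map (j s) (j t) (β s ≫ α t) ≫ biproduct.ι (fun t => S (j t)) t := by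
    intro s
    show _ ≫ (∑ s, ∑ t, _) = _
    rw [Preadditive.comp_sum, Finset.sum_eq_single s]
    · rw [Preadditive.comp_sum]
      refine Finset.sum_congr rfl fun t _ => ?_
      rw [← assoc, biproduct.ι_π_self, id_comp]
    · intro r _ hr
      rw [Preadditive.comp_sum]
      refine Finset.sum_eq_zero fun t _ => ?_
      rw [← assoc, biproduct.ι_π_ne _ (Ne.symm hr), zero_comp]
    · intro h
      exact absurd (Finset.mem_univ s) h
  have hιEπ : ∀ s t, biproduct.ι (fun t => S (j t)) s ≫ E ≫ biproduct.π (fun t => S (j t)) t =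
      Φ.map (j s) (j t) (β s ≫ α t) := by
    intro s t
    rw [← assoc, hιE, Preadditive.sum_comp, Finset.sum_eq_single t]
    · rw [assoc, biproduct.ι_π_self, comp_id]
    · intro r _ hr
      rw [assoc, biproduct.ι_π_ne _ hr, comp_zero]
    · intro h
      exact absurd (Finset.mem_univ t) h
  have hE : E ≫ E = E := by
    apply biproduct.hom_ext'
    intro s
    rw [← assoc, hιE, Preadditive.sum_comp]
    have h1 : ∀ t, (Φ.map (j s) (j t) (β s ≫ α t) ≫ biproduct.ι (fun t => S (j t)) t) ≫ E =
        ∑ r, Φ.map (j s) (j r) (β s ≫ (α t ≫ β t) ≫ α r) ≫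
          biproduct.ι (fun t => S (j t)) r := by
      intro t
      rw [assoc, hιE, Preadditive.comp_sum]
      refine Finset.sum_congr rfl fun r _ => ?_
      rw [← assoc, ← Φ.map_comp]
      simp only [assoc]
    rw [Finset.sum_congr rfl fun t _ => h1 t, Finset.sum_comm]
    refine Finset.sum_congr rfl fun r _ => ?_
    rw [← Preadditive.sum_comp, ← Φ.map_sum, ← Preadditive.comp_sum, ← Preadditive.sum_comp, hαβ,
      id_comp]
  obtain ⟨Y, i, e, hie, hei⟩ := IsIdempotentComplete.idempotents_split Z E hE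
  have hei' : ∀ s t, (biproduct.ι (fun t => S (j t)) s ≫ e) ≫
      (i ≫ biproduct.π (fun t => S (j t)) t) = Φ.map (j s) (j t) (β s ≫ α t) := by
    intro s t
    rw [assoc, ← assoc e, hei, hιEπ]
  let a' : ∀ k : J, (x ⟶ P k) → (Y ⟶ S k) := fun k q =>
    ∑ s, (i ≫ biproduct.π (fun t => S (j t)) s) ≫ Φ.map (j s) k (β s ≫ q)
  let b' : ∀ k : J, (P k ⟶ x) → (S k ⟶ Y) := fun k p =>
    ∑ t, Φ.map k (j t) (p ≫ α t) ≫ (biproduct.ι (fun t => S (j t)) t ≫ e)
  have hba : ∀ (l k : J) (p : P l ⟶ x) (q : x ⟶ P k), b' l p ≫ a' k q = Φ.map l k (p ≫ q) := by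
    intro l k p q
    show (∑ t, _) ≫ (∑ s, _) = _
    rw [Preadditive.sum_comp]
    have h1 : ∀ t, (Φ.map l (j t) (p ≫ α t) ≫ (biproduct.ι (fun t => S (j t)) t ≫ e)) ≫
        (∑ s, (i ≫ biproduct.π (fun t => S (j t)) s) ≫ Φ.map (j s) k (β s ≫ q)) =
        Φ.map l k ((p ≫ α t ≫ β t) ≫ q) := by
      intro t
      rw [Preadditive.comp_sum]
      have h2 : ∀ s, (Φ.map l (j t) (p ≫ α t) ≫ (biproduct.ι (fun t => S (j t)) t ≫ e)) ≫
          (i ≫ biproduct.π (fun t => S (j t)) s) ≫ Φ.map (j s) k (β s ≫ q) =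
          Φ.map l k (((p ≫ α t) ≫ β t) ≫ (α s ≫ β s) ≫ q) := by
        intro s
        rw [assoc, ← assoc (biproduct.ι (fun t => S (j t)) t ≫ e), hei', ← Φ.map_comp,
          ← Φ.map_comp]
        simp only [assoc]
      rw [Finset.sum_congr rfl fun s _ => h2 s, ← Φ.map_sum, ← Preadditive.comp_sum,
        ← Preadditive.sum_comp, hαβ, id_comp]
      simp only [assoc]
    rw [Finset.sum_congr rfl fun t _ => h1 t, ← Φ.map_sum, ← Preadditive.sum_comp,
      ← Preadditive.comp_sum, hαβ, comp_id]
  have htot : ∑ t, a' (j t) (α t) ≫ b' (j t) (β t) = 𝟙 Y := by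
    have h1 : ∀ t, a' (j t) (α t) = i ≫ biproduct.π (fun t => S (j t)) t := by
      intro t
      show (∑ s, _) = _
      have h2 : ∀ s, (i ≫ biproduct.π (fun t => S (j t)) s) ≫ Φ.map (j s) (j t) (β s ≫ α t) =
          i ≫ (biproduct.π (fun t => S (j t)) s ≫ biproduct.ι (fun t => S (j t)) s) ≫ e ≫
            i ≫ biproduct.π (fun t => S (j t)) t := by
        intro s
        rw [← hei']
        simp only [assoc]
      rw [Finset.sum_congr rfl fun s _ => h2 s, ← Preadditive.comp_sum, ← Preadditive.sum_comp,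
        biproduct.total, id_comp, ← assoc, hie, id_comp]
    have h3 : ∀ t, b' (j t) (β t) = biproduct.ι (fun t => S (j t)) t ≫ e := by
      intro t
      show (∑ s, _) = _
      have h2 : ∀ s, Φ.map (j t) (j s) (β t ≫ α s) ≫ (biproduct.ι (fun t => S (j t)) s ≫ e) =
          ((biproduct.ι (fun t => S (j t)) t ≫ e) ≫ i) ≫ (biproduct.π (fun t => S (j t)) s ≫
            biproduct.ι (fun t => S (j t)) s) ≫ e := by
        intro s
        rw [← hei']
        simp only [assoc]
      rw [Finset.sum_congr rfl fun s _ => h2 s, ← Preadditive.comp_sum, ← Preadditive.sum_comp,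
        biproduct.total, id_comp]
      simp only [assoc]
      rw [hie, comp_id]
    have h4 : ∀ t, a' (j t) (α t) ≫ b' (j t) (β t) = i ≫ (biproduct.π (fun t => S (j t)) t ≫
        biproduct.ι (fun t => S (j t)) t) ≫ e := by
      intro t
      rw [h1, h3]
      simp only [assoc]
    rw [Finset.sum_congr rfl fun t _ => h4 t, ← Preadditive.comp_sum, ← Preadditive.sum_comp,
      biproduct.total, id_comp, hie]
  refine ⟨{ obj := Y
            a := fun k => AddMonoidHom.mk' (a' k) ?_
            b := fun k => AddMonoidHom.mk' (b' k) ?_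
            ba := hba
            a_comp := ?_
            comp_b := ?_
            total := ⟨n, j, α, β, hαβ, htot⟩ }⟩
  · intro p q
    show (∑ s, _) = (∑ s, _) + (∑ s, _)
    rw [← Finset.sum_add_distrib]
    refine Finset.sum_congr rfl fun s _ => ?_
    rw [Preadditive.comp_add, Φ.map_add, Preadditive.comp_add]
  · intro p q
    show (∑ s, _) = (∑ s, _) + (∑ s, _)
    rw [← Finset.sum_add_distrib]
    refine Finset.sum_congr rfl fun s _ => ?_
    rw [Preadditive.add_comp, Φ.map_add, Preadditive.add_comp]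
  · intro l k q r
    show (∑ s : Fin n, _) ≫ _ = (∑ s : Fin n, _)
    rw [Preadditive.sum_comp]
    refine Finset.sum_congr rfl fun s _ => ?_
    rw [assoc, ← Φ.map_comp]
    simp only [assoc]
  · intro l k r p
    show Φ.map l k r ≫ (∑ t : Fin n, Φ.map k (j t) (p ≫ α t) ≫
      (biproduct.ι (fun t => S (j t)) t ≫ e)) = (∑ t : Fin n, Φ.map l (j t) ((r ≫ p) ≫ α t) ≫
      (biproduct.ι (fun t => S (j t)) t ≫ e))
    rw [Preadditive.comp_sum]
    refine Finset.sum_congr rfl fun s _ => ?_
    rw [← assoc, ← Φ.map_comp, assoc]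


section functor

omit [HasFiniteBiproducts D] [IsIdempotentComplete D]

variable {Φ : Pre P S} (Y : ∀ x : C, Value Φ x)

/-- `a q ≫ b p` depends only on `q ≫ p`. -/
theorem ab_eq {x y : C} {n : ℕ} {j : Fin n → J} {α : ∀ t, x ⟶ P (j t)} {β : ∀ t, P (j t) ⟶ x}
    (htot : ∑ t, (Y x).a (j t) (α t) ≫ (Y x).b (j t) (β t) = 𝟙 (Y x).obj) (k : J)
    (q : x ⟶ P k) (p : P k ⟶ y) :
    (Y x).a k q ≫ (Y y).b k p = ∑ t, (Y x).a (j t) (α t) ≫ (Y y).b (j t) (β t ≫ q ≫ p) := by
  conv_lhs => rw [← id_comp ((Y x).a k q), ← htot, Preadditive.sum_comp, Preadditive.sum_comp]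
  refine Finset.sum_congr rfl fun t _ => ?_
  rw [assoc, assoc, ← assoc ((Y x).b _ _), (Y x).ba, (Y y).comp_b, assoc]

/-- The morphism of values. -/
noncomputable def mor {x y : C} (f : x ⟶ y) : (Y x).obj ⟶ (Y y).obj :=
  ∑ t, (Y x).a ((Y x).total.choose_spec.choose t) ((Y x).total.choose_spec.choose_spec.choose t) ≫
    (Y y).b ((Y x).total.choose_spec.choose t)
      ((Y x).total.choose_spec.choose_spec.choose_spec.choose t ≫ f)

theorem total_fst (x : C) : ∑ t, (Y x).total.choose_spec.choose_spec.choose t ≫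
    (Y x).total.choose_spec.choose_spec.choose_spec.choose t = 𝟙 x :=
  (Y x).total.choose_spec.choose_spec.choose_spec.choose_spec.1

theorem total_snd (x : C) : ∑ t, (Y x).a ((Y x).total.choose_spec.choose t)
      ((Y x).total.choose_spec.choose_spec.choose t) ≫
    (Y x).b ((Y x).total.choose_spec.choose t)
      ((Y x).total.choose_spec.choose_spec.choose_spec.choose t) = 𝟙 (Y x).obj :=
  (Y x).total.choose_spec.choose_spec.choose_spec.choose_spec.2

theorem a_b {x y : C} (k : J) (q : x ⟶ P k) (p : P k ⟶ y) :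
    (Y x).a k q ≫ (Y y).b k p = mor Y (q ≫ p) :=
  ab_eq Y (total_snd Y x) k q p

theorem b_mor {x y : C} (k : J) (p : P k ⟶ x) (f : x ⟶ y) :
    (Y x).b k p ≫ mor Y f = (Y y).b k (p ≫ f) := by
  unfold mor
  rw [Preadditive.comp_sum]
  have h1 : ∀ t, (Y x).b k p ≫ (Y x).a ((Y x).total.choose_spec.choose t)
      ((Y x).total.choose_spec.choose_spec.choose t) ≫
      (Y y).b ((Y x).total.choose_spec.choose t)
      ((Y x).total.choose_spec.choose_spec.choose_spec.choose t ≫ f) =
      (Y y).b k (p ≫ ((Y x).total.choose_spec.choose_spec.choose t ≫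
        (Y x).total.choose_spec.choose_spec.choose_spec.choose t) ≫ f) := by
    intro t
    rw [← assoc, (Y x).ba, (Y y).comp_b]
    simp only [assoc]
  rw [Finset.sum_congr rfl fun t _ => h1 t, ← map_sum, ← Preadditive.comp_sum,
    ← Preadditive.sum_comp, total_fst, id_comp]

theorem mor_a {x y : C} (k : J) (f : x ⟶ y) (q : y ⟶ P k) :
    mor Y f ≫ (Y y).a k q = (Y x).a k (f ≫ q) := by
  unfold mor
  rw [Preadditive.sum_comp]
  have h1 : ∀ t, ((Y x).a ((Y x).total.choose_spec.choose t)
      ((Y x).total.choose_spec.choose_spec.choose t) ≫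
      (Y y).b ((Y x).total.choose_spec.choose t)
      ((Y x).total.choose_spec.choose_spec.choose_spec.choose t ≫ f)) ≫ (Y y).a k q =
      (Y x).a k (((Y x).total.choose_spec.choose_spec.choose t ≫
        (Y x).total.choose_spec.choose_spec.choose_spec.choose t) ≫ f ≫ q) := by
    intro t
    rw [assoc, (Y y).ba, (Y x).a_comp]
    simp only [assoc]
  rw [Finset.sum_congr rfl fun t _ => h1 t, ← map_sum, ← Preadditive.sum_comp, total_fst, id_comp]

theorem mor_id (x : C) : mor Y (𝟙 x) = 𝟙 (Y x).obj := by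
  unfold mor
  simp only [comp_id]
  exact total_snd Y x

theorem mor_comp {x y z : C} (f : x ⟶ y) (g : y ⟶ z) : mor Y (f ≫ g) = mor Y f ≫ mor Y g := by
  conv_rhs => unfold mor
  conv_lhs => unfold mor
  rw [Preadditive.sum_comp]
  refine Finset.sum_congr rfl fun t _ => ?_
  have := b_mor Y ((Y x).total.choose_spec.choose t)
    ((Y x).total.choose_spec.choose_spec.choose_spec.choose t ≫ f) g
  rw [assoc]
  have h2 : (∑ s, (Y y).a ((Y y).total.choose_spec.choose s)
      ((Y y).total.choose_spec.choose_spec.choose s) ≫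
      (Y z).b ((Y y).total.choose_spec.choose s)
      ((Y y).total.choose_spec.choose_spec.choose_spec.choose s ≫ g)) = mor Y g := rfl
  rw [h2, this, assoc]

/-- The functor with the given values. -/
noncomputable def functor : C ⥤ D where
  obj x := (Y x).obj
  map f := mor Y f
  map_id x := mor_id Y x
  map_comp f g := mor_comp Y f g

instance : (functor Y).Additive where
  map_add := by
    intro x y f g
    show mor Y (f + g) = mor Y f + mor Y g
    unfold mor
    rw [← Finset.sum_add_distrib]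
    refine Finset.sum_congr rfl fun t _ => ?_
    rw [Preadditive.comp_add, map_add, Preadditive.comp_add]

/-- The identification of the value at a generating object. -/
noncomputable def valueIso (i : J) : (functor Y).obj (P i) ≅ S i where
  hom := (Y (P i)).a i (𝟙 (P i))
  inv := (Y (P i)).b i (𝟙 (P i))
  hom_inv_id := by
    show (Y (P i)).a i (𝟙 (P i)) ≫ (Y (P i)).b i (𝟙 (P i)) = 𝟙 (Y (P i)).obj
    rw [a_b, id_comp, mor_id]
  inv_hom_id := by
    show (Y (P i)).b i (𝟙 (P i)) ≫ (Y (P i)).a i (𝟙 (P i)) = 𝟙 (S i)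
    rw [(Y (P i)).ba, id_comp, Φ.map_id]

theorem valueIso_natural (i k : J) (φ : P i ⟶ P k) :
    (functor Y).map φ ≫ (valueIso Y k).hom = (valueIso Y i).hom ≫ Φ.map i k φ := by
  show mor Y φ ≫ (Y (P k)).a k (𝟙 (P k)) = (Y (P i)).a i (𝟙 (P i)) ≫ Φ.map i k φ
  rw [mor_a, (Y (P i)).a_comp, comp_id, id_comp]

theorem functor_faithful (hΦ : ∀ i k, Function.Injective (Φ.map i k)) :
    (functor Y).Faithful where
  map_injective := by
    intro x y f g h
    have h1 : ∀ (i k : J) (p : P i ⟶ x) (q : y ⟶ P k), p ≫ f ≫ q = p ≫ g ≫ q := by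
      intro i k p q
      apply hΦ
      have h2 : ∀ f : x ⟶ y, Φ.map i k (p ≫ f ≫ q) = (Y x).b i p ≫ mor Y f ≫ (Y y).a k q := by
        intro f
        rw [mor_a, (Y x).ba]
      rw [h2, h2]
      have h3 : mor Y f = mor Y g := h
      rw [h3]
    have e1 := total_fst Y x
    have e2 := total_fst Y y
    calc f = (∑ t, (Y x).total.choose_spec.choose_spec.choose t ≫
          (Y x).total.choose_spec.choose_spec.choose_spec.choose t) ≫ f ≫
          (∑ t, (Y y).total.choose_spec.choose_spec.choose t ≫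
            (Y y).total.choose_spec.choose_spec.choose_spec.choose t) := by
          rw [e1, e2, id_comp, comp_id]
      _ = (∑ t, (Y x).total.choose_spec.choose_spec.choose t ≫
          (Y x).total.choose_spec.choose_spec.choose_spec.choose t) ≫ g ≫
          (∑ t, (Y y).total.choose_spec.choose_spec.choose t ≫
            (Y y).total.choose_spec.choose_spec.choose_spec.choose t) := by
          rw [Preadditive.sum_comp, Preadditive.sum_comp]
          refine Finset.sum_congr rfl fun t _ => ?_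
          rw [Preadditive.comp_sum, Preadditive.comp_sum, Preadditive.comp_sum,
            Preadditive.comp_sum]
          refine Finset.sum_congr rfl fun s _ => ?_
          have := h1 _ _ ((Y x).total.choose_spec.choose_spec.choose_spec.choose t)
            ((Y y).total.choose_spec.choose_spec.choose s)
          simp only [assoc]
          rw [← assoc f, ← assoc (_ : P _ ⟶ x), this]
          simp only [assoc]
      _ = g := by rw [e1, e2, id_comp, comp_id]

theorem mor_add {x y : C} (f g : x ⟶ y) : mor Y (f + g) = mor Y f + mor Y g := by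
  unfold mor
  rw [← Finset.sum_add_distrib]
  refine Finset.sum_congr rfl fun t _ => ?_
  rw [Preadditive.comp_add, map_add, Preadditive.comp_add]

/-- `mor` as an additive map. -/
noncomputable def morHom (x y : C) : (x ⟶ y) →+ ((Y x).obj ⟶ (Y y).obj) :=
  AddMonoidHom.mk' (mor Y) (mor_add Y)

theorem mor_sum {x y : C} {T : Type} (s : Finset T) (f : T → (x ⟶ y)) :
    mor Y (∑ t ∈ s, f t) = ∑ t ∈ s, mor Y (f t) := map_sum (morHom Y x y) f s

theorem mor_surjective (hΦ : ∀ i k, Function.Surjective (Φ.map i k)) {x y : C}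
    (g : (Y x).obj ⟶ (Y y).obj) : ∃ f : x ⟶ y, mor Y f = g := by
  choose γ hγ using fun (s : Fin (Y x).total.choose) (t : Fin (Y y).total.choose) =>
    hΦ ((Y x).total.choose_spec.choose s) ((Y y).total.choose_spec.choose t)
      ((Y x).b _ ((Y x).total.choose_spec.choose_spec.choose_spec.choose s) ≫ g ≫
        (Y y).a _ ((Y y).total.choose_spec.choose_spec.choose t))
  refine ⟨∑ s, ∑ t, (Y x).total.choose_spec.choose_spec.choose s ≫ γ s t ≫
    (Y y).total.choose_spec.choose_spec.choose_spec.choose t, ?_⟩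
  have e1 := total_snd Y x
  have e2 := total_snd Y y
  have h1 : ∀ s t, mor Y ((Y x).total.choose_spec.choose_spec.choose s ≫ γ s t ≫
      (Y y).total.choose_spec.choose_spec.choose_spec.choose t) =
      ((Y x).a _ ((Y x).total.choose_spec.choose_spec.choose s) ≫
        (Y x).b _ ((Y x).total.choose_spec.choose_spec.choose_spec.choose s)) ≫ g ≫
        (Y y).a _ ((Y y).total.choose_spec.choose_spec.choose t) ≫
          (Y y).b _ ((Y y).total.choose_spec.choose_spec.choose_spec.choose t) := by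
    intro s t
    rw [← a_b, ← (Y y).comp_b, hγ]
    simp only [assoc]
  rw [mor_sum]
  have h2 : ∀ s, mor Y (∑ t, (Y x).total.choose_spec.choose_spec.choose s ≫ γ s t ≫
      (Y y).total.choose_spec.choose_spec.choose_spec.choose t) =
      ((Y x).a _ ((Y x).total.choose_spec.choose_spec.choose s) ≫
        (Y x).b _ ((Y x).total.choose_spec.choose_spec.choose_spec.choose s)) ≫ g := by
    intro s
    rw [mor_sum, Finset.sum_congr rfl fun t _ => h1 s t, ← Preadditive.comp_sum,
      ← Preadditive.comp_sum, e2, comp_id]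
  rw [Finset.sum_congr rfl fun s _ => h2 s, ← Preadditive.sum_comp, e1, id_comp]

theorem functor_full (hΦ : ∀ i k, Function.Surjective (Φ.map i k)) : (functor Y).Full where
  map_surjective := fun g => mor_surjective Y hΦ g

end functor

/-- Existence of the functor. -/
theorem exists_functor (Φ : Pre P S) (hP : ∀ x, GeneratedBy P x)
    (hΦ : ∀ i k, Function.Bijective (Φ.map i k)) :
    ∃ (F : C ⥤ D) (t : ∀ j, F.obj (P j) ≅ S j), F.Additive ∧ F.Full ∧ F.Faithful ∧
      ∀ (i k : J) (φ : P i ⟶ P k), F.map φ ≫ (t k).hom = (t i).hom ≫ Φ.map i k φ := by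
  let Y : ∀ x, Value Φ x := fun x => (exists_value Φ (hP x)).some
  exact ⟨functor Y, valueIso Y, inferInstance, functor_full Y fun i k => (hΦ i k).2,
    functor_faithful Y fun i k => (hΦ i k).1, valueIso_natural Y⟩

end Build

end TwistDescent
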