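import Pool.Agent.Lib.MP_7428c0_nt.Square

/-!
# Changing the linearization by a character of `A`

In a `k`-linear category on which `A` acts by `k`-linear functors, the linearization of an
equivariant object can be multiplied by a character of `A`. For equivariant representations this is
conjugation by an element of the big group, and it permutes the Whittaker data.
-/

set_option autoImplicit false

namespace TwistDescent

open CategoryTheory Category

universe v u v' u' w w'

variable {C : Type u} [Category.{v} C] {D : Type u'} [Category.{v'} D] {A : Type w} [AddGroup A]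
  {k : Type w'} [CommRing k] [Preadditive C] [Linear k C] [Preadditive D] [Linear k D]
  [HasShift C A] [HasShift D A]
  [∀ a : A, (shiftFunctor C a).Linear k] [∀ a : A, (shiftFunctor D a).Linear k]

/-- The isomorphism multiplied by a unit. -/
def unitIso (c : kˣ) {x y : C} (e : x ≅ y) : x ≅ y where
  hom := (c : k) • e.hom
  inv := ((c⁻¹ : kˣ) : k) • e.inv
  hom_inv_id := by
    rw [Linear.smul_comp, Linear.comp_smul, e.hom_inv_id, smul_smul, Units.mul_inv, one_smul]
  inv_hom_id := by
    rw [Linear.smul_comp, Linear.comp_smul, e.inv_hom_id, smul_smul, Units.inv_mul, one_smul]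

/-- The object `x` with every linearization multiplied by the character `ω` of `A`. -/
def charTwistObj (ω : Multiplicative A →* kˣ) (x : Equivariant C A) : Equivariant C A where
  obj := x.obj
  lin := fun a => unitIso (ω (Multiplicative.ofAdd a)) (x.lin a)
  lin_zero := by
    have h1 : ω (Multiplicative.ofAdd (0 : A)) = 1 := map_one ω
    simp only [unitIso, h1, Units.val_one, one_smul, x.lin_zero]
  lin_add := fun a b => by
    have h1 : ω (Multiplicative.ofAdd (a + b)) =
        ω (Multiplicative.ofAdd a) * ω (Multiplicative.ofAdd b) := by
      rw [ofAdd_add, map_mul]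
    simp only [unitIso, h1, Units.val_mul, x.lin_add, Functor.map_smul, Linear.smul_comp,
      Linear.comp_smul, smul_smul]

/-- Multiply every linearization by the character `ω` of `A`. -/
def charTwist (ω : Multiplicative A →* kˣ) : Equivariant C A ⥤ Equivariant C A where
  obj x := charTwistObj ω x
  map {x y} f :=
    { hom := Equivariant.Hom.hom (x := x) (y := y) f
      comm := fun a => by
        have h1 := Equivariant.Hom.comm (x := x) (y := y) f a
        simp only [charTwistObj, unitIso, Linear.smul_comp, Linear.comp_smul, h1] }
  map_id x := rfl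
  map_comp f g := rfl

/-- A linear functor commuting with the twists commutes with `charTwist`. -/
theorem charTwist_mapEq (F : C ⥤ D) [F.CommShift A] [F.Linear k] (ω : Multiplicative A →* kˣ) :
    Nonempty (charTwist ω ⋙ mapEq (A := A) F ≅ mapEq F ⋙ charTwist ω) := by
  refine ⟨NatIso.ofComponents
    (fun x => Equivariant.mkIso (Iso.refl (F.obj x.obj) : ((charTwist ω ⋙ mapEq F).obj x).obj ≅
      ((mapEq F ⋙ charTwist ω).obj x).obj) ?_) ?_⟩
  · intro a
    have h1 : (F.map (((ω (Multiplicative.ofAdd a) : kˣ) : k) • (x.lin a).hom) ≫
        (F.commShiftIso a).hom.app x.obj) ≫ (𝟙 (F.obj x.obj))⟦a⟧' =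
        𝟙 (F.obj x.obj) ≫ (((ω (Multiplicative.ofAdd a) : kˣ) : k) •
          (F.map (x.lin a).hom ≫ (F.commShiftIso a).hom.app x.obj)) := by
      rw [Functor.map_smul, CategoryTheory.Functor.map_id, id_comp, Linear.smul_comp]
      exact comp_id _
    exact h1
  · intro x y f
    apply Equivariant.hom_ext
    have h1 : F.map (Equivariant.Hom.hom f) ≫ 𝟙 (F.obj y.obj) =
      𝟙 (F.obj x.obj) ≫ F.map (Equivariant.Hom.hom f) := by rw [comp_id, id_comp]
    exact h1

end TwistDescent
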