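import Pool.Agent.Lib.MP_7428c0_nt.Levi

/-!
# Automatic coherence of the induction isomorphisms
-/

set_option autoImplicit false

namespace TwistDescent

namespace Levi

open CategoryTheory Category

universe u v u' v' w

section defs

variable {ι : Type w} [Preorder ι] {R : ι → Type u} [∀ M, Category.{v} (R M)]

/-- Isomorphisms `id ≅ ind_M^M` and `ind_L^M ∘ ind_K^L ≅ ind_K^M` (transitivity of induction)
compatible with the vectors `u`. -/
structure TransData (ind : ∀ L M : ι, L ≤ M → (R L ⥤ R M)) (W : ∀ M, R M)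
    (u : ∀ (L M : ι) (h : L ≤ M), W M ⟶ (ind L M h).obj (W L)) where
  /-- the identity is induction from `M` to `M` -/
  unit : ∀ M, 𝟭 (R M) ≅ ind M M le_rfl
  /-- induction in stages -/
  mul : ∀ (K L M : ι) (h : K ≤ L) (h' : L ≤ M), ind K L h ⋙ ind L M h' ≅ ind K M (h.trans h')
  unit_vec : ∀ M, (unit M).hom.app (W M) = u M M le_rfl
  mul_vec : ∀ (K L M : ι) (h : K ≤ L) (h' : L ≤ M),
    u L M h' ≫ (ind L M h').map (u K L h) ≫ (mul K L M h h').hom.app (W K) = u K M (h.trans h')

variable {X : ι → Type u'} [∀ M, Category.{v'} (X M)]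
  {ind : ∀ L M : ι, L ≤ M → (R L ⥤ R M)} {spec : ∀ L M : ι, L ≤ M → (X L ⥤ X M)}
  {W : ∀ M, R M} {O : ∀ M, X M} (u : ∀ (L M : ι) (h : L ≤ M), W M ⟶ (ind L M h).obj (W L))
  (v : ∀ (L M : ι) (h : L ≤ M), O M ⟶ (spec L M h).obj (O L)) {F : ∀ M, R M ⥤ X M}
  (e : ∀ M, (F M).obj (W M) ≅ O M)
  (η : ∀ (L M : ι) (h : L ≤ M), ind L M h ⋙ F M ≅ F L ⋙ spec L M h)

/-- The isomorphisms `η` take the vectors `u` to the vectors `v`. -/
def NormalSquares : Prop :=
  ∀ (L M : ι) (h : L ≤ M),
    (F M).map (u L M h) ≫ (η L M h).hom.app (W L) ≫ (spec L M h).map (e L).hom =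
      (e M).hom ≫ v L M h

variable {u v}

/-- The isomorphisms `η : F M ∘ ind ≅ spec ∘ F L` are compatible with the isomorphisms `id ≅ ind`
and `ind ∘ ind ≅ ind` and their spectral counterparts. -/
structure Coherent (α : TransData ind W u) (β : TransData spec O v) : Prop where
  unit : ∀ (M : ι) (x : R M), (F M).map ((α.unit M).hom.app x) ≫ (η M M le_rfl).hom.app x =
    (β.unit M).hom.app ((F M).obj x)
  mul : ∀ (K L M : ι) (h : K ≤ L) (h' : L ≤ M) (x : R K),
    (F M).map ((α.mul K L M h h').hom.app x) ≫ (η K M (h.trans h')).hom.app x =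
      (η L M h').hom.app ((ind K L h).obj x) ≫ (spec L M h').map ((η K L h).hom.app x) ≫
        (β.mul K L M h h').hom.app ((F K).obj x)

end defs

section main

variable {ι : Type w} [Preorder ι] {R : ι → Type u} [∀ M, Category.{v} (R M)]
  [∀ M, Preadditive (R M)] {X : ι → Type u'} [∀ M, Category.{v'} (X M)]
  {ind : ∀ L M : ι, L ≤ M → (R L ⥤ R M)} {spec : ∀ L M : ι, L ≤ M → (X L ⥤ X M)}
  {W : ∀ M, R M} {O : ∀ M, X M} {u : ∀ (L M : ι) (h : L ≤ M), W M ⟶ (ind L M h).obj (W L)}
  {v : ∀ (L M : ι) (h : L ≤ M), O M ⟶ (spec L M h).obj (O L)} {F : ∀ M, R M ⥤ X M}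

theorem normal_unique (hW : WhittakerData ind spec W O u v) (hF : Solves ind spec W O F)
    (e : ∀ M, (F M).obj (W M) ≅ O M)
    {η η' : ∀ (L M : ι) (h : L ≤ M), ind L M h ⋙ F M ≅ F L ⋙ spec L M h}
    (h1 : NormalSquares u v e η) (h2 : NormalSquares u v e η') : η = η' := by
  have := hF.full
  have := hF.faithful
  funext L M h
  refine Rigid.unique (Rigid.comp (hW.rigid h) (F M)) _ _ ?_
  rw [← cancel_mono ((spec L M h).map (e L).hom), assoc, assoc]
  exact (h1 L M h).trans (h2 L M h).symm

theorem coherent_of_normal (hW : WhittakerData ind spec W O u v) (hF : Solves ind spec W O F)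
    (e : ∀ M, (F M).obj (W M) ≅ O M) (α : TransData ind W u) (β : TransData spec O v)
    {η : ∀ (L M : ι) (h : L ≤ M), ind L M h ⋙ F M ≅ F L ⋙ spec L M h}
    (hη : NormalSquares u v e η) : Coherent η α β := by
  have := hF.full
  have := hF.faithful
  constructor
  · intro M x
    let a : 𝟭 (R M) ⋙ F M ≅ F M ⋙ spec M M le_rfl :=
      Functor.isoWhiskerRight (α.unit M) (F M) ≪≫ η M M le_rfl
    let b : 𝟭 (R M) ⋙ F M ≅ F M ⋙ spec M M le_rfl :=
      (F M).leftUnitor ≪≫ (F M).rightUnitor.symm ≪≫ Functor.isoWhiskerLeft (F M) (β.unit M)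
    have ha : ∀ y, a.hom.app y = (F M).map ((α.unit M).hom.app y) ≫
        (η M M le_rfl).hom.app y := fun y => rfl
    have hb : ∀ y, b.hom.app y = (β.unit M).hom.app ((F M).obj y) := by
      intro y
      simp [b]
    have hab : a = b := by
      refine Rigid.unique (Rigid.comp (hW.rigid_id M) (F M)) _ _ ?_
      rw [ha, hb, CategoryTheory.Functor.map_id, ← cancel_mono ((spec M M le_rfl).map (e M).hom)]
      have h1 := hη M M le_rfl
      have h2 : (e M).hom ≫ (β.unit M).hom.app (O M) = (β.unit M).hom.app ((F M).obj (W M)) ≫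
          (spec M M le_rfl).map (e M).hom := (β.unit M).hom.naturality (e M).hom
      have h3 : 𝟙 ((F M).obj (W M)) ≫ (F M).map ((α.unit M).hom.app (W M)) =
          (F M).map (u M M le_rfl) := by
        rw [α.unit_vec, id_comp]
      calc (𝟙 ((F M).obj (W M)) ≫ (F M).map ((α.unit M).hom.app (W M)) ≫
            (η M M le_rfl).hom.app (W M)) ≫ (spec M M le_rfl).map (e M).hom
          = (F M).map (u M M le_rfl) ≫ (η M M le_rfl).hom.app (W M) ≫
              (spec M M le_rfl).map (e M).hom := by rw [← h3]; simp only [assoc]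
        _ = (e M).hom ≫ v M M le_rfl := h1
        _ = (e M).hom ≫ (β.unit M).hom.app (O M) := by rw [β.unit_vec]
        _ = (𝟙 ((F M).obj (W M)) ≫ (β.unit M).hom.app ((F M).obj (W M))) ≫
              (spec M M le_rfl).map (e M).hom := by rw [h2, id_comp]
    rw [← ha, hab, hb]
  · intro K L M h h' x
    let a : (ind K L h ⋙ ind L M h') ⋙ F M ≅ F K ⋙ spec K M (h.trans h') :=
      Functor.isoWhiskerRight (α.mul K L M h h') (F M) ≪≫ η K M (h.trans h')
    let b : (ind K L h ⋙ ind L M h') ⋙ F M ≅ F K ⋙ spec K M (h.trans h') :=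
      Functor.associator _ _ _ ≪≫ Functor.isoWhiskerLeft (ind K L h) (η L M h') ≪≫
        (Functor.associator _ _ _).symm ≪≫ Functor.isoWhiskerRight (η K L h) (spec L M h') ≪≫
          Functor.associator _ _ _ ≪≫ Functor.isoWhiskerLeft (F K) (β.mul K L M h h')
    have ha : ∀ y, a.hom.app y = (F M).map ((α.mul K L M h h').hom.app y) ≫
        (η K M (h.trans h')).hom.app y := fun y => rfl
    have hb : ∀ y, b.hom.app y = (η L M h').hom.app ((ind K L h).obj y) ≫
        (spec L M h').map ((η K L h).hom.app y) ≫ (β.mul K L M h h').hom.app ((F K).obj y) := by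
      intro y
      simp [b]
    -- the composite of the vectors is rigid
    have hr : Rigid (ind K L h ⋙ ind L M h') (W K) (u L M h' ≫ (ind L M h').map (u K L h)) := by
      intro θ hθ
      have hθ' : u L M h' ≫ (ind L M h').map (u K L h) ≫ θ.hom.app (W K) =
          u L M h' ≫ (ind L M h').map (u K L h) := by
        rw [← assoc]
        exact hθ
      have h1 := hW.rigid (h.trans h') ((α.mul K L M h h').symm ≪≫ θ ≪≫ α.mul K L M h h') (by
        rw [← α.mul_vec K L M h h']
        simp only [Iso.trans_hom, Iso.symm_hom, NatTrans.comp_app, assoc,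
          Iso.hom_inv_id_app_assoc]
        rw [reassoc_of% hθ'])
      intro y
      have h2 := h1 y
      simp only [Iso.trans_hom, Iso.symm_hom, NatTrans.comp_app] at h2
      rw [← cancel_epi ((α.mul K L M h h').inv.app y), ← cancel_mono
        ((α.mul K L M h h').hom.app y), assoc, h2]
      simp
    have hab : a = b := by
      refine Rigid.unique (Rigid.comp hr (F M)) _ _ ?_
      rw [ha, hb, ← cancel_mono ((spec K M (h.trans h')).map (e K).hom)]
      have h1 := hη K M (h.trans h')
      have h2 := hη K L h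
      have h3 := hη L M h'
      have n1 : (F M).map ((ind L M h').map (u K L h)) ≫ (η L M h').hom.app ((ind K L h).obj (W K)) =
          (η L M h').hom.app (W L) ≫ (spec L M h').map ((F L).map (u K L h)) :=
        (η L M h').hom.naturality (u K L h)
      have n2 : (spec L M h').map ((spec K L h).map (e K).hom) ≫
          (β.mul K L M h h').hom.app (O K) =
          (β.mul K L M h h').hom.app ((F K).obj (W K)) ≫
            (spec K M (h.trans h')).map (e K).hom := (β.mul K L M h h').hom.naturality (e K).hom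
      have e1 : (F M).map (u L M h' ≫ (ind L M h').map (u K L h)) ≫
          (F M).map ((α.mul K L M h h').hom.app (W K)) = (F M).map (u K M (h.trans h')) := by
        rw [← Functor.map_comp, assoc, α.mul_vec]
      calc ((F M).map (u L M h' ≫ (ind L M h').map (u K L h)) ≫
            (F M).map ((α.mul K L M h h').hom.app (W K)) ≫
              (η K M (h.trans h')).hom.app (W K)) ≫ (spec K M (h.trans h')).map (e K).hom
          = (F M).map (u K M (h.trans h')) ≫ (η K M (h.trans h')).hom.app (W K) ≫
              (spec K M (h.trans h')).map (e K).hom := by rw [← e1]; simp only [assoc]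
        _ = (e M).hom ≫ v K M (h.trans h') := h1
        _ = ((e M).hom ≫ v L M h') ≫ (spec L M h').map (v K L h) ≫
              (β.mul K L M h h').hom.app (O K) := by rw [← β.mul_vec K L M h h', assoc]
        _ = ((F M).map (u L M h') ≫ (η L M h').hom.app (W L) ≫
              (spec L M h').map (e L).hom) ≫ (spec L M h').map (v K L h) ≫
              (β.mul K L M h h').hom.app (O K) := by rw [h3]
        _ = ((F M).map (u L M h') ≫ (η L M h').hom.app (W L)) ≫
              (spec L M h').map ((F L).map (u K L h) ≫ (η K L h).hom.app (W K) ≫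
                (spec K L h).map (e K).hom) ≫ (β.mul K L M h h').hom.app (O K) := by
            rw [h2]; simp only [assoc, Functor.map_comp]
        _ = _ := by
            simp only [Functor.map_comp, assoc]
            rw [n2, ← reassoc_of% n1]
    rw [← ha, hab, hb]

end main

end Levi

end TwistDescent
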