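import Mathlib

/-!
# Equivariant objects

A commutative group `A` (of characters of a group) acts on a category `C` by twists: this is
Mathlib's `HasShift C A` (a monoidal functor from `A` to the endofunctors of `C`), and a functor
which commutes with the twists in a coherent way is Mathlib's `Functor.CommShift`.
`Equivariant C A` is the category of objects `x` with coherent isomorphisms of `x` with its twists.
-/

set_option autoImplicit false

namespace TwistDescent

open CategoryTheory Category

universe v u v' u' w

/-- An object of `C` with an `A`-linearization: isomorphisms with all its twists, compatible with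
the group structure of `A`. -/
structure Equivariant (C : Type u) [Category.{v} C] (A : Type w) [AddMonoid A] [HasShift C A] where
  /-- the underlying object -/
  obj : C
  /-- the isomorphism with the twist -/
  lin (a : A) : obj ≅ obj⟦a⟧
  lin_zero : (lin 0).hom = (shiftFunctorZero C A).inv.app obj
  lin_add (a b : A) : (lin (a + b)).hom =
    (lin b).hom ≫ (lin a).hom⟦b⟧' ≫ (shiftFunctorAdd C a b).inv.app obj

namespace Equivariant

variable {C : Type u} [Category.{v} C] {A : Type w} [AddMonoid A] [HasShift C A]

/-- A morphism of equivariant objects: it commutes with the linearizations. -/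
@[ext]
structure Hom (x y : Equivariant C A) where
  /-- the underlying morphism -/
  hom : x.obj ⟶ y.obj
  comm (a : A) : (x.lin a).hom ≫ hom⟦a⟧' = hom ≫ (y.lin a).hom

instance : Category (Equivariant C A) where
  Hom x y := Hom x y
  id x := ⟨𝟙 _, fun a => by simp⟩
  comp f g := ⟨f.hom ≫ g.hom, fun a => by
    rw [Functor.map_comp, ← assoc, f.comm, assoc, g.comm, assoc]⟩
  id_comp f := Hom.ext (id_comp _)
  comp_id f := Hom.ext (comp_id _)
  assoc f g h := Hom.ext (Category.assoc _ _ _)

@[simp] theorem id_hom (x : Equivariant C A) : Hom.hom (𝟙 x) = 𝟙 x.obj := rfl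

@[simp] theorem comp_hom {x y z : Equivariant C A} (f : x ⟶ y) (g : y ⟶ z) :
    Hom.hom (f ≫ g) = Hom.hom f ≫ Hom.hom g := rfl

@[ext] theorem hom_ext {x y : Equivariant C A} {f g : x ⟶ y} (h : Hom.hom f = Hom.hom g) : f = g :=
  Hom.ext h

/-- An isomorphism of the underlying objects that commutes with the linearizations. -/
def mkIso {x y : Equivariant C A} (e : x.obj ≅ y.obj)
    (he : ∀ a : A, (x.lin a).hom ≫ e.hom⟦a⟧' = e.hom ≫ (y.lin a).hom) : x ≅ y where
  hom := ⟨e.hom, he⟩
  inv := ⟨e.inv, fun a => by
    rw [← cancel_epi e.hom, ← assoc, ← he a, assoc, ← Functor.map_comp, e.hom_inv_id,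
      CategoryTheory.Functor.map_id, comp_id, e.hom_inv_id_assoc]⟩
  hom_inv_id := Hom.ext e.hom_inv_id
  inv_hom_id := Hom.ext e.inv_hom_id

variable (C A) in
/-- The underlying object. -/
def forget : Equivariant C A ⥤ C where
  obj x := x.obj
  map f := Hom.hom f

end Equivariant

section map

variable {C : Type u} [Category.{v} C] {D : Type u'} [Category.{v'} D] {A : Type w} [AddMonoid A]
  [HasShift C A] [HasShift D A]

/-- The image of an equivariant object under a functor which commutes with the twists. -/
def mapEqObj (F : C ⥤ D) [F.CommShift A] (x : Equivariant C A) : Equivariant D A where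
  obj := F.obj x.obj
  lin := fun a => F.mapIso (x.lin a) ≪≫ (F.commShiftIso a).app x.obj
  lin_zero := by
    rw [Iso.trans_hom, Functor.mapIso_hom, x.lin_zero, Iso.app_hom, F.commShiftIso_zero,
      Functor.CommShift.isoZero_hom_app, ← Functor.map_comp_assoc, Iso.inv_hom_id_app]
    simp
  lin_add := fun a b => by
    simp only [Iso.trans_hom, Functor.mapIso_hom, Iso.app_hom]
    rw [x.lin_add, F.commShiftIso_add, Functor.CommShift.isoAdd_hom_app]
    simp only [Functor.map_comp, assoc]
    rw [← F.map_comp_assoc ((shiftFunctorAdd C a b).inv.app x.obj), Iso.inv_hom_id_app]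
    simp only [Functor.comp_obj, CategoryTheory.Functor.map_id, id_comp]
    have := F.commShiftIso_hom_naturality (x.lin a).hom b
    rw [← reassoc_of% this]

/-- The image of an equivariant morphism is equivariant. -/
theorem mapEqObj_comm (F : C ⥤ D) [F.CommShift A] {x y : Equivariant C A} (f : x ⟶ y) (a : A) :
    ((mapEqObj F x).lin a).hom ≫ (F.map (Equivariant.Hom.hom f))⟦a⟧' =
      F.map (Equivariant.Hom.hom f) ≫ ((mapEqObj F y).lin a).hom := by
  simp only [mapEqObj, Iso.trans_hom, Functor.mapIso_hom, Iso.app_hom, assoc]
  have h1 := F.commShiftIso_hom_naturality (Equivariant.Hom.hom f) a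
  rw [← h1, ← F.map_comp_assoc, ← F.map_comp_assoc, f.comm]

/-- A functor which commutes with the twists acts on equivariant objects. -/
def mapEq (F : C ⥤ D) [F.CommShift A] : Equivariant C A ⥤ Equivariant D A where
  obj x := mapEqObj F x
  map f := ⟨F.map (Equivariant.Hom.hom f), mapEqObj_comm F f⟩
  map_id _ := Equivariant.Hom.ext (F.map_id _)
  map_comp _ _ := Equivariant.Hom.ext (F.map_comp _ _)

theorem mapEq_full (F : C ⥤ D) [F.CommShift A] [F.Full] [F.Faithful] :
    (mapEq (A := A) F).Full where
  map_surjective := by
    intro x y f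
    obtain ⟨g, hg⟩ : ∃ g : x.obj ⟶ y.obj, F.map g = Equivariant.Hom.hom f :=
      F.map_surjective (Equivariant.Hom.hom f)
    refine ⟨⟨g, fun a => ?_⟩, Equivariant.Hom.ext hg⟩
    apply F.map_injective
    rw [← cancel_mono ((F.commShiftIso a).hom.app y.obj)]
    have h1 := F.commShiftIso_hom_naturality g a
    have h2 := f.comm a
    rw [← hg] at h2
    simp only [mapEq, mapEqObj, Iso.trans_hom, Functor.mapIso_hom, Iso.app_hom, assoc] at h2
    simp only [Functor.map_comp, assoc]
    rw [h1]
    exact h2

theorem mapEq_faithful (F : C ⥤ D) [F.CommShift A] [F.Faithful] :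
    (mapEq (A := A) F).Faithful where
  map_injective := by
    intro x y f g h
    refine Equivariant.Hom.ext (F.map_injective ?_)
    exact congrArg Equivariant.Hom.hom h

end map

end TwistDescent
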