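import Pool.Agent.Lib.MP_7428c0_nt.Build

/-!
# Existence of a family from the maps between endomorphism rings
-/

set_option autoImplicit false

namespace TwistDescent

namespace Levi

open CategoryTheory Category Limits

universe u v u' v' w

section defs

variable {ι : Type w} [Preorder ι] {R : ι → Type u} [∀ M, Category.{v} (R M)]

/-- Induction is trivial for `M ≤ M` and transitive, compatibly with the given vectors. -/
structure Transitive (ind : ∀ L M : ι, L ≤ M → (R L ⥤ R M)) (W : ∀ M, R M)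
    (u : ∀ (L M : ι) (h : L ≤ M), W M ⟶ (ind L M h).obj (W L)) : Prop where
  refl : ∀ M, ∃ ρ : 𝟭 (R M) ≅ ind M M le_rfl, ρ.hom.app (W M) = u M M le_rfl
  trans : ∀ (K L M : ι) (h : K ≤ L) (h' : L ≤ M),
    ∃ τ : ind K L h ⋙ ind L M h' ≅ ind K M (h.trans h'),
      u L M h' ≫ (ind L M h').map (u K L h) ≫ τ.hom.app (W K) = u K M (h.trans h')

variable {X : ι → Type u'} [∀ M, Category.{v'} (X M)]
  (ind : ∀ L M : ι, L ≤ M → (R L ⥤ R M)) (spec : ∀ L M : ι, L ≤ M → (X L ⥤ X M))
  {W : ∀ M, R M} {O : ∀ M, X M} (u : ∀ (L M : ι) (h : L ≤ M), W M ⟶ (ind L M h).obj (W L))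
  (v : ∀ (L M : ι) (h : L ≤ M), O M ⟶ (spec L M h).obj (O L))
  (χ : ∀ M, (W M ⟶ W M) → (O M ⟶ O M))

/-- The morphisms `φ : ind (W K) ⟶ ind (W L)` and `ψ : spec (O K) ⟶ spec (O L)` correspond to each
other under the maps `χ` from the endomorphisms of `W` to those of `O`: whenever `φ` takes the
multiple `z` of the vector `u` to the multiple `z'`, `ψ` takes the multiple `χ z` of `v` to the
multiple `χ z'`. -/
def Matches {K L M : ι} (h : K ≤ M) (h' : L ≤ M)
    (φ : (ind K M h).obj (W K) ⟶ (ind L M h').obj (W L))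
    (ψ : (spec K M h).obj (O K) ⟶ (spec L M h').obj (O L)) : Prop :=
  ∀ (z : W K ⟶ W K) (z' : W L ⟶ W L),
    u K M h ≫ (ind K M h).map z ≫ φ = u L M h' ≫ (ind L M h').map z' →
      v K M h ≫ (spec K M h).map (χ K z) ≫ ψ = v L M h' ≫ (spec L M h').map (χ L z')

/-- Under `χ`, the morphisms between the induced Whittaker objects and the morphisms between
the spectral Eisenstein objects `spec (O L)` correspond bijectively to each other. -/
def Matching : Prop :=
  ∀ (K L M : ι) (h : K ≤ M) (h' : L ≤ M),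
    (∀ φ : (ind K M h).obj (W K) ⟶ (ind L M h').obj (W L),
      ∃! ψ : (spec K M h).obj (O K) ⟶ (spec L M h').obj (O L),
        Matches ind spec u v χ h h' φ ψ) ∧
    ∀ ψ : (spec K M h).obj (O K) ⟶ (spec L M h').obj (O L),
      ∃ φ : (ind K M h).obj (W K) ⟶ (ind L M h').obj (W L), Matches ind spec u v χ h h' φ ψ

omit [Preorder ι] in
/-- The maps `χ M` are additive and bijective. -/
structure AdditiveBijections [∀ M, Preadditive (R M)] [∀ M, Preadditive (X M)] : Prop where
  map_add : ∀ (M : ι) (a b : W M ⟶ W M), χ M (a + b) = χ M a + χ M b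
  bijective : ∀ M, Function.Bijective (χ M)

/-- The maps `χ M` are compatible with the composition of endomorphisms. -/
def MapsComp : Prop :=
  ∀ (M : ι) (a b : W M ⟶ W M), χ M (a ≫ b) = χ M a ≫ χ M b

/-- The functors `F M` are additive and satisfy the conditions of the question, and the
isomorphisms `e M` of the images of the Whittaker objects with the structure sheaves induce the
maps `χ M` on endomorphisms. -/
structure IsFamily [∀ M, Preadditive (R M)] [∀ M, Preadditive (X M)] (F : ∀ M, R M ⥤ X M)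
    (e : ∀ M, (F M).obj (W M) ≅ O M) : Prop where
  additive : ∀ M, (F M).Additive
  solves : Solves ind spec W O F
  induces : ∀ (M : ι) (z : W M ⟶ W M), transport (F M) (e M) z = χ M z

/-- Each functor `F M` is isomorphic to `F' M` by exactly one isomorphism compatible with the
isomorphisms `e M` and `e' M`. -/
def UniquelyIso {F F' : ∀ M, R M ⥤ X M} (e : ∀ M, (F M).obj (W M) ≅ O M)
    (e' : ∀ M, (F' M).obj (W M) ≅ O M) : Prop :=
  ∀ M, ∃! θ : F M ≅ F' M, θ.hom.app (W M) ≫ (e' M).hom = (e M).hom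

end defs

section build

variable {ι : Type w} [Preorder ι] {R : ι → Type u} [∀ M, Category.{v} (R M)]
  [∀ M, Preadditive (R M)] {X : ι → Type u'} [∀ M, Category.{v'} (X M)]
  [∀ M, Preadditive (X M)]
  {ind : ∀ L M : ι, L ≤ M → (R L ⥤ R M)} {spec : ∀ L M : ι, L ≤ M → (X L ⥤ X M)}
  {W : ∀ M, R M} {O : ∀ M, X M} {u : ∀ (L M : ι) (h : L ≤ M), W M ⟶ (ind L M h).obj (W L)}
  {v : ∀ (L M : ι) (h : L ≤ M), O M ⟶ (spec L M h).obj (O L)}
  {χ : ∀ M, (W M ⟶ W M) ≃+ (O M ⟶ O M)}

theorem matches_id (hW : WhittakerData ind spec W O u v) {K M : ι} (h : K ≤ M) :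
    Matches ind spec u v (fun M => χ M) h h (𝟙 _) (𝟙 _) := by
  intro z z' hz
  rw [comp_id] at hz ⊢
  have h1 := (hW.universal K M h).freeOn (u K M h ≫ (ind K M h).map z)
  have h2 : z = z' := h1.unique rfl hz
  rw [h2]

theorem matches_comp (hW : WhittakerData ind spec W O u v) {K L N M : ι} {h : K ≤ M} {h' : L ≤ M}
    {h'' : N ≤ M} {φ : (ind K M h).obj (W K) ⟶ (ind L M h').obj (W L)}
    {φ' : (ind L M h').obj (W L) ⟶ (ind N M h'').obj (W N)}
    {ψ : (spec K M h).obj (O K) ⟶ (spec L M h').obj (O L)}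
    {ψ' : (spec L M h').obj (O L) ⟶ (spec N M h'').obj (O N)}
    (h1 : Matches ind spec u v (fun M => χ M) h h' φ ψ)
    (h2 : Matches ind spec u v (fun M => χ M) h' h'' φ' ψ') :
    Matches ind spec u v (fun M => χ M) h h'' (φ ≫ φ') (ψ ≫ ψ') := by
  intro z z'' hz
  obtain ⟨z', hz', -⟩ := (hW.universal L M h').freeOn (u K M h ≫ (ind K M h).map z ≫ φ)
  have h3 := h1 z z' hz'
  have hz'' : u K M h ≫ (ind K M h).map z ≫ φ = u L M h' ≫ (ind L M h').map z' := hz'
  have h4 := h2 z' z'' (by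
    rw [← hz, ← assoc (u L M h'), ← hz'']
    simp only [assoc])
  rw [← h4, ← assoc (v L M h'), ← h3]
  simp only [assoc]

theorem matches_add (hW : WhittakerData ind spec W O u v) [∀ L M h, (ind L M h).Additive]
    [∀ L M h, (spec L M h).Additive] {K L M : ι} {h : K ≤ M} {h' : L ≤ M}
    {φ φ' : (ind K M h).obj (W K) ⟶ (ind L M h').obj (W L)}
    {ψ ψ' : (spec K M h).obj (O K) ⟶ (spec L M h').obj (O L)}
    (h1 : Matches ind spec u v (fun M => χ M) h h' φ ψ)
    (h2 : Matches ind spec u v (fun M => χ M) h h' φ' ψ') :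
    Matches ind spec u v (fun M => χ M) h h' (φ + φ') (ψ + ψ') := by
  intro z z'' hz
  obtain ⟨z₁, hz₁, -⟩ := (hW.universal L M h').freeOn (u K M h ≫ (ind K M h).map z ≫ φ)
  obtain ⟨z₂, hz₂, -⟩ := (hW.universal L M h').freeOn (u K M h ≫ (ind K M h).map z ≫ φ')
  have h3 : v K M h ≫ (spec K M h).map (χ K z) ≫ ψ = v L M h' ≫ (spec L M h').map (χ L z₁) :=
    h1 z z₁ hz₁
  have h4 : v K M h ≫ (spec K M h).map (χ K z) ≫ ψ' = v L M h' ≫ (spec L M h').map (χ L z₂) :=
    h2 z z₂ hz₂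
  have hz₁' : u K M h ≫ (ind K M h).map z ≫ φ = u L M h' ≫ (ind L M h').map z₁ := hz₁
  have hz₂' : u K M h ≫ (ind K M h).map z ≫ φ' = u L M h' ≫ (ind L M h').map z₂ := hz₂
  have h5 : z₁ + z₂ = z'' := by
    refine ((hW.universal L M h').freeOn (u L M h' ≫ (ind L M h').map z'')).unique ?_ rfl
    show u L M h' ≫ (ind L M h').map z'' = u L M h' ≫ (ind L M h').map (z₁ + z₂)
    rw [← hz, Functor.map_add, Preadditive.comp_add, Preadditive.comp_add, Preadditive.comp_add,
      hz₁', hz₂']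
  show v K M h ≫ (spec K M h).map (χ K z) ≫ (ψ + ψ') = v L M h' ≫ (spec L M h').map (χ L z'')
  rw [← h5, map_add, Functor.map_add, Preadditive.comp_add, Preadditive.comp_add,
    Preadditive.comp_add, h3, h4]

theorem matches_injective (hW : WhittakerData ind spec W O u v) {K L M : ι} {h : K ≤ M}
    {h' : L ≤ M} {φ φ' : (ind K M h).obj (W K) ⟶ (ind L M h').obj (W L)}
    {ψ : (spec K M h).obj (O K) ⟶ (spec L M h').obj (O L)}
    (h1 : Matches ind spec u v (fun M => χ M) h h' φ ψ)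
    (h2 : Matches ind spec u v (fun M => χ M) h h' φ' ψ) : φ = φ' := by
  apply (hW.separator M).def
  intro w
  obtain ⟨z, hz, -⟩ := (hW.universal K M h).freeOn w
  have hz' : w = u K M h ≫ (ind K M h).map z := hz
  obtain ⟨z₁, hz₁, -⟩ := (hW.universal L M h').freeOn (w ≫ φ)
  obtain ⟨z₂, hz₂, -⟩ := (hW.universal L M h').freeOn (w ≫ φ')
  have hz₁' : w ≫ φ = u L M h' ≫ (ind L M h').map z₁ := hz₁
  have hz₂' : w ≫ φ' = u L M h' ≫ (ind L M h').map z₂ := hz₂
  have h3 := h1 z z₁ (by rw [← hz₁', hz', assoc])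
  have h4 := h2 z z₂ (by rw [← hz₂', hz', assoc])
  have h5 : χ L z₁ = χ L z₂ := (hW.spec_free L M h' _).unique h3 h4
  rw [hz₁', hz₂', (χ L).injective h5]

theorem matches_map (hW : WhittakerData ind spec W O u v)
    (hχ : ∀ (M : ι) (a b : W M ⟶ W M), χ M (a ≫ b) = χ M a ≫ χ M b) {K M : ι} (h : K ≤ M)
    (z : W K ⟶ W K) :
    Matches ind spec u v (fun M => χ M) h h ((ind K M h).map z) ((spec K M h).map (χ K z)) := by
  intro a b hab
  have h1 : a ≫ z = b := by
    refine ((hW.universal K M h).freeOn (u K M h ≫ (ind K M h).map b)).unique ?_ rfl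
    show u K M h ≫ (ind K M h).map b = u K M h ≫ (ind K M h).map (a ≫ z)
    rw [← hab, Functor.map_comp]
  show v K M h ≫ (spec K M h).map (χ K a) ≫ (spec K M h).map (χ K z) =
    v K M h ≫ (spec K M h).map (χ K b)
  rw [← h1, hχ, Functor.map_comp]

omit [Preorder ι] in
theorem map_one_of_mul (hχ : ∀ (M : ι) (a b : W M ⟶ W M), χ M (a ≫ b) = χ M a ≫ χ M b) (M : ι) :
    χ M (𝟙 (W M)) = 𝟙 (O M) := by
  obtain ⟨c, hc⟩ := (χ M).surjective (𝟙 (O M))
  have h1 := hχ M c (𝟙 (W M))
  rw [comp_id, hc, id_comp] at h1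
  exact h1.symm

theorem matches_unique (hM : Matching ind spec u v (fun M => χ M)) {K L M : ι} {h : K ≤ M}
    {h' : L ≤ M} {φ : (ind K M h).obj (W K) ⟶ (ind L M h').obj (W L)}
    {ψ ψ' : (spec K M h).obj (O K) ⟶ (spec L M h').obj (O L)}
    (h1 : Matches ind spec u v (fun M => χ M) h h' φ ψ)
    (h2 : Matches ind spec u v (fun M => χ M) h h' φ ψ') : ψ = ψ' :=
  ((hM K L M h h').1 φ).unique h1 h2

/-- The functor on the full subcategory of the induced Whittaker objects. -/
theorem exists_pre (hW : WhittakerData ind spec W O u v) [∀ L M h, (ind L M h).Additive]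
    [∀ L M h, (spec L M h).Additive] (hM : Matching ind spec u v (fun M => χ M)) (M : ι) :
    ∃ Φ : Build.Pre (fun L : {L : ι // L ≤ M} => (ind L M L.2).obj (W L))
      (fun L : {L : ι // L ≤ M} => (spec L M L.2).obj (O L)),
      (∀ K L, Function.Bijective (Φ.map K L)) ∧
      ∀ (K L : {L : ι // L ≤ M}) (φ : (ind K M K.2).obj (W K) ⟶ (ind L M L.2).obj (W L)),
        Matches ind spec u v (fun M => χ M) K.2 L.2 φ (Φ.map K L φ) := by
  have h0 : ∀ (K L : {L : ι // L ≤ M})
      (φ : (ind K M K.2).obj (W K) ⟶ (ind L M L.2).obj (W L)),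
      ∃ ψ : (spec K M K.2).obj (O K) ⟶ (spec L M L.2).obj (O L),
        Matches ind spec u v (fun M => χ M) K.2 L.2 φ ψ :=
    fun K L φ => ((hM K L M K.2 L.2).1 φ).exists
  choose f hf using h0
  refine ⟨{ map := f
            map_id := fun K => matches_unique hM (hf K K _) (matches_id hW K.2)
            map_comp := fun K L N φ φ' => matches_unique hM (hf K N _)
              (matches_comp hW (hf K L φ) (hf L N φ'))
            map_add := fun K L φ φ' => matches_unique hM (hf K L _)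
              (matches_add hW (hf K L φ) (hf K L φ')) }, fun K L => ⟨?_, ?_⟩, hf⟩
  · intro φ φ' h
    have h' : f K L φ = f K L φ' := h
    refine matches_injective hW (hf K L φ) ?_
    rw [h']
    exact hf K L φ'
  · intro ψ
    obtain ⟨φ, hφ⟩ := (hM K L M K.2 L.2).2 ψ
    exact ⟨φ, matches_unique hM (hf K L φ) hφ⟩

/-- Compatibility of the correspondence of morphisms with induction. -/
theorem matches_ind (hW : WhittakerData ind spec W O u v) {K L N M : ι} (hK : K ≤ N) (hL : L ≤ N) (hN : N ≤ M)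
    {τK : ind K N hK ⋙ ind N M hN ≅ ind K M (hK.trans hN)}
    {τL : ind L N hL ⋙ ind N M hN ≅ ind L M (hL.trans hN)}
    {σK : spec K N hK ⋙ spec N M hN ≅ spec K M (hK.trans hN)}
    {σL : spec L N hL ⋙ spec N M hN ≅ spec L M (hL.trans hN)}
    (hτK : u N M hN ≫ (ind N M hN).map (u K N hK) ≫ τK.hom.app (W K) = u K M (hK.trans hN))
    (hτL : u N M hN ≫ (ind N M hN).map (u L N hL) ≫ τL.hom.app (W L) = u L M (hL.trans hN))
    (hσK : v N M hN ≫ (spec N M hN).map (v K N hK) ≫ σK.hom.app (O K) = v K M (hK.trans hN))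
    (hσL : v N M hN ≫ (spec N M hN).map (v L N hL) ≫ σL.hom.app (O L) = v L M (hL.trans hN))
    {φ : (ind K N hK).obj (W K) ⟶ (ind L N hL).obj (W L)}
    {ψ : (spec K N hK).obj (O K) ⟶ (spec L N hL).obj (O L)}
    (h : Matches ind spec u v (fun M => χ M) hK hL φ ψ) :
    Matches ind spec u v (fun M => χ M) (hK.trans hN) (hL.trans hN)
      (τK.inv.app (W K) ≫ (ind N M hN).map φ ≫ τL.hom.app (W L))
      (σK.inv.app (O K) ≫ (spec N M hN).map ψ ≫ σL.hom.app (O L)) := by
  intro z z' hz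
  have n1 : (ind N M hN).map ((ind K N hK).map z) ≫ τK.hom.app (W K) =
      τK.hom.app (W K) ≫ (ind K M (hK.trans hN)).map z := τK.hom.naturality z
  have n2 : (ind N M hN).map ((ind L N hL).map z') ≫ τL.hom.app (W L) =
      τL.hom.app (W L) ≫ (ind L M (hL.trans hN)).map z' := τL.hom.naturality z'
  have n3 : (spec N M hN).map ((spec K N hK).map (χ K z)) ≫ σK.hom.app (O K) =
      σK.hom.app (O K) ≫ (spec K M (hK.trans hN)).map (χ K z) := σK.hom.naturality (χ K z)
  have n4 : (spec N M hN).map ((spec L N hL).map (χ L z')) ≫ σL.hom.app (O L) =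
      σL.hom.app (O L) ≫ (spec L M (hL.trans hN)).map (χ L z') := σL.hom.naturality (χ L z')
  have e1 : u N M hN ≫ (ind N M hN).map (u K N hK ≫ (ind K N hK).map z ≫ φ) =
      u N M hN ≫ (ind N M hN).map (u L N hL ≫ (ind L N hL).map z') := by
    rw [← cancel_mono (τL.hom.app (W L))]
    calc (u N M hN ≫ (ind N M hN).map (u K N hK ≫ (ind K N hK).map z ≫ φ)) ≫ τL.hom.app (W L)
        = u K M (hK.trans hN) ≫ (ind K M (hK.trans hN)).map z ≫ τK.inv.app (W K) ≫
            (ind N M hN).map φ ≫ τL.hom.app (W L) := by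
          rw [← hτK]
          simp only [assoc, Functor.map_comp]
          rw [← reassoc_of% n1, Iso.hom_inv_id_app_assoc]
      _ = u L M (hL.trans hN) ≫ (ind L M (hL.trans hN)).map z' := hz
      _ = (u N M hN ≫ (ind N M hN).map (u L N hL ≫ (ind L N hL).map z')) ≫
            τL.hom.app (W L) := by
          rw [← hτL]
          simp only [assoc, Functor.map_comp]
          rw [n2]
  have e2 : u K N hK ≫ (ind K N hK).map z ≫ φ = u L N hL ≫ (ind L N hL).map z' :=
    (hW.universal N M hN _ _).unique rfl e1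
  have e3 : v K N hK ≫ (spec K N hK).map (χ K z) ≫ ψ = v L N hL ≫ (spec L N hL).map (χ L z') :=
    h z z' e2
  show v K M (hK.trans hN) ≫ (spec K M (hK.trans hN)).map (χ K z) ≫ σK.inv.app (O K) ≫
    (spec N M hN).map ψ ≫ σL.hom.app (O L) =
    v L M (hL.trans hN) ≫ (spec L M (hL.trans hN)).map (χ L z')
  rw [← hσK, ← hσL]
  simp only [assoc]
  rw [← reassoc_of% n3, Iso.hom_inv_id_app_assoc, ← n4]
  simp only [← assoc, ← Functor.map_comp]
  rw [assoc (v N M hN), assoc (v N M hN), assoc (v K N hK), e3]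

/-- The functor for one standard Levi subgroup. -/
theorem exists_functor_of_matching (hW : WhittakerData ind spec W O u v) (hT : Transitive ind W u)
    (hT' : Transitive spec O v) [∀ L M h, (ind L M h).Additive]
    [∀ L M h, (spec L M h).Additive] [∀ M, HasFiniteBiproducts (X M)]
    [∀ M, IsIdempotentComplete (X M)]
    (hχ : ∀ (M : ι) (a b : W M ⟶ W M), χ M (a ≫ b) = χ M a ≫ χ M b)
    (hM : Matching ind spec u v (fun M => χ M)) (M : ι) :
    ∃ (F : R M ⥤ X M) (e : F.obj (W M) ≅ O M)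
      (t : ∀ (L : ι) (h : L ≤ M), F.obj ((ind L M h).obj (W L)) ≅ (spec L M h).obj (O L)),
      F.Additive ∧ F.Full ∧ F.Faithful ∧ (∀ z : W M ⟶ W M, transport F e z = χ M z) ∧
      (∀ (L : ι) (h : L ≤ M), F.map (u L M h) ≫ (t L h).hom = e.hom ≫ v L M h) ∧
      ∀ (K L : ι) (h : K ≤ M) (h' : L ≤ M) (φ : (ind K M h).obj (W K) ⟶ (ind L M h').obj (W L))
        (ψ : (spec K M h).obj (O K) ⟶ (spec L M h').obj (O L)),
        Matches ind spec u v (fun M => χ M) h h' φ ψ →
          F.map φ ≫ (t L h').hom = (t K h).hom ≫ ψ := by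
  obtain ⟨Φ, hΦ, hΦ'⟩ := exists_pre hW hM M
  obtain ⟨F, t, h1, h2, h3, h4⟩ := Build.exists_functor Φ (hW.generated M) hΦ
  obtain ⟨ρ, hρ⟩ := hT.refl M
  obtain ⟨ρ', hρ'⟩ := hT'.refl M
  have key : ∀ (K L : ι) (h : K ≤ M) (h' : L ≤ M)
      (φ : (ind K M h).obj (W K) ⟶ (ind L M h').obj (W L))
      (ψ : (spec K M h).obj (O K) ⟶ (spec L M h').obj (O L)),
      Matches ind spec u v (fun M => χ M) h h' φ ψ →
        F.map φ ≫ (t ⟨L, h'⟩).hom = (t ⟨K, h⟩).hom ≫ ψ := by
    intro K L h h' φ ψ hφ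
    rw [← matches_unique hM (hΦ' ⟨K, h⟩ ⟨L, h'⟩ φ) hφ]
    exact h4 ⟨K, h⟩ ⟨L, h'⟩ φ
  have hρi : u M M le_rfl ≫ ρ.inv.app (W M) = 𝟙 (W M) := by
    rw [← hρ, Iso.hom_inv_id_app]
    rfl
  let e : F.obj (W M) ≅ O M :=
    F.mapIso (ρ.app (W M)) ≪≫ t ⟨M, le_rfl⟩ ≪≫ (ρ'.app (O M)).symm
  have he : e.hom = F.map (u M M le_rfl) ≫ (t ⟨M, le_rfl⟩).hom ≫ ρ'.inv.app (O M) := by
    rw [← hρ]
    rfl
  refine ⟨F, e, fun L h => t ⟨L, h⟩, h1, h2, h3, ?_, ?_, key⟩
  · intro z
    have e1 : F.map z ≫ e.hom = e.hom ≫ χ M z := by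
      have n1 : z ≫ u M M le_rfl = u M M le_rfl ≫ (ind M M le_rfl).map z := by
        rw [← hρ]
        exact ρ.hom.naturality z
      have n2 : (spec M M le_rfl).map (χ M z) ≫ ρ'.inv.app (O M) =
          ρ'.inv.app (O M) ≫ χ M z := ρ'.inv.naturality (χ M z)
      have n3 := key M M le_rfl le_rfl _ _ (matches_map hW hχ le_rfl z)
      rw [he, ← assoc, ← F.map_comp, n1, F.map_comp, assoc, reassoc_of% n3, n2]
      simp only [assoc]
    unfold transport
    rw [e1, Iso.inv_hom_id_assoc]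
  · intro L h
    obtain ⟨ψ, hψ, -⟩ := (hM M L M le_rfl h).1 (ρ.inv.app (W M) ≫ u L M h)
    have hψ' : Matches ind spec u v (fun M => χ M) le_rfl h (ρ.inv.app (W M) ≫ u L M h) ψ := hψ
    have e1 : v M M le_rfl ≫ (spec M M le_rfl).map (χ M (𝟙 _)) ≫ ψ =
        v L M h ≫ (spec L M h).map (χ L (𝟙 _)) := hψ' (𝟙 _) (𝟙 _) (by
      rw [CategoryTheory.Functor.map_id, CategoryTheory.Functor.map_id, comp_id, id_comp,
        ← assoc, hρi, id_comp])
    rw [map_one_of_mul hχ, map_one_of_mul hχ, CategoryTheory.Functor.map_id,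
      CategoryTheory.Functor.map_id, comp_id, id_comp] at e1
    have e2 := key M L le_rfl h _ _ hψ'
    show F.map (u L M h) ≫ (t ⟨L, h⟩).hom = e.hom ≫ v L M h
    have e3 : F.map (u L M h) = F.map (u M M le_rfl) ≫ F.map (ρ.inv.app (W M) ≫ u L M h) := by
      rw [← F.map_comp, ← assoc, hρi, id_comp]
    rw [e3, assoc, e2, he, ← e1, ← hρ']
    simp only [assoc, Iso.inv_hom_id_app_assoc]

/-- Existence of the family. -/
theorem exists_family (hW : WhittakerData ind spec W O u v) (hT : Transitive ind W u)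
    (hT' : Transitive spec O v) [∀ L M h, (ind L M h).Additive]
    [∀ L M h, (spec L M h).Additive] [∀ M, HasFiniteBiproducts (X M)]
    [∀ M, IsIdempotentComplete (X M)]
    (hχ : ∀ (M : ι) (a b : W M ⟶ W M), χ M (a ≫ b) = χ M a ≫ χ M b)
    (hM : Matching ind spec u v (fun M => χ M)) :
    ∃ (F : ∀ M, R M ⥤ X M) (e : ∀ M, (F M).obj (W M) ≅ O M), (∀ M, (F M).Additive) ∧
      Solves ind spec W O F ∧
      ∀ (M : ι) (z : W M ⟶ W M), transport (F M) (e M) z = χ M z := by
  have key := exists_functor_of_matching hW hT hT' hχ hM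
  choose F e t h1 h2 h3 h4 h5 h6 using key
  refine ⟨F, e, h1, ⟨h2, h3, fun M => ⟨e M⟩, ?_⟩, h4⟩
  intro N M hN
  choose τ hτ using fun K : {K : ι // K ≤ N} => hT.trans K N M K.2 hN
  choose σ hσ using fun K : {K : ι // K ≤ N} => hT'.trans K N M K.2 hN
  have hFN := h1 N
  have hFM := h1 M
  let θ : ∀ K : {K : ι // K ≤ N}, (ind N M hN ⋙ F M).obj ((ind K N K.2).obj (W K)) ≅
      (F N ⋙ spec N M hN).obj ((ind K N K.2).obj (W K)) := fun K =>
    (F M).mapIso ((τ K).app (W K)) ≪≫ t M K (K.2.trans hN) ≪≫ ((σ K).app (O K)).symm ≪≫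
      (spec N M hN).mapIso (t N K K.2).symm
  obtain ⟨Θ, -⟩ := exists_extension_iso (hW.generated N) (ind N M hN ⋙ F M)
    (F N ⋙ spec N M hN) θ (by
      intro K L φ
      obtain ⟨ψ, hψ, -⟩ := (hM K L N K.2 L.2).1 φ
      have hψ' : Matches ind spec u v (fun M => χ M) K.2 L.2 φ ψ := hψ
      have e1 := h6 N K L K.2 L.2 φ ψ hψ'
      have e2 := h6 M K L (K.2.trans hN) (L.2.trans hN) _ _
        (matches_ind hW K.2 L.2 hN (hτ K) (hτ L) (hσ K) (hσ L) hψ')
      show (F M).map ((ind N M hN).map φ) ≫ (F M).map ((τ L).hom.app (W L)) ≫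
        (t M L (L.2.trans hN)).hom ≫ (σ L).inv.app (O L) ≫ (spec N M hN).map (t N L L.2).inv =
        ((F M).map ((τ K).hom.app (W K)) ≫ (t M K (K.2.trans hN)).hom ≫ (σ K).inv.app (O K) ≫
          (spec N M hN).map (t N K K.2).inv) ≫ (spec N M hN).map ((F N).map φ)
      have e3 : (F M).map ((ind N M hN).map φ) ≫ (F M).map ((τ L).hom.app (W L)) =
          (F M).map ((τ K).hom.app (W K)) ≫
            (F M).map ((τ K).inv.app (W K) ≫ (ind N M hN).map φ ≫ (τ L).hom.app (W L)) := by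
        rw [← Functor.map_comp, ← Functor.map_comp, Iso.hom_inv_id_app_assoc]
      rw [reassoc_of% e3, reassoc_of% e2]
      simp only [assoc, Iso.hom_inv_id_app_assoc, ← Functor.map_comp]
      have e4 : ψ ≫ (t N L L.2).inv = (t N K K.2).inv ≫ (F N).map φ := by
        rw [← cancel_epi (t N K K.2).hom, ← cancel_mono (t N L L.2).hom]
        simp only [assoc, Iso.inv_hom_id, comp_id, Iso.hom_inv_id_assoc]
        exact e1.symm
      rw [e4])
  exact ⟨Θ⟩

end build

section converse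

variable {ι : Type w} [Preorder ι] {R : ι → Type u} [∀ M, Category.{v} (R M)]
  [∀ M, Preadditive (R M)] {X : ι → Type u'} [∀ M, Category.{v'} (X M)]
  {ind : ∀ L M : ι, L ≤ M → (R L ⥤ R M)} {spec : ∀ L M : ι, L ≤ M → (X L ⥤ X M)}
  {W : ∀ M, R M} {O : ∀ M, X M} {u : ∀ (L M : ι) (h : L ≤ M), W M ⟶ (ind L M h).obj (W L)}
  {v : ∀ (L M : ι) (h : L ≤ M), O M ⟶ (spec L M h).obj (O L)}

/-- A family satisfying the conditions gives a matching. -/
theorem matching_of_family (hW : WhittakerData ind spec W O u v) {F : ∀ M, R M ⥤ X M}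
    (hF : Solves ind spec W O F) (e : ∀ M, (F M).obj (W M) ≅ O M) :
    Matching ind spec u v (fun M => transport (F M) (e M)) := by
  have := hF.full
  have := hF.faithful
  have ht : ∀ (L M : ι) (h : L ≤ M),
      ∃ t : (F M).obj ((ind L M h).obj (W L)) ≅ (spec L M h).obj (O L),
        (F M).map (u L M h) ≫ t.hom = (e M).hom ≫ v L M h ∧
        ∀ z : W L ⟶ W L, (F M).map ((ind L M h).map z) ≫ t.hom =
          t.hom ≫ (spec L M h).map (transport (F L) (e L) z) := by
    intro L M h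
    obtain ⟨η, hη⟩ := exists_square hW hF e L M h
    exact ⟨η.app (W L) ≪≫ (spec L M h).mapIso (e L), hη, fun z => square_transport e η z⟩
  choose t ht ht' using ht
  intro K L M h h'
  have key : ∀ (φ : (ind K M h).obj (W K) ⟶ (ind L M h').obj (W L))
      (ψ : (spec K M h).obj (O K) ⟶ (spec L M h').obj (O L)),
      Matches ind spec u v (fun M => transport (F M) (e M)) h h' φ ψ ↔
        (F M).map φ ≫ (t L M h').hom = (t K M h).hom ≫ ψ := by
    intro φ ψ
    constructor
    · intro hφ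
      obtain ⟨φ', hφ'⟩ : ∃ φ' : (ind K M h).obj (W K) ⟶ (ind L M h').obj (W L),
          (F M).map φ' = (t K M h).hom ≫ ψ ≫ (t L M h').inv := (F M).map_surjective _
      have e1 : φ = φ' := by
        apply (hW.separator M).def
        intro w
        obtain ⟨z, hz, -⟩ := (hW.universal K M h).freeOn w
        have hz' : w = u K M h ≫ (ind K M h).map z := hz
        obtain ⟨z', hz₁, -⟩ := (hW.universal L M h').freeOn (w ≫ φ)
        have hz₁' : w ≫ φ = u L M h' ≫ (ind L M h').map z' := hz₁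
        have e2 : v K M h ≫ (spec K M h).map (transport (F K) (e K) z) ≫ ψ =
          v L M h' ≫ (spec L M h').map (transport (F L) (e L) z') :=
          hφ z z' (by rw [← hz₁', hz', assoc])
        apply (F M).map_injective
        rw [hz₁', (F M).map_comp w, hφ', hz', ← cancel_mono (t L M h').hom]
        simp only [Functor.map_comp, assoc, Iso.inv_hom_id, comp_id]
        rw [ht' L M h', reassoc_of% (ht' K M h), reassoc_of% (ht L M h'),
          reassoc_of% (ht K M h), e2]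
      rw [e1, hφ']
      simp
    · intro hφ z z' hz
      show v K M h ≫ (spec K M h).map (transport (F K) (e K) z) ≫ ψ =
          v L M h' ≫ (spec L M h').map (transport (F L) (e L) z')
      rw [← cancel_epi (e M).hom, ← reassoc_of% (ht K M h), ← reassoc_of% (ht' K M h), ← hφ,
        ← reassoc_of% (ht L M h'), ← ht' L M h', ← Functor.map_comp_assoc,
        ← Functor.map_comp_assoc, ← Functor.map_comp_assoc, assoc, hz]
  refine ⟨fun φ => ⟨(t K M h).inv ≫ (F M).map φ ≫ (t L M h').hom, ?_, ?_⟩, fun ψ => ?_⟩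
  · show Matches ind spec u v (fun M => transport (F M) (e M)) h h' φ _
    rw [key, Iso.hom_inv_id_assoc]
  · intro ψ hψ
    have hψ' : Matches ind spec u v (fun M => transport (F M) (e M)) h h' φ ψ := hψ
    rw [key] at hψ'
    rw [hψ', Iso.inv_hom_id_assoc]
  · obtain ⟨φ, hφ⟩ : ∃ φ : (ind K M h).obj (W K) ⟶ (ind L M h').obj (W L),
          (F M).map φ = (t K M h).hom ≫ ψ ≫ (t L M h').inv := (F M).map_surjective _
    refine ⟨φ, ?_⟩
    rw [key, hφ]
    simp

end converse

end Levi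

end TwistDescent
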