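import Pool.Agent.Lib.MP_7428c0_nt.Family

/-!
# Extension of natural isomorphisms from generating objects

If every identity morphism is a finite sum of morphisms factoring through the objects `P j`, then
an isomorphism between two additive functors on the full subcategory of the objects `P j` extends
to all objects.
-/

set_option autoImplicit false

namespace TwistDescent

open CategoryTheory Category

universe v u v' u' w

/-- The identity of `x` is a finite sum of morphisms that factor through objects `P j`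
(`x` is a retract of a finite direct sum of objects `P j`). -/
def GeneratedBy {C : Type u} [Category.{v} C] [Preadditive C] {J : Type w} (P : J → C) (x : C) :
    Prop :=
  ∃ (n : ℕ) (j : Fin n → J) (α : ∀ t, x ⟶ P (j t)) (β : ∀ t, P (j t) ⟶ x),
    ∑ t, α t ≫ β t = 𝟙 x

/-- The vector `u : V ⟶ i W` is universal: every morphism `V ⟶ i x` is `u ≫ i f` for exactly one
`f : W ⟶ x`. -/
def Universal {C : Type u} [Category.{v} C] {D : Type u'} [Category.{v'} D] (i : C ⥤ D) {W : C}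
    {V : D} (u : V ⟶ i.obj W) : Prop :=
  ∀ (x : C) (w : V ⟶ i.obj x), ∃! f : W ⟶ x, w = u ≫ i.map f

section extend

variable {C : Type u} [Category.{v} C] [Preadditive C] {D : Type u'} [Category.{v'} D]
  [Preadditive D] {J : Type w} {P : J → C}

theorem exists_extension (hP : ∀ x, GeneratedBy P x) (F F' : C ⥤ D) [F.Additive] [F'.Additive]
    (θ : ∀ j, F.obj (P j) ⟶ F'.obj (P j))
    (hθ : ∀ (i j : J) (φ : P i ⟶ P j), F.map φ ≫ θ j = θ i ≫ F'.map φ) :
    ∃ Θ : F ⟶ F', ∀ j, Θ.app (P j) = θ j := by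
  choose n j α β hαβ using hP
  have key : ∀ (x y : C) (f : x ⟶ y), F.map f ≫ (∑ t, F.map (α y t) ≫ θ (j y t) ≫
      F'.map (β y t)) = (∑ t, F.map (α x t) ≫ θ (j x t) ≫ F'.map (β x t)) ≫ F'.map f := by
    intro x y f
    rw [Preadditive.comp_sum, Preadditive.sum_comp]
    have e1 : ∀ s, F.map f ≫ F.map (α y s) ≫ θ (j y s) ≫ F'.map (β y s) =
        ∑ t, F.map (α x t) ≫ θ (j x t) ≫ F'.map (β x t ≫ f ≫ α y s ≫ β y s) := by
      intro s
      have h1 : F.map f = ∑ t, F.map (α x t) ≫ F.map (β x t ≫ f) := by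
        conv_lhs => rw [← id_comp f, ← hαβ x]
        rw [Preadditive.sum_comp, Functor.map_sum]
        refine Finset.sum_congr rfl fun t _ => ?_
        rw [← F.map_comp, assoc]
      rw [h1, Preadditive.sum_comp]
      refine Finset.sum_congr rfl fun t _ => ?_
      have h2 := hθ (j x t) (j y s) (β x t ≫ f ≫ α y s)
      calc (F.map (α x t) ≫ F.map (β x t ≫ f)) ≫ F.map (α y s) ≫ θ (j y s) ≫ F'.map (β y s)
          = F.map (α x t) ≫ (F.map (β x t ≫ f ≫ α y s) ≫ θ (j y s)) ≫ F'.map (β y s) := by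
            simp only [Functor.map_comp, assoc]
        _ = F.map (α x t) ≫ θ (j x t) ≫ F'.map (β x t ≫ f ≫ α y s ≫ β y s) := by
            rw [h2]
            simp only [Functor.map_comp, assoc]
    have e2 : ∀ t, (F.map (α x t) ≫ θ (j x t) ≫ F'.map (β x t)) ≫ F'.map f =
        ∑ s, F.map (α x t) ≫ θ (j x t) ≫ F'.map (β x t ≫ f ≫ α y s ≫ β y s) := by
      intro t
      have h1 : β x t ≫ f = ∑ s, β x t ≫ f ≫ α y s ≫ β y s := by
        conv_lhs => rw [← comp_id f, ← hαβ y]
        rw [Preadditive.comp_sum, Preadditive.comp_sum]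
      rw [assoc, assoc, ← F'.map_comp, h1, Functor.map_sum, Preadditive.comp_sum,
        Preadditive.comp_sum]
    rw [Finset.sum_congr rfl fun s _ => e1 s, Finset.sum_congr rfl fun t _ => e2 t,
      Finset.sum_comm]
  refine ⟨{ app := fun x => ∑ t, F.map (α x t) ≫ θ (j x t) ≫ F'.map (β x t)
            naturality := fun x y f => key x y f }, fun i => ?_⟩
  show ∑ t, F.map (α (P i) t) ≫ θ (j (P i) t) ≫ F'.map (β (P i) t) = θ i
  have e3 : ∀ t, F.map (α (P i) t) ≫ θ (j (P i) t) ≫ F'.map (β (P i) t) =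
      F.map (α (P i) t ≫ β (P i) t) ≫ θ i := by
    intro t
    rw [← hθ, F.map_comp, assoc]
  rw [Finset.sum_congr rfl fun t _ => e3 t, ← Preadditive.sum_comp, ← Functor.map_sum, hαβ,
    CategoryTheory.Functor.map_id, id_comp]

/-- Two transformations that agree on generating objects are equal. -/
theorem extension_unique (hP : ∀ x, GeneratedBy P x) {F F' : C ⥤ D} [F.Additive]
    (Θ Θ' : F ⟶ F') (h : ∀ j, Θ.app (P j) = Θ'.app (P j)) : Θ = Θ' := by
  ext x
  obtain ⟨n, j, α, β, hαβ⟩ := hP x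
  have h1 : ∀ Ψ : F ⟶ F', Ψ.app x = ∑ t, F.map (α t) ≫ Ψ.app (P (j t)) ≫ F'.map (β t) := by
    intro Ψ
    conv_lhs => rw [← id_comp (Ψ.app x), ← CategoryTheory.Functor.map_id F, ← hαβ]
    rw [Functor.map_sum, Preadditive.sum_comp]
    refine Finset.sum_congr rfl fun t _ => ?_
    rw [F.map_comp, assoc, Ψ.naturality]
  rw [h1 Θ, h1 Θ']
  exact Finset.sum_congr rfl fun t _ => by rw [h]

theorem exists_extension_iso (hP : ∀ x, GeneratedBy P x) (F F' : C ⥤ D) [F.Additive]
    [F'.Additive] (θ : ∀ j, F.obj (P j) ≅ F'.obj (P j))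
    (hθ : ∀ (i j : J) (φ : P i ⟶ P j), F.map φ ≫ (θ j).hom = (θ i).hom ≫ F'.map φ) :
    ∃ Θ : F ≅ F', ∀ j, Θ.hom.app (P j) = (θ j).hom := by
  obtain ⟨Θ, hΘ⟩ := exists_extension hP F F' (fun j => (θ j).hom) hθ
  obtain ⟨Θ', hΘ'⟩ := exists_extension hP F' F (fun j => (θ j).inv) (by
    intro i j φ
    rw [← cancel_epi (θ i).hom, ← cancel_mono (θ j).hom]
    simp only [assoc, Iso.inv_hom_id, comp_id, Iso.hom_inv_id_assoc]
    exact (hθ i j φ).symm)
  refine ⟨⟨Θ, Θ', extension_unique hP _ _ fun j => ?_, extension_unique hP _ _ fun j => ?_⟩, hΘ⟩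
  · rw [NatTrans.comp_app, hΘ, hΘ', Iso.hom_inv_id]
    rfl
  · rw [NatTrans.comp_app, hΘ, hΘ', Iso.inv_hom_id]
    rfl

/-- Naturality with respect to morphisms from a separator is enough. -/
theorem exists_iso_of_separator (hP : ∀ x, GeneratedBy P x) (F F' : C ⥤ D) [F.Additive]
    [F'.Additive] [F'.Full] {W : C} (hW : IsSeparator W) (θ : ∀ j, F.obj (P j) ≅ F'.obj (P j))
    (θW : F.obj W ≅ F'.obj W)
    (h : ∀ (j : J) (w : W ⟶ P j), F.map w ≫ (θ j).hom = θW.hom ≫ F'.map w) [F'.Faithful] :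
    ∃ Θ : F ≅ F', (∀ j, Θ.hom.app (P j) = (θ j).hom) ∧ Θ.hom.app W = θW.hom := by
  obtain ⟨Θ, hΘ⟩ := exists_extension_iso hP F F' θ (by
    intro i j φ
    obtain ⟨φ', hφ'⟩ : ∃ φ' : P i ⟶ P j, F'.map φ' = (θ i).inv ≫ F.map φ ≫ (θ j).hom :=
      F'.map_surjective _
    have h1 : φ' = φ := by
      apply hW.def
      intro w
      apply F'.map_injective
      rw [F'.map_comp, hφ', ← cancel_epi θW.hom, ← assoc, ← h i w]
      simp only [assoc, Iso.hom_inv_id_assoc]
      rw [← h j (w ≫ φ), F.map_comp, assoc]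
    rw [← h1, hφ', Iso.hom_inv_id_assoc, h1])
  refine ⟨Θ, hΘ, ?_⟩
  obtain ⟨n, j, α, β, hαβ⟩ := hP W
  have h2 : θW.hom = ∑ t, F.map (α t) ≫ (θ (j t)).hom ≫ F'.map (β t) := by
    conv_lhs => rw [← comp_id θW.hom, ← CategoryTheory.Functor.map_id F', ← hαβ]
    rw [Functor.map_sum, Preadditive.comp_sum]
    refine Finset.sum_congr rfl fun t _ => ?_
    rw [F'.map_comp, ← assoc, ← h, assoc]
  have h3 : Θ.hom.app W = ∑ t, F.map (α t) ≫ (θ (j t)).hom ≫ F'.map (β t) := by
    conv_lhs => rw [← comp_id (Θ.hom.app W), ← CategoryTheory.Functor.map_id F', ← hαβ]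
    rw [Functor.map_sum, Preadditive.comp_sum]
    refine Finset.sum_congr rfl fun t _ => ?_
    rw [F'.map_comp, ← assoc, ← Θ.hom.naturality, hΘ, assoc]
  rw [h2, h3]

end extend

end TwistDescent
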