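import Pool.Agent.Lib.MP_7428c0_nt.Char

/-!
# Families of functors for all standard Levi subgroups

`Solves` states the conditions of the question for a family of functors, and `descend` is the
descent of such a family to equivariant objects.
-/

set_option autoImplicit false

namespace TwistDescent

open CategoryTheory Category

universe u v u' v' w

section solves

variable {ι : Type w} (G : ι) {R : ι → Type u} [∀ M, Category.{v} (R M)]
  {X : ι → Type u'} [∀ M, Category.{v'} (X M)]

/-- The conditions of the question on a family of functors `L M : R M ⥤ X M`, one for each standard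
Levi subgroup `M` of `G`: they are fully faithful, take the Whittaker object `W M` to the structure
sheaf `O M`, and take parabolic induction `ind M` to spectral parabolic induction `spec M`. -/
structure Solves (ind : ∀ M, R M ⥤ R G) (spec : ∀ M, X M ⥤ X G) (W : ∀ M, R M) (O : ∀ M, X M)
    (L : ∀ M, R M ⥤ X M) : Prop where
  full : ∀ M, (L M).Full
  faithful : ∀ M, (L M).Faithful
  whittaker : ∀ M, Nonempty ((L M).obj (W M) ≅ O M)
  induction : ∀ M, Nonempty (ind M ⋙ L G ≅ L M ⋙ spec M)

end solves

section family

variable {A : Type w} [AddGroup A] {ι : Type w} (G : ι) {R : ι → Type u}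
  [∀ M, Category.{v} (R M)] [∀ M, HasShift (R M) A] {X : ι → Type u'}
  [∀ M, Category.{v'} (X M)] [∀ M, HasShift (X M) A]
  (ind : ∀ M, R M ⥤ R G) [∀ M, (ind M).CommShift A]
  (spec : ∀ M, X M ⥤ X G) [∀ M, (spec M).CommShift A]
  (W : ∀ M, Equivariant (R M) A) (O : ∀ M, Equivariant (X M) A)
  (u : ∀ M, (W G).obj ⟶ (ind M).obj (W M).obj) (v : ∀ M, (O G).obj ⟶ (spec M).obj (O M).obj)

/-- The properties of the Whittaker objects `W M`, of the structure sheaves `O M` and of the
vectors `u M : W G ⟶ ind (W M)` and `v M : O G ⟶ spec (O M)`: the vectors are equivariant and free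
generators over the endomorphisms of `W M` and `O M`, every automorphism of `W M` is given by an
automorphism of the identity functor of `R M`, and an automorphism of the identity functor (of
parabolic induction) which is trivial on `W M` (on `u M`) is trivial. -/
structure WhittakerRigid : Prop where
  ind_equivariant : ∀ M, IsEquivariant (ind M) (W G) (W M) (u M)
  spec_equivariant : ∀ M, IsEquivariant (spec M) (O G) (O M) (v M)
  ind_free : ∀ M, FreeOn (ind M) (W M).obj (u M)
  spec_free : ∀ M, FreeOn (spec M) (O M).obj (v M)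
  center_onto : ∀ M, CenterOnto (W M).obj
  center_rigid : ∀ M, Rigid (𝟭 (R M)) (W M).obj (𝟙 (W M).obj)
  ind_rigid : ∀ M, Rigid (ind M) (W M).obj (u M)

variable {G ind spec W O u v}

/-- There is exactly one coherent system of isomorphisms of `F` with its twists for which the
given isomorphism `e : F W ≅ O` is equivariant. -/
theorem commShift_unique {C : Type u} [Category.{v} C] {D : Type u'} [Category.{v'} D]
    [HasShift C A] [HasShift D A] (F : C ⥤ D) [F.Full] [F.Faithful] (W : Equivariant C A)
    (O : Equivariant D A) (e : F.obj W.obj ≅ O.obj) (hR : Rigid (𝟭 C) W.obj (𝟙 W.obj))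
    (hZ : CenterOnto W.obj)
    (h : ∀ a : A, Nonempty (shiftFunctor C a ⋙ F ≅ F ⋙ shiftFunctor D a)) :
    ∃! c : F.CommShift A, ∀ a : A, Normalised F W O e a (c.commShiftIso a) := by
  refine ⟨commShiftOf F W O e hR hZ h, fun a => commShiftOf_normalised F W O e hR hZ h a, ?_⟩
  intro c hc
  have h1 : ∀ a, c.commShiftIso a = (commShiftOf F W O e hR hZ h).commShiftIso a := fun a =>
    Normalised.unique hR (hc a) (commShiftOf_normalised F W O e hR hZ h a)
  obtain ⟨c1, c2, c3⟩ := c
  generalize commShiftOf F W O e hR hZ h = d at h1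
  obtain ⟨d1, d2, d3⟩ := d
  have h2 : c1 = d1 := funext h1
  subst h2
  rfl

theorem descend (hW : WhittakerRigid G ind spec W O u v) (LLC : ∀ M, R M ⥤ X M)
    (hL : Solves G ind spec (fun M => (W M).obj) (fun M => (O M).obj) LLC)
    (hT : ∀ (M : ι) (a : A), Nonempty (shiftFunctor (R M) a ⋙ LLC M ≅
      LLC M ⋙ shiftFunctor (X M) a)) (e : ∀ M, (LLC M).obj (W M).obj ≅ (O M).obj) :
    ∃ c : ∀ M, (LLC M).CommShift A,
      (∀ (M : ι) (c' : (LLC M).CommShift A),
        (∀ a, Normalised (LLC M) (W M) (O M) (e M) a (c'.commShiftIso a)) ↔ c' = c M) ∧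
      Solves G (fun M => mapEq (A := A) (ind M)) (fun M => mapEq (spec M)) W O
        (fun M => mapEq (LLC M)) := by
  have := hL.full
  have := hL.faithful
  let c : ∀ M, (LLC M).CommShift A := fun M =>
    commShiftOf (LLC M) (W M) (O M) (e M) (hW.center_rigid M) (hW.center_onto M) (hT M)
  have hc : ∀ M a, Normalised (LLC M) (W M) (O M) (e M) a ((LLC M).commShiftIso a) := fun M a =>
    commShiftOf_normalised (LLC M) (W M) (O M) (e M) (hW.center_rigid M) (hW.center_onto M)
      (hT M) a
  refine ⟨c, fun M c' => ⟨fun h => ?_, fun h => ?_⟩, fun M => mapEq_full (LLC M),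
    fun M => mapEq_faithful (LLC M), fun M => ?_, fun M => ?_⟩
  · obtain ⟨c₀, h₀, h₁⟩ := commShift_unique (LLC M) (W M) (O M) (e M) (hW.center_rigid M)
      (hW.center_onto M) (hT M)
    rw [h₁ c' h]
    exact (h₁ (c M) (hc M)).symm
  · rw [h]
    exact hc M
  · refine ⟨Equivariant.mkIso (e M) fun a => ?_⟩
    have h1 := hc M a
    unfold Normalised at h1
    rw [← assoc] at h1
    exact h1
  · obtain ⟨η, hη⟩ := exists_normal_square (LLC M) (LLC G) (u M) (v M) (hW.ind_free M)
      (hW.spec_free M) (hW.center_onto M) (e M) (e G) (hL.induction M).some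
    exact square_mapEq (LLC M) (LLC G) η (fun a x => square_twist (LLC M) (LLC G) (u M) (v M)
      (hW.ind_equivariant M) (hW.spec_equivariant M) (hW.ind_rigid M) (e M) (e G) (hc M) (hc G)
      η hη a x)

end family

end TwistDescent
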