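import Pool.Agent.Lib.MP_7428c0_nt.Square

/-!
# Lifting equivariant objects to full subcategories
-/

set_option autoImplicit false

namespace TwistDescent

open CategoryTheory Category

universe v₁ u₁ v₂ u₂ v₃ u₃ v₄ u₄ w

section comp

variable {C : Type u₁} [Category.{v₁} C] {D : Type u₂} [Category.{v₂} D]
  {E : Type u₃} [Category.{v₃} E] {A : Type w} [AddMonoid A] [HasShift C A] [HasShift D A]
  [HasShift E A]

/-- Composition of functors on equivariant objects. -/
def mapEqComp (F : C ⥤ D) (G : D ⥤ E) [F.CommShift A] [G.CommShift A] :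
    mapEq (A := A) (F ⋙ G) ≅ mapEq F ⋙ mapEq G :=
  NatIso.ofComponents (fun x => Equivariant.mkIso (x := mapEqObj (F ⋙ G) x)
    (y := mapEqObj G (mapEqObj F x)) (Iso.refl (G.obj (F.obj x.obj))) (fun a => by
      have h1 : ((F ⋙ G).commShiftIso a).hom.app x.obj =
          G.map ((F.commShiftIso a).hom.app x.obj) ≫ (G.commShiftIso a).hom.app (F.obj x.obj) :=
        Functor.CommShift.comp_commShiftIso_hom_app ..
      have h2 : G.map (F.map (x.lin a).hom) ≫ ((F ⋙ G).commShiftIso a).hom.app x.obj =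
          G.map (F.map (x.lin a).hom ≫ (F.commShiftIso a).hom.app x.obj) ≫
            (G.commShiftIso a).hom.app (F.obj x.obj) := by
        rw [h1, Functor.map_comp, assoc]
      have h3 : (𝟙 (G.obj (F.obj x.obj)))⟦a⟧' = 𝟙 _ := CategoryTheory.Functor.map_id _ _
      show (G.map (F.map (x.lin a).hom) ≫ ((F ⋙ G).commShiftIso a).hom.app x.obj) ≫
          (𝟙 (G.obj (F.obj x.obj)))⟦a⟧' = 𝟙 (G.obj (F.obj x.obj)) ≫
          (G.map (F.map (x.lin a).hom ≫ (F.commShiftIso a).hom.app x.obj) ≫
            (G.commShiftIso a).hom.app (F.obj x.obj))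
      rw [h2, h3]
      exact (comp_id _).trans (id_comp _).symm)) (fun {x y} f => by
      apply Equivariant.hom_ext
      show G.map (F.map (Equivariant.Hom.hom f)) ≫ 𝟙 (G.obj (F.obj y.obj)) =
        𝟙 (G.obj (F.obj x.obj)) ≫ G.map (F.map (Equivariant.Hom.hom f))
      rw [comp_id, id_comp])

/-- An isomorphism compatible with the twists gives one on equivariant objects. -/
def mapEqIso {F G : C ⥤ D} [F.CommShift A] [G.CommShift A] (α : F ≅ G)
    [NatTrans.CommShift α.hom A] : mapEq (A := A) F ≅ mapEq G :=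
  NatIso.ofComponents (fun x => Equivariant.mkIso (x := mapEqObj F x) (y := mapEqObj G x)
    (α.app x.obj) (fun a => by
      have h1 : (F.commShiftIso a).hom.app x.obj ≫ (α.hom.app x.obj)⟦a⟧' =
          α.hom.app (x.obj⟦a⟧) ≫ (G.commShiftIso a).hom.app x.obj :=
        NatTrans.shift_app_comm α.hom a x.obj
      have h2 : F.map (x.lin a).hom ≫ α.hom.app (x.obj⟦a⟧) =
          α.hom.app x.obj ≫ G.map (x.lin a).hom := α.hom.naturality _
      show (F.map (x.lin a).hom ≫ (F.commShiftIso a).hom.app x.obj) ≫ (α.hom.app x.obj)⟦a⟧' =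
        α.hom.app x.obj ≫ (G.map (x.lin a).hom ≫ (G.commShiftIso a).hom.app x.obj)
      rw [assoc, h1, ← assoc, h2, assoc])) (fun {x y} f => by
      apply Equivariant.hom_ext
      exact α.hom.naturality (Equivariant.Hom.hom f))

end comp

section lift

variable {C : Type u₁} [Category.{v₁} C] {D : Type u₂} [Category.{v₂} D] {A : Type w}
  [AddMonoid A] [HasShift C A] [HasShift D A]

theorem lift_add_aux (F : C ⥤ D) [F.CommShift A] [F.Faithful] (y : C)
    (l : ∀ a : A, F.obj y ≅ (F.obj y)⟦a⟧) (L : ∀ a : A, y ≅ y⟦a⟧)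
    (hL : ∀ c, F.map (L c).hom ≫ (F.commShiftIso c).hom.app y = (l c).hom)
    (l_add : ∀ a b : A, (l (a + b)).hom =
      (l b).hom ≫ (l a).hom⟦b⟧' ≫ (shiftFunctorAdd D a b).inv.app (F.obj y)) (a b : A) :
    (L (a + b)).hom = (L b).hom ≫ (L a).hom⟦b⟧' ≫ (shiftFunctorAdd C a b).inv.app y := by
  apply F.map_injective
  rw [← cancel_mono ((F.commShiftIso (a + b)).hom.app y), hL, l_add, ← hL, ← hL,
    F.commShiftIso_add, Functor.CommShift.isoAdd_hom_app]
  simp only [Functor.map_comp, assoc]
  have h1 : F.map ((L a).hom⟦b⟧') ≫ (F.commShiftIso b).hom.app (y⟦a⟧) =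
      (F.commShiftIso b).hom.app y ≫ (F.map (L a).hom)⟦b⟧' :=
    F.commShiftIso_hom_naturality (L a).hom b
  have h2 : F.map ((shiftFunctorAdd C a b).inv.app y) ≫ F.map ((shiftFunctorAdd C a b).hom.app y) =
      𝟙 _ := by
    rw [← F.map_comp, Iso.inv_hom_id_app]
    exact F.map_id _
  rw [reassoc_of% h2, reassoc_of% h1]

/-- The lift of an equivariant object along a fully faithful functor. -/
noncomputable def liftAlong (F : C ⥤ D) [F.CommShift A] [F.Full] [F.Faithful] (y : C)
    (l : ∀ a : A, F.obj y ≅ (F.obj y)⟦a⟧)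
    (l_zero : (l 0).hom = (shiftFunctorZero D A).inv.app (F.obj y))
    (l_add : ∀ a b : A, (l (a + b)).hom =
      (l b).hom ≫ (l a).hom⟦b⟧' ≫ (shiftFunctorAdd D a b).inv.app (F.obj y)) :
    Equivariant C A where
  obj := y
  lin a := F.preimageIso (l a ≪≫ ((F.commShiftIso a).app y).symm)
  lin_zero := by
    apply F.map_injective
    rw [Functor.preimageIso_hom, Functor.map_preimage, Iso.trans_hom, Iso.symm_hom, Iso.app_inv,
      l_zero, Functor.commShiftIso_zero, Functor.CommShift.isoZero_inv_app, ← assoc,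
      Iso.inv_hom_id_app]
    exact id_comp _
  lin_add a b := by
    refine lift_add_aux F y l (fun a => F.preimageIso (l a ≪≫ ((F.commShiftIso a).app y).symm))
      (fun c => ?_) l_add a b
    rw [Functor.preimageIso_hom, Functor.map_preimage, Iso.trans_hom, Iso.symm_hom,
      Iso.app_inv, assoc, Iso.inv_hom_id_app]
    exact comp_id _

theorem liftAlong_lin (F : C ⥤ D) [F.CommShift A] [F.Full] [F.Faithful] (y : C)
    (l : ∀ a : A, F.obj y ≅ (F.obj y)⟦a⟧)
    (l_zero : (l 0).hom = (shiftFunctorZero D A).inv.app (F.obj y))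
    (l_add : ∀ a b : A, (l (a + b)).hom =
      (l b).hom ≫ (l a).hom⟦b⟧' ≫ (shiftFunctorAdd D a b).inv.app (F.obj y)) (a : A) :
    ((mapEqObj F (liftAlong F y l l_zero l_add)).lin a).hom = (l a).hom := by
  show F.map (F.preimageIso (l a ≪≫ ((F.commShiftIso a).app y).symm)).hom ≫
    (F.commShiftIso a).hom.app y = (l a).hom
  rw [Functor.preimageIso_hom, Functor.map_preimage, Iso.trans_hom, Iso.symm_hom,
      Iso.app_inv, assoc, Iso.inv_hom_id_app]
  exact comp_id _

/-- The lift of an equivariant object is a lift. -/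
noncomputable def liftAlongIso (F : C ⥤ D) [F.CommShift A] [F.Full] [F.Faithful] (y : C)
    (l : ∀ a : A, F.obj y ≅ (F.obj y)⟦a⟧)
    (l_zero : (l 0).hom = (shiftFunctorZero D A).inv.app (F.obj y))
    (l_add : ∀ a b : A, (l (a + b)).hom =
      (l b).hom ≫ (l a).hom⟦b⟧' ≫ (shiftFunctorAdd D a b).inv.app (F.obj y)) :
    mapEqObj F (liftAlong F y l l_zero l_add) ≅ ⟨F.obj y, l, l_zero, l_add⟩ :=
  Equivariant.mkIso (Iso.refl (F.obj y)) (fun a => by
    rw [liftAlong_lin F y l l_zero l_add a]
    show (l a).hom ≫ (𝟙 (F.obj y))⟦a⟧' = 𝟙 (F.obj y) ≫ (l a).hom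
    rw [CategoryTheory.Functor.map_id, id_comp]
    exact comp_id _)

variable (P : ObjectProperty D) [P.IsStableUnderShift A]

/-- The lift of an equivariant object to a full subcategory. -/
noncomputable def liftEqObj (x : Equivariant D A) (hx : P x.obj) :
    Equivariant P.FullSubcategory A :=
  liftAlong P.ι ⟨x.obj, hx⟩ x.lin x.lin_zero x.lin_add

/-- The lift of an equivariant object to a full subcategory is a lift. -/
noncomputable def liftEqObjIso (x : Equivariant D A) (hx : P x.obj) :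
    mapEqObj P.ι (liftEqObj P x hx) ≅ x :=
  liftAlongIso P.ι ⟨x.obj, hx⟩ x.lin x.lin_zero x.lin_add

variable {E : Type u₃} [Category.{v₃} E]

/-- The lift of a functor with values in equivariant objects to a full subcategory. -/
noncomputable def liftEq (T : E ⥤ Equivariant D A) (hT : ∀ x, P (T.obj x).obj) :
    E ⥤ Equivariant P.FullSubcategory A :=
  have := mapEq_full (A := A) P.ι
  have := mapEq_faithful (A := A) P.ι
  { obj := fun x => liftEqObj P (T.obj x) (hT x)
    map := fun {x y} f => (mapEq P.ι).preimage ((liftEqObjIso P (T.obj x) (hT x)).hom ≫ T.map f ≫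
      (liftEqObjIso P (T.obj y) (hT y)).inv)
    map_id := fun x => by
      apply (mapEq (A := A) P.ι).map_injective
      rw [Functor.map_preimage, T.map_id, id_comp, Iso.hom_inv_id]
      exact ((mapEq (A := A) P.ι).map_id _).symm
    map_comp := fun f g => by
      apply (mapEq (A := A) P.ι).map_injective
      rw [Functor.map_preimage, Functor.map_comp, Functor.map_comp, Functor.map_preimage,
        Functor.map_preimage]
      simp only [assoc, Iso.inv_hom_id_assoc] }

/-- The lift of a functor is a lift. -/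
noncomputable def liftEqIso (T : E ⥤ Equivariant D A) (hT : ∀ x, P (T.obj x).obj) :
    liftEq P T hT ⋙ mapEq P.ι ≅ T :=
  NatIso.ofComponents (fun x => liftEqObjIso P (T.obj x) (hT x)) (fun {x y} f => by
    have := mapEq_full (A := A) P.ι
    have := mapEq_faithful (A := A) P.ι
    show (mapEq (A := A) P.ι).map ((mapEq P.ι).preimage ((liftEqObjIso P (T.obj x) (hT x)).hom ≫
      T.map f ≫ (liftEqObjIso P (T.obj y) (hT y)).inv)) ≫ _ = _
    rw [Functor.map_preimage, assoc, assoc, Iso.inv_hom_id, comp_id]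
    rfl)

theorem liftEq_full (T : E ⥤ Equivariant D A) (hT : ∀ x, P (T.obj x).obj) [T.Full] :
    (liftEq P T hT).Full := by
  have := mapEq_full (A := A) P.ι
  have := mapEq_faithful (A := A) P.ι
  have : (liftEq P T hT ⋙ mapEq P.ι).Full := Functor.Full.of_iso (liftEqIso P T hT).symm
  exact Functor.Full.of_comp_faithful (liftEq P T hT) (mapEq P.ι)

theorem liftEq_faithful (T : E ⥤ Equivariant D A) (hT : ∀ x, P (T.obj x).obj) [T.Faithful] :
    (liftEq P T hT).Faithful := by
  have : (liftEq P T hT ⋙ mapEq P.ι).Faithful := Functor.Faithful.of_iso (liftEqIso P T hT).symm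
  exact Functor.Faithful.of_comp (liftEq P T hT) (mapEq P.ι)

end lift

section square

variable {C : Type u₁} [Category.{v₁} C] {D : Type u₂} [Category.{v₂} D]
  {E : Type u₃} [Category.{v₃} E] {E' : Type u₄} [Category.{v₄} E'] {A : Type w} [AddMonoid A]
  [HasShift C A] [HasShift D A]

/-- The square of lifts. -/
noncomputable def liftSquare (P : ObjectProperty C) [P.IsStableUnderShift A]
    (Q : ObjectProperty D) [Q.IsStableUnderShift A] (I : C ⥤ D) [I.CommShift A]
    (hI : ∀ x : P.FullSubcategory, Q ((P.ι ⋙ I).obj x))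
    (T : E ⥤ Equivariant C A) (hT : ∀ x, P (T.obj x).obj) (T' : E' ⥤ Equivariant D A)
    (hT' : ∀ x, Q (T'.obj x).obj) (J : E ⥤ E') (α : J ⋙ T' ≅ T ⋙ mapEq I) :
    J ⋙ liftEq Q T' hT' ≅ liftEq P T hT ⋙ mapEq (Q.lift (P.ι ⋙ I) hI) :=
  have := mapEq_full (A := A) Q.ι
  have := mapEq_faithful (A := A) Q.ι
  Functor.fullyFaithfulCancelRight (mapEq Q.ι)
    (Functor.isoWhiskerLeft J (liftEqIso Q T' hT') ≪≫ α ≪≫
      Functor.isoWhiskerRight (liftEqIso P T hT).symm (mapEq I) ≪≫
      Functor.isoWhiskerLeft (liftEq P T hT) ((mapEqComp P.ι I).symm ≪≫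
        (mapEqIso (Q.liftCompιIso (P.ι ⋙ I) hI)).symm ≪≫
        mapEqComp (Q.lift (P.ι ⋙ I) hI) Q.ι))

end square

end TwistDescent
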