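import Pool.Agent.Lib.MP_7428c0_nt.Levi

/-!
# Twist-invariance from the endomorphisms of the Whittaker objects
-/

set_option autoImplicit false

namespace TwistDescent

namespace Levi

open CategoryTheory Category

universe u v u' v' w w'

section conj

variable {C : Type u} [Category.{v} C] {D : Type u'} [Category.{v'} D] {A : Type w} [AddGroup A]
  [HasShift C A] [HasShift D A]

/-- The action of `A` on the endomorphisms of an equivariant object: twist and conjugate with the
linearization. -/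
def conjTwist (x : Equivariant C A) (a : A) (z : x.obj ⟶ x.obj) : x.obj ⟶ x.obj :=
  (x.lin a).hom ≫ z⟦a⟧' ≫ (x.lin a).inv

theorem inv_conjTwist (x : Equivariant C A) (a : A) (z : x.obj ⟶ x.obj) :
    z⟦a⟧' ≫ (x.lin a).inv = (x.lin a).inv ≫ conjTwist x a z := by
  simp [conjTwist]

/-- `mapEqObj` on linearizations, inverse direction. -/
theorem conjTwist_map (G : C ⥤ D) [G.CommShift A] (x : Equivariant C A) (a : A)
    (z : x.obj ⟶ x.obj) :
    (G.map z)⟦a⟧' ≫ (G.commShiftIso a).inv.app x.obj ≫ G.map (x.lin a).inv =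
      ((G.commShiftIso a).inv.app x.obj ≫ G.map (x.lin a).inv) ≫ G.map (conjTwist x a z) := by
  have h1 : G.map (z⟦a⟧') ≫ (G.commShiftIso a).hom.app x.obj =
      (G.commShiftIso a).hom.app x.obj ≫ (G.map z)⟦a⟧' := G.commShiftIso_hom_naturality z a
  have h3 : (G.map z)⟦a⟧' ≫ (G.commShiftIso a).inv.app x.obj =
      (G.commShiftIso a).inv.app x.obj ≫ G.map (z⟦a⟧') := by
    rw [← cancel_epi ((G.commShiftIso a).hom.app x.obj), ← assoc, ← h1, assoc,
      Iso.hom_inv_id_app, Iso.hom_inv_id_app_assoc]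
    exact comp_id _
  rw [← assoc, h3, assoc, ← Functor.map_comp, inv_conjTwist, Functor.map_comp, assoc]

/-- A normalised twist isomorphism forces compatibility on endomorphisms. -/
theorem Normalised.transport {F : C ⥤ D} {W : Equivariant C A} {O : Equivariant D A}
    {e : F.obj W.obj ≅ O.obj} {a : A} {κ : shiftFunctor C a ⋙ F ≅ F ⋙ shiftFunctor D a}
    (h : Normalised F W O e a κ) (z : W.obj ⟶ W.obj) :
    transport F e (conjTwist W a z) = conjTwist O a (transport F e z) := by
  unfold Normalised at h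
  have h1 : F.map (z⟦a⟧') ≫ κ.hom.app W.obj = κ.hom.app W.obj ≫ (F.map z)⟦a⟧' :=
    κ.hom.naturality z
  unfold Levi.transport conjTwist
  rw [← cancel_epi e.hom, ← cancel_mono (O.lin a).hom]
  simp only [assoc, Iso.hom_inv_id_assoc, Iso.inv_hom_id, comp_id]
  rw [← h]
  simp only [Functor.map_comp, assoc]
  have h2 : F.map (W.lin a).inv ≫ F.map (W.lin a).hom = 𝟙 _ := by
    rw [← F.map_comp, Iso.inv_hom_id, CategoryTheory.Functor.map_id]
  have h3 : (e.hom⟦a⟧' ≫ e.inv⟦a⟧' : (F.obj W.obj)⟦a⟧ ⟶ (F.obj W.obj)⟦a⟧) = 𝟙 _ := by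
    rw [← Functor.map_comp, Iso.hom_inv_id, CategoryTheory.Functor.map_id]
  rw [← assoc (F.map (W.lin a).inv), h2, id_comp, ← assoc (F.map (z⟦a⟧')), h1, assoc,
    ← reassoc_of% h, ← assoc (e.hom⟦a⟧'), h3, id_comp]

end conj

section family

variable {A : Type w} [AddGroup A] {ι : Type w} [LE ι] {R : ι → Type u}
  [∀ M, Category.{v} (R M)] [∀ M, Preadditive (R M)] [∀ M, HasShift (R M) A]
  [∀ (M : ι) (a : A), (shiftFunctor (R M) a).Additive] {X : ι → Type u'}
  [∀ M, Category.{v'} (X M)] [∀ M, Preadditive (X M)] [∀ M, HasShift (X M) A]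
  [∀ (M : ι) (a : A), (shiftFunctor (X M) a).Additive]
  {ind : ∀ L M : ι, L ≤ M → (R L ⥤ R M)} [∀ L M h, (ind L M h).CommShift A]
  {spec : ∀ L M : ι, L ≤ M → (X L ⥤ X M)} [∀ L M h, (spec L M h).CommShift A]
  {W : ∀ M, Equivariant (R M) A} {O : ∀ M, Equivariant (X M) A}
  {u : ∀ (L M : ι) (h : L ≤ M), (W M).obj ⟶ (ind L M h).obj (W L).obj}
  {v : ∀ (L M : ι) (h : L ≤ M), (O M).obj ⟶ (spec L M h).obj (O L).obj}

/-- A family whose maps on endomorphisms of Whittaker objects are compatible with the twists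
commutes with the twists. -/
theorem exists_twist (hW : WhittakerData ind spec (fun M => (W M).obj) (fun M => (O M).obj) u v)
    (hu : ∀ L M h, IsEquivariant (ind L M h) (W M) (W L) (u L M h))
    (hv : ∀ L M h, IsEquivariant (spec L M h) (O M) (O L) (v L M h)) {F : ∀ M, R M ⥤ X M}
    [∀ M, (F M).Additive]
    (hF : Solves ind spec (fun M => (W M).obj) (fun M => (O M).obj) F)
    (e : ∀ M, (F M).obj (W M).obj ≅ (O M).obj)
    (hχ : ∀ (M : ι) (a : A) (z : (W M).obj ⟶ (W M).obj),
      transport (F M) (e M) (conjTwist (W M) a z) = conjTwist (O M) a (transport (F M) (e M) z))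
    (M : ι) (a : A) :
    Nonempty (shiftFunctor (R M) a ⋙ F M ≅ F M ⋙ shiftFunctor (X M) a) := by
  have := hF.full
  have := hF.faithful
  have hη : ∀ L : {L : ι // L ≤ M}, _ := fun L => exists_square hW hF e L M L.2
  choose η hη using hη
  let t : ∀ L : {L : ι // L ≤ M},
      (F M).obj ((ind L M L.2).obj (W L).obj) ≅ (spec L M L.2).obj (O L).obj :=
    fun L => (η L).app (W L).obj ≪≫ (spec L M L.2).mapIso (e L)
  have ht : ∀ L : {L : ι // L ≤ M}, (F M).map (u L M L.2) ≫ (t L).hom =
      (e M).hom ≫ v L M L.2 := hη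
  have htz : ∀ (L : {L : ι // L ≤ M}) (z : (W L).obj ⟶ (W L).obj),
      (F M).map ((ind L M L.2).map z) ≫ (t L).hom =
        (t L).hom ≫ (spec L M L.2).map (transport (F L) (e L) z) :=
    fun L z => square_transport e (η L) z
  let lP : ∀ L : {L : ι // L ≤ M}, (ind L M L.2).obj (W L).obj ≅
      ((ind L M L.2).obj (W L).obj)⟦a⟧ := fun L =>
    (ind L M L.2).mapIso ((W L).lin a) ≪≫ ((ind L M L.2).commShiftIso a).app (W L).obj
  let lS : ∀ L : {L : ι // L ≤ M}, (spec L M L.2).obj (O L).obj ≅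
      ((spec L M L.2).obj (O L).obj)⟦a⟧ := fun L =>
    (spec L M L.2).mapIso ((O L).lin a) ≪≫ ((spec L M L.2).commShiftIso a).app (O L).obj
  have hu' : ∀ L : {L : ι // L ≤ M}, (u L M L.2)⟦a⟧' ≫ (lP L).inv =
      ((W M).lin a).inv ≫ u L M L.2 := by
    intro L
    have h1 := hu L M L.2 a
    have h2 : ((W M).lin a).hom ≫ (u L M L.2)⟦a⟧' = u L M L.2 ≫ (lP L).hom := h1
    rw [← cancel_epi ((W M).lin a).hom, ← assoc, h2, assoc, Iso.hom_inv_id, comp_id,
      Iso.hom_inv_id_assoc]
  have hv' : ∀ L : {L : ι // L ≤ M}, (v L M L.2)⟦a⟧' ≫ (lS L).inv =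
      ((O M).lin a).inv ≫ v L M L.2 := by
    intro L
    have h1 := hv L M L.2 a
    have h2 : ((O M).lin a).hom ≫ (v L M L.2)⟦a⟧' = v L M L.2 ≫ (lS L).hom := h1
    rw [← cancel_epi ((O M).lin a).hom, ← assoc, h2, assoc, Iso.hom_inv_id, comp_id,
      Iso.hom_inv_id_assoc]
  have hlP : ∀ (L : {L : ι // L ≤ M}) (z : (W L).obj ⟶ (W L).obj),
      ((ind L M L.2).map z)⟦a⟧' ≫ (lP L).inv =
        (lP L).inv ≫ (ind L M L.2).map (conjTwist (W L) a z) :=
    fun L z => conjTwist_map (ind L M L.2) (W L) a z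
  have hlS : ∀ (L : {L : ι // L ≤ M}) (z : (O L).obj ⟶ (O L).obj),
      ((spec L M L.2).map z)⟦a⟧' ≫ (lS L).inv =
        (lS L).inv ≫ (spec L M L.2).map (conjTwist (O L) a z) :=
    fun L z => conjTwist_map (spec L M L.2) (O L) a z
  obtain ⟨Θ, -⟩ := exists_iso_of_center (fun L : {L : ι // L ≤ M} => ind L M L.2)
    (fun L => (W L).obj) (fun L => u L M L.2) (fun L => (hW.universal L M L.2).freeOn)
    (hW.separator M) (hW.generated M) (shiftFunctor (R M) a ⋙ F M) (F M ⋙ shiftFunctor (X M) a)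
    (S := fun L => (spec L M L.2).obj (O L).obj) (fun L => v L M L.2)
    ((F M).mapIso ((W M).lin a).symm ≪≫ e M)
    ((shiftFunctor (X M) a).mapIso (e M) ≪≫ ((O M).lin a).symm)
    (fun L => (F M).mapIso (lP L).symm ≪≫ t L)
    (fun L => (shiftFunctor (X M) a).mapIso (t L) ≪≫ (lS L).symm)
    (fun L => by
      simp only [Iso.trans_hom, Functor.mapIso_hom, Iso.symm_hom, Functor.comp_map, assoc]
      rw [← ht, ← assoc, ← assoc, ← Functor.map_comp, ← Functor.map_comp, hu'])
    (fun L => by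
      simp only [Iso.trans_hom, Functor.mapIso_hom, Iso.symm_hom, Functor.comp_map, assoc]
      rw [← hv', ← assoc, ← assoc, ← Functor.map_comp, ← Functor.map_comp, ht])
    (fun L z => (spec L M L.2).map (conjTwist (O L) a (transport (F L) (e L) z)))
    (fun L z => by
      simp only [Iso.trans_hom, Functor.mapIso_hom, Iso.symm_hom, Functor.comp_map, assoc]
      rw [← hχ, ← htz, ← assoc, ← assoc, ← Functor.map_comp, ← Functor.map_comp, hlP])
    (fun L z => by
      simp only [Iso.trans_hom, Functor.mapIso_hom, Iso.symm_hom, Functor.comp_map, assoc]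
      rw [← hlS, ← assoc, ← assoc, ← Functor.map_comp, ← Functor.map_comp, htz])
  exact ⟨Θ⟩

/-- Descent to equivariant objects; the criterion is compatibility with the twists on the
endomorphisms of the Whittaker objects. -/
theorem descend_iff (hW : WhittakerData ind spec (fun M => (W M).obj) (fun M => (O M).obj) u v)
    (hu : ∀ L M h, IsEquivariant (ind L M h) (W M) (W L) (u L M h))
    (hv : ∀ L M h, IsEquivariant (spec L M h) (O M) (O L) (v L M h)) (F : ∀ M, R M ⥤ X M)
    [∀ M, (F M).Additive]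
    (hF : Solves ind spec (fun M => (W M).obj) (fun M => (O M).obj) F)
    (e : ∀ M, (F M).obj (W M).obj ≅ (O M).obj) :
    (∀ (M : ι) (a : A) (z : (W M).obj ⟶ (W M).obj),
      transport (F M) (e M) (conjTwist (W M) a z) = conjTwist (O M) a (transport (F M) (e M) z)) ↔
    ∃ c : ∀ M, (F M).CommShift A,
      (∀ (M : ι) (c' : (F M).CommShift A),
        (∀ a, Normalised (F M) (W M) (O M) (e M) a (c'.commShiftIso a)) ↔ c' = c M) ∧
      Solves (fun L M h => mapEq (A := A) (ind L M h)) (fun L M h => mapEq (spec L M h)) W O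
        (fun M => mapEq (F M)) := by
  constructor
  · intro hχ
    have hT := exists_twist hW hu hv hF e hχ
    have := hF.full
    have := hF.faithful
    let c : ∀ M, (F M).CommShift A := fun M =>
      commShiftOf (F M) (W M) (O M) (e M) (hW.rigid_id M) (hW.centerOnto M) (hT M)
    have hc : ∀ M a, Normalised (F M) (W M) (O M) (e M) a ((F M).commShiftIso a) := fun M a =>
      commShiftOf_normalised (F M) (W M) (O M) (e M) (hW.rigid_id M) (hW.centerOnto M) (hT M) a
    refine ⟨c, fun M c' => ⟨fun h => ?_, fun h => ?_⟩, fun M => mapEq_full (F M),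
      fun M => mapEq_faithful (F M), fun M => ?_, fun L M h => ?_⟩
    · obtain ⟨c₀, h₀, h₁⟩ := commShift_unique (F M) (W M) (O M) (e M) (hW.rigid_id M)
        (hW.centerOnto M) (hT M)
      rw [h₁ c' h]
      exact (h₁ (c M) (hc M)).symm
    · rw [h]
      exact hc M
    · refine ⟨Equivariant.mkIso (e M) fun a => ?_⟩
      have h1 := hc M a
      unfold Normalised at h1
      rw [← assoc] at h1
      exact h1
    · obtain ⟨η, hη⟩ := exists_square hW hF e L M h
      exact square_mapEq (F L) (F M) η (fun a x => square_twist (F L) (F M) (u L M h) (v L M h)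
        (hu L M h) (hv L M h) (hW.rigid h) (e L) (e M) (hc L) (hc M) η hη a x)
  · rintro ⟨c, hc, -⟩ M a z
    exact Normalised.transport ((hc M (c M)).2 rfl a) z

end family

end Levi

end TwistDescent
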