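import Pool.Agent.Lib.MP_7428c0_nt.Normal

/-!
# Parabolic induction and equivariant objects

The square `i ⋙ F_G ≅ F_M ⋙ s` can be normalised on the Whittaker vectors `u : W_G ⟶ i W_M` and
`v : O_G ⟶ s O_M`, and the normalised square is compatible with the twists.
-/

set_option autoImplicit false

namespace TwistDescent

open CategoryTheory Category

universe v₁ u₁ v₂ u₂ v₃ u₃ v₄ u₄ w

variable {CM : Type u₁} [Category.{v₁} CM] {CG : Type u₂} [Category.{v₂} CG]
  {DM : Type u₃} [Category.{v₃} DM] {DG : Type u₄} [Category.{v₄} DG]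

/-- The square can be normalised: `F_G(u)` corresponds to `v`. -/
theorem exists_normal_square {i : CM ⥤ CG} {s : DM ⥤ DG} (FM : CM ⥤ DM) (FG : CG ⥤ DG)
    [FM.Full] [FM.Faithful] [FG.Full] [FG.Faithful] {WM : CM} {WG : CG} {OM : DM} {OG : DG}
    (u : WG ⟶ i.obj WM) (v : OG ⟶ s.obj OM) (hu : FreeOn i WM u) (hv : FreeOn s OM v)
    (hZ : CenterOnto WM) (eM : FM.obj WM ≅ OM) (eG : FG.obj WG ≅ OG)
    (η₀ : i ⋙ FG ≅ FM ⋙ s) :
    ∃ η : i ⋙ FG ≅ FM ⋙ s, FG.map u ≫ η.hom.app WM ≫ s.map eM.hom = eG.hom ≫ v := by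
  have hnat : ∀ {x y : CM} (f : x ⟶ y),
      FG.map (i.map f) ≫ η₀.hom.app y = η₀.hom.app x ≫ s.map (FM.map f) :=
    fun f => η₀.hom.naturality f
  obtain ⟨z, hz, -⟩ := hv (eG.inv ≫ FG.map u ≫ η₀.hom.app WM ≫ s.map eM.hom)
  have hz1 : FG.map u ≫ η₀.hom.app WM ≫ s.map eM.hom = eG.hom ≫ v ≫ s.map z := by
    rw [← hz, eG.hom_inv_id_assoc]
  -- the inverse of `z`
  obtain ⟨g, hg⟩ : ∃ g : WG ⟶ i.obj WM, FG.map g = eG.hom ≫ v ≫ s.map eM.inv ≫ η₀.inv.app WM :=
    FG.map_surjective _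
  obtain ⟨y, hy, -⟩ := hu g
  have hg1 : FG.map u ≫ η₀.hom.app WM ≫ s.map (FM.map y ≫ eM.hom) = eG.hom ≫ v := by
    rw [Functor.map_comp, ← assoc (η₀.hom.app WM), ← hnat, ← assoc, ← assoc, ← FG.map_comp, ← hy, hg]
    simp only [assoc]
    rw [← assoc (η₀.inv.app WM), Iso.inv_hom_id_app]
    have h1 : 𝟙 ((FM ⋙ s).obj WM) ≫ s.map eM.hom = s.map eM.hom := id_comp _
    rw [h1, ← Functor.map_comp, eM.inv_hom_id]
    have h2 : v ≫ s.map (𝟙 OM) = v := by rw [CategoryTheory.Functor.map_id, comp_id]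
    rw [h2]
  have hzy : z ≫ eM.inv ≫ FM.map y ≫ eM.hom = 𝟙 OM := by
    obtain ⟨w, -, hw⟩ := hv v
    have h1 : z ≫ eM.inv ≫ FM.map y ≫ eM.hom = w := by
      apply hw
      have h2 : eG.hom ≫ v = eG.hom ≫ v ≫ s.map (z ≫ eM.inv ≫ FM.map y ≫ eM.hom) := by
        conv_lhs => rw [← hg1]
        rw [Functor.map_comp s z, ← assoc v, ← assoc eG.hom, ← hz1]
        simp only [assoc]
        rw [← Functor.map_comp, eM.hom_inv_id_assoc]
      exact (cancel_epi eG.hom).mp h2
    have h3 : 𝟙 OM = w := by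
      apply hw
      rw [CategoryTheory.Functor.map_id, comp_id]
    rw [h1, h3]
  obtain ⟨k, hk⟩ : ∃ k : WM ⟶ WM, FM.map k = (FM.map y ≫ eM.hom) ≫ z ≫ eM.inv :=
    FM.map_surjective _
  have hk1 : k = 𝟙 WM := by
    obtain ⟨w, -, hw⟩ := hu u
    have h1 : k = w := by
      apply hw
      apply FG.map_injective
      rw [Functor.map_comp, ← cancel_mono (η₀.hom.app WM), ← cancel_mono (s.map eM.hom)]
      simp only [assoc]
      rw [← assoc (FG.map (i.map k)), hnat k, hk, assoc, ← Functor.map_comp]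
      simp only [assoc, eM.inv_hom_id, comp_id]
      rw [← assoc (FM.map y), Functor.map_comp s, ← assoc (η₀.hom.app WM) (s.map _),
        ← assoc (FG.map u) (η₀.hom.app WM ≫ s.map (FM.map y ≫ eM.hom)), hg1, assoc, ← hz1]
    have h3 : 𝟙 WM = w := by
      apply hw
      rw [CategoryTheory.Functor.map_id, comp_id]
    rw [h1, h3]
  have hyz : (eM.inv ≫ FM.map y ≫ eM.hom) ≫ z = 𝟙 OM := by
    rw [← cancel_epi eM.hom, ← cancel_mono eM.inv]
    simp only [assoc, eM.hom_inv_id_assoc, comp_id, eM.hom_inv_id]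
    have h1 := hk
    rw [hk1, CategoryTheory.Functor.map_id] at h1
    simp only [assoc] at h1
    exact h1.symm
  -- the automorphism of `W_M` which corrects the square
  let g' : WM ≅ WM := FM.preimageIso
    { hom := FM.map y
      inv := eM.hom ≫ z ≫ eM.inv
      hom_inv_id := by
        rw [← assoc, ← hk, hk1, CategoryTheory.Functor.map_id]
      inv_hom_id := by
        rw [← cancel_epi eM.inv, ← cancel_mono eM.hom]
        simp only [assoc, eM.inv_hom_id_assoc, comp_id, eM.inv_hom_id]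
        exact hzy }
  obtain ⟨ζ, hζ⟩ := hZ g'
  have hζ' : FM.map (ζ.hom.app WM) = FM.map y := by
    rw [hζ, Functor.preimageIso_hom, Functor.map_preimage]
  have hζn : ∀ {x y : CM} (f : x ⟶ y), f ≫ ζ.hom.app y = ζ.hom.app x ≫ f :=
    fun f => ζ.hom.naturality f
  refine ⟨NatIso.ofComponents (fun x => (i ⋙ FG).mapIso (ζ.app x) ≪≫ η₀.app x) ?_, ?_⟩
  · intro x y f
    simp only [Iso.trans_hom, Functor.mapIso_hom, Iso.app_hom, assoc]
    rw [← assoc, ← Functor.map_comp]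
    have h1 := hζn f
    simp only [Functor.id_obj] at h1 ⊢
    rw [h1, Functor.map_comp, assoc]
    congr 1
    exact η₀.hom.naturality f
  · have h1 : (NatIso.ofComponents (fun x => (i ⋙ FG).mapIso (ζ.app x) ≪≫ η₀.app x) (by
        intro x y f
        simp only [Iso.trans_hom, Functor.mapIso_hom, Iso.app_hom, assoc]
        rw [← assoc, ← Functor.map_comp]
        have h1 := hζn f
        simp only [Functor.id_obj] at h1 ⊢
        rw [h1, Functor.map_comp, assoc]
        congr 1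
        exact η₀.hom.naturality f) : i ⋙ FG ≅ FM ⋙ s).hom.app WM =
        FG.map (i.map (ζ.hom.app WM)) ≫ η₀.hom.app WM := rfl
    rw [h1, assoc]
    have h2 : FG.map (i.map (ζ.hom.app WM)) ≫ η₀.hom.app WM =
        η₀.hom.app WM ≫ s.map (FM.map (ζ.hom.app WM)) := hnat (ζ.hom.app WM)
    rw [← assoc (FG.map (i.map (ζ.hom.app WM))), h2, hζ', assoc, ← Functor.map_comp, hg1]

end TwistDescent
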