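import Pool.Agent.Lib.MP_7428c0_nt.Axioms

/-!
# Families of functors for all standard Levi subgroups

The index set `ι` is the set of standard Levi subgroups, ordered by inclusion. `Solves` states the
conditions of the question for a family of functors, for every pair `L ≤ M`.
-/

set_option autoImplicit false

namespace TwistDescent

namespace Levi

open CategoryTheory Category

universe u v u' v' w

section plain

variable {ι : Type w} [LE ι] {R : ι → Type u} [∀ M, Category.{v} (R M)]
  {X : ι → Type u'} [∀ M, Category.{v'} (X M)]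

/-- The conditions of the question on a family of functors `F M : R M ⥤ X M`, one for each standard
Levi subgroup `M`: they are fully faithful, take the Whittaker object `W M` to the structure
sheaf `O M`, and take parabolic induction `ind` to spectral parabolic induction `spec`. -/
structure Solves (ind : ∀ L M : ι, L ≤ M → (R L ⥤ R M)) (spec : ∀ L M : ι, L ≤ M → (X L ⥤ X M))
    (W : ∀ M, R M) (O : ∀ M, X M) (F : ∀ M, R M ⥤ X M) : Prop where
  full : ∀ M, (F M).Full
  faithful : ∀ M, (F M).Faithful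
  whittaker : ∀ M, Nonempty ((F M).obj (W M) ≅ O M)
  induction : ∀ L M h, Nonempty (ind L M h ⋙ F M ≅ F L ⋙ spec L M h)

/-- The properties of the Whittaker objects `W M`, of the structure sheaves `O M` and of the
vectors `u : W M ⟶ ind (W L)` and `v : O M ⟶ spec (O L)`, for all standard Levi subgroups `L ≤ M`. -/
structure WhittakerData [∀ M, Preadditive (R M)] (ind : ∀ L M : ι, L ≤ M → (R L ⥤ R M))
    (spec : ∀ L M : ι, L ≤ M → (X L ⥤ X M)) (W : ∀ M, R M) (O : ∀ M, X M)
    (u : ∀ (L M : ι) (h : L ≤ M), W M ⟶ (ind L M h).obj (W L))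
    (v : ∀ (L M : ι) (h : L ≤ M), O M ⟶ (spec L M h).obj (O L)) : Prop where
  commutative : ∀ (M : ι) (a b : W M ⟶ W M), a ≫ b = b ≫ a
  separator : ∀ M, IsSeparator (W M)
  generated : ∀ (M : ι) (x : R M),
    GeneratedBy (fun L : {L : ι // L ≤ M} => (ind L M L.2).obj (W L)) x
  universal : ∀ L M h, Universal (ind L M h) (u L M h)
  spec_free : ∀ L M h, FreeOn (spec L M h) (O L) (v L M h)

variable [∀ M, Preadditive (R M)] {ind : ∀ L M : ι, L ≤ M → (R L ⥤ R M)}
  {spec : ∀ L M : ι, L ≤ M → (X L ⥤ X M)} {W : ∀ M, R M} {O : ∀ M, X M}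
  {u : ∀ (L M : ι) (h : L ≤ M), W M ⟶ (ind L M h).obj (W L)}
  {v : ∀ (L M : ι) (h : L ≤ M), O M ⟶ (spec L M h).obj (O L)}

theorem WhittakerData.centerOnto (hW : WhittakerData ind spec W O u v) (M : ι) :
    CenterOnto (W M) :=
  centerOnto_of_generated (fun L : {L : ι // L ≤ M} => ind L M L.2) (fun L => W L)
    (fun L => u L M L.2) (fun L => (hW.universal L M L.2).freeOn)
    (fun L => hW.commutative L) (hW.separator M) (hW.generated M)

theorem WhittakerData.rigid (hW : WhittakerData ind spec W O u v) {L M : ι} (h : L ≤ M) :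
    Rigid (ind L M h) (W L) (u L M h) :=
  rigid_of_universal (hW.universal L M h) (hW.separator M)

theorem WhittakerData.rigid_id (hW : WhittakerData ind spec W O u v) (M : ι) :
    Rigid (𝟭 (R M)) (W M) (𝟙 (W M)) :=
  TwistDescent.rigid_id (hW.separator M)

end plain

/-- The endomorphism of `O` which corresponds to the endomorphism `z` of `W`. -/
def transport {C : Type u} [Category.{v} C] {D : Type u'} [Category.{v'} D] (F : C ⥤ D) {W : C}
    {O : D} (e : F.obj W ≅ O) (z : W ⟶ W) : O ⟶ O :=
  e.inv ≫ F.map z ≫ e.hom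

section unique

variable {ι : Type w} [LE ι] {R : ι → Type u} [∀ M, Category.{v} (R M)]
  {X : ι → Type u'} [∀ M, Category.{v'} (X M)] [∀ M, Preadditive (R M)]
  {ind : ∀ L M : ι, L ≤ M → (R L ⥤ R M)} {spec : ∀ L M : ι, L ≤ M → (X L ⥤ X M)} {W : ∀ M, R M}
  {O : ∀ M, X M} {u : ∀ (L M : ι) (h : L ≤ M), W M ⟶ (ind L M h).obj (W L)}
  {v : ∀ (L M : ι) (h : L ≤ M), O M ⟶ (spec L M h).obj (O L)}

/-- The square for `L ≤ M` can be normalised. -/
theorem exists_square (hW : WhittakerData ind spec W O u v) {F : ∀ M, R M ⥤ X M}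
    (hF : Solves ind spec W O F) (e : ∀ M, (F M).obj (W M) ≅ O M) (L M : ι) (h : L ≤ M) :
    ∃ η : ind L M h ⋙ F M ≅ F L ⋙ spec L M h,
      (F M).map (u L M h) ≫ η.hom.app (W L) ≫ (spec L M h).map (e L).hom =
        (e M).hom ≫ v L M h := by
  have := hF.full
  have := hF.faithful
  exact exists_normal_square (F L) (F M) (u L M h) (v L M h) (hW.universal L M h).freeOn
    (hW.spec_free L M h) (hW.centerOnto L) (e L) (e M) (hF.induction L M h).some

omit [∀ M, Preadditive (R M)] in
theorem square_transport {F : ∀ M, R M ⥤ X M} (e : ∀ M, (F M).obj (W M) ≅ O M) {L M : ι}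
    {h : L ≤ M} (η : ind L M h ⋙ F M ≅ F L ⋙ spec L M h) (z : W L ⟶ W L) :
    (F M).map ((ind L M h).map z) ≫ η.hom.app (W L) ≫ (spec L M h).map (e L).hom =
      (η.hom.app (W L) ≫ (spec L M h).map (e L).hom) ≫
        (spec L M h).map (transport (F L) (e L) z) := by
  have h1 : (F M).map ((ind L M h).map z) ≫ η.hom.app (W L) =
      η.hom.app (W L) ≫ (spec L M h).map ((F L).map z) := η.hom.naturality z
  rw [← assoc, h1, assoc, assoc, ← Functor.map_comp, ← Functor.map_comp]
  simp [transport]

/-- Uniqueness of the family. -/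
theorem unique_family [∀ M, Preadditive (X M)] (hW : WhittakerData ind spec W O u v)
    {F F' : ∀ M, R M ⥤ X M} (hF : Solves ind spec W O F) (hF' : Solves ind spec W O F')
    [∀ M, (F M).Additive] [∀ M, (F' M).Additive] (e : ∀ M, (F M).obj (W M) ≅ O M)
    (e' : ∀ M, (F' M).obj (W M) ≅ O M)
    (hχ : ∀ (M : ι) (z : W M ⟶ W M), transport (F M) (e M) z = transport (F' M) (e' M) z)
    (M : ι) : ∃! θ : F M ≅ F' M, θ.hom.app (W M) ≫ (e' M).hom = (e M).hom := by
  have := hF'.full
  have := hF'.faithful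
  have hη : ∀ L : {L : ι // L ≤ M}, _ := fun L => exists_square hW hF e L M L.2
  have hη' : ∀ L : {L : ι // L ≤ M}, _ := fun L => exists_square hW hF' e' L M L.2
  choose η hη using hη
  choose η' hη' using hη'
  have key := exists_iso_of_center (fun L : {L : ι // L ≤ M} => ind L M L.2) (fun L => W L)
    (fun L => u L M L.2) (fun L => (hW.universal L M L.2).freeOn) (hW.separator M)
    (hW.generated M) (F M) (F' M) (S := fun L => (spec L M L.2).obj (O L))
    (fun L => v L M L.2) (e M) (e' M)
    (fun L => (η L).app (W L) ≪≫ (spec L M L.2).mapIso (e L))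
    (fun L => (η' L).app (W L) ≪≫ (spec L M L.2).mapIso (e' L)) hη hη'
    (fun L z => (spec L M L.2).map (transport (F L) (e L) z))
    (fun L z => square_transport e (η L) z)
    (fun L z => by
      rw [hχ]
      exact square_transport e' (η' L) z)
  obtain ⟨θ, hθ⟩ := key
  refine ⟨θ, hθ, fun θ' hθ' => ?_⟩
  have h1 := rigid_id (hW.separator M)
  ext x
  have h2 : ∀ w : W M ⟶ x, (F M).map w ≫ θ'.hom.app x = (F M).map w ≫ θ.hom.app x := by
    intro w
    rw [θ'.hom.naturality, θ.hom.naturality, ← cancel_epi (e M).inv]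
    have h3 : θ'.hom.app (W M) = θ.hom.app (W M) := by
      rw [← cancel_mono (e' M).hom, hθ', hθ]
    rw [h3]
  obtain ⟨g, hg⟩ : ∃ g : x ⟶ x, (F' M).map g = θ'.inv.app x ≫ θ.hom.app x :=
    (F' M).map_surjective _
  have h4 : g = 𝟙 x := by
    apply (hW.separator M).def
    intro w
    apply (F' M).map_injective
    rw [Functor.map_comp, hg, comp_id, ← cancel_epi (θ'.hom.app (W M)), ← assoc,
      ← θ'.hom.naturality]
    rw [assoc, ← assoc (θ'.hom.app x), Iso.hom_inv_id_app, id_comp, ← h2]
  rw [h4, CategoryTheory.Functor.map_id] at hg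
  rw [← cancel_epi (θ'.inv.app x), ← hg, Iso.inv_hom_id_app]

end unique

end Levi

end TwistDescent
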