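import Pool.Agent.Lib.MP_7428c0_nt.Build

/-!
# Families of functors and several Whittaker data

The index set `A` is a set of Whittaker data, `W M a` is the Whittaker object of `M` for the datum
`a` and `O M a` its intended image (the structure sheaf for the datum fixed in the question, a line
bundle for the others).
-/

set_option autoImplicit false

namespace TwistDescent

namespace Multi

open CategoryTheory Category Limits

universe u v u' v' w w'

section defs

variable {ι : Type w} [Preorder ι] {A : Type w'} {R : ι → Type u} [∀ M, Category.{v} (R M)]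
  {X : ι → Type u'} [∀ M, Category.{v'} (X M)]
  (ind : ∀ L M : ι, L ≤ M → (R L ⥤ R M)) (spec : ∀ L M : ι, L ≤ M → (X L ⥤ X M))
  (W : ∀ M, A → R M) (O : ∀ M, A → X M)
  (u : ∀ (L M : ι) (h : L ≤ M) (a : A), W M a ⟶ (ind L M h).obj (W L a))
  (v : ∀ (L M : ι) (h : L ≤ M) (a : A), O M a ⟶ (spec L M h).obj (O L a))

/-- The Whittaker objects `W M a` separate morphisms, the induced Whittaker objects generate,
the vectors `u` are universal and the vectors `v` are free. -/
structure Data [∀ M, Preadditive (R M)] : Prop where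
  separating : ∀ (M : ι) (x y : R M) (f g : x ⟶ y),
    (∀ (a : A) (w : W M a ⟶ x), w ≫ f = w ≫ g) → f = g
  generated : ∀ (M : ι) (x : R M),
    GeneratedBy (fun p : {L : ι // L ≤ M} × A => (ind p.1 M p.1.2).obj (W p.1 p.2)) x
  universal : ∀ L M h a, Universal (ind L M h) (u L M h a)
  spec_free : ∀ (L M : ι) (h : L ≤ M) (a b : A) (w : O M a ⟶ (spec L M h).obj (O L b)),
    ∃! f : O L a ⟶ O L b, w = v L M h a ≫ (spec L M h).map f

/-- Induction is trivial for `M ≤ M` and transitive, compatibly with the given vectors. -/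
structure Transitive : Prop where
  refl : ∀ M, ∃ ρ : 𝟭 (R M) ≅ ind M M le_rfl, ∀ a, ρ.hom.app (W M a) = u M M le_rfl a
  trans : ∀ (K L M : ι) (h : K ≤ L) (h' : L ≤ M),
    ∃ τ : ind K L h ⋙ ind L M h' ≅ ind K M (h.trans h'), ∀ a,
      u L M h' a ≫ (ind L M h').map (u K L h a) ≫ τ.hom.app (W K a) = u K M (h.trans h') a

variable {W O}

section chi

variable (χ : ∀ (M : ι) (a b : A), (W M a ⟶ W M b) → (O M a ⟶ O M b))

omit [Preorder ι] in
/-- The maps `χ M a b` are additive and bijective. -/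
structure AdditiveBijections [∀ M, Preadditive (R M)] [∀ M, Preadditive (X M)] : Prop where
  map_add : ∀ (M : ι) (a b : A) (f g : W M a ⟶ W M b), χ M a b (f + g) = χ M a b f + χ M a b g
  bijective : ∀ M a b, Function.Bijective (χ M a b)

omit [Preorder ι] in
/-- The maps `χ` are compatible with composition. -/
def MapsComp : Prop :=
  ∀ (M : ι) (a b c : A) (f : W M a ⟶ W M b) (g : W M b ⟶ W M c),
    χ M a c (f ≫ g) = χ M a b f ≫ χ M b c g

variable {ind spec}

/-- The morphisms `φ : ind (W K a) ⟶ ind (W L b)` and `ψ : spec (O K a) ⟶ spec (O L b)`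
correspond to each other under the maps `χ`: whenever `φ` takes the multiple `z` of the
vector `u` to the multiple `z'`, `ψ` takes the multiple `χ z` of `v` to the multiple `χ z'`. -/
def Matches {K L M : ι} (h : K ≤ M) (h' : L ≤ M) {a b : A}
    (φ : (ind K M h).obj (W K a) ⟶ (ind L M h').obj (W L b))
    (ψ : (spec K M h).obj (O K a) ⟶ (spec L M h').obj (O L b)) : Prop :=
  ∀ (c : A) (z : W K c ⟶ W K a) (z' : W L c ⟶ W L b),
    u K M h c ≫ (ind K M h).map z ≫ φ = u L M h' c ≫ (ind L M h').map z' →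
      v K M h c ≫ (spec K M h).map (χ K c a z) ≫ ψ = v L M h' c ≫ (spec L M h').map (χ L c b z')

/-- Under `χ`, the morphisms between the induced Whittaker objects and the morphisms between
the spectral Eisenstein objects `spec (O L b)` correspond bijectively to each other. -/
def Matching : Prop :=
  ∀ (K L M : ι) (h : K ≤ M) (h' : L ≤ M) (a b : A),
    (∀ φ : (ind K M h).obj (W K a) ⟶ (ind L M h').obj (W L b),
      ∃! ψ : (spec K M h).obj (O K a) ⟶ (spec L M h').obj (O L b), Matches u v χ h h' φ ψ) ∧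
    ∀ ψ : (spec K M h).obj (O K a) ⟶ (spec L M h').obj (O L b),
      ∃ φ : (ind K M h).obj (W K a) ⟶ (ind L M h').obj (W L b), Matches u v χ h h' φ ψ

/-- The functors `F M` are additive and fully faithful, the isomorphisms `e M a` of the images of
the Whittaker objects with the objects `O M a` induce the maps `χ`, and there are isomorphisms
`F M ∘ ind ≅ spec ∘ F L` which take the vectors `u` to the vectors `v`. -/
structure IsFamily [∀ M, Preadditive (R M)] [∀ M, Preadditive (X M)] (F : ∀ M, R M ⥤ X M)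
    (e : ∀ M a, (F M).obj (W M a) ≅ O M a) : Prop where
  additive : ∀ M, (F M).Additive
  full : ∀ M, (F M).Full
  faithful : ∀ M, (F M).Faithful
  induces : ∀ (M : ι) (a b : A) (z : W M a ⟶ W M b),
    (F M).map z ≫ (e M b).hom = (e M a).hom ≫ χ M a b z
  induction : ∀ (L M : ι) (h : L ≤ M), ∃ η : ind L M h ⋙ F M ≅ F L ⋙ spec L M h, ∀ a,
    (F M).map (u L M h a) ≫ η.hom.app (W L a) ≫ (spec L M h).map (e L a).hom =
      (e M a).hom ≫ v L M h a

end chi

omit [Preorder ι] in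
/-- Each functor `F M` is isomorphic to `F' M` by exactly one isomorphism compatible with the
isomorphisms `e M a` and `e' M a`. -/
def UniquelyIso {F F' : ∀ M, R M ⥤ X M} (e : ∀ M a, (F M).obj (W M a) ≅ O M a)
    (e' : ∀ M a, (F' M).obj (W M a) ≅ O M a) : Prop :=
  ∀ M, ∃! θ : F M ≅ F' M, ∀ a, θ.hom.app (W M a) ≫ (e' M a).hom = (e M a).hom

end defs

section build

variable {ι : Type w} [Preorder ι] {A : Type w'} {R : ι → Type u} [∀ M, Category.{v} (R M)]
  [∀ M, Preadditive (R M)] {X : ι → Type u'} [∀ M, Category.{v'} (X M)]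
  [∀ M, Preadditive (X M)]
  {ind : ∀ L M : ι, L ≤ M → (R L ⥤ R M)} {spec : ∀ L M : ι, L ≤ M → (X L ⥤ X M)}
  {W : ∀ M, A → R M} {O : ∀ M, A → X M}
  {u : ∀ (L M : ι) (h : L ≤ M) (a : A), W M a ⟶ (ind L M h).obj (W L a)}
  {v : ∀ (L M : ι) (h : L ≤ M) (a : A), O M a ⟶ (spec L M h).obj (O L a)}
  {χ : ∀ (M : ι) (a b : A), (W M a ⟶ W M b) → (O M a ⟶ O M b)}

theorem matches_id (hW : Data ind spec W O u v) {K M : ι} (h : K ≤ M) (a : A) :
    Matches u v χ h h (𝟙 ((ind K M h).obj (W K a))) (𝟙 ((spec K M h).obj (O K a))) := by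
  intro c z z' hz
  rw [comp_id] at hz ⊢
  have h2 : z = z' := (hW.universal K M h c _ (u K M h c ≫ (ind K M h).map z)).unique rfl hz
  rw [h2]

theorem matches_comp (hW : Data ind spec W O u v) {K L N M : ι} {h : K ≤ M} {h' : L ≤ M}
    {h'' : N ≤ M} {a b d : A} {φ : (ind K M h).obj (W K a) ⟶ (ind L M h').obj (W L b)}
    {φ' : (ind L M h').obj (W L b) ⟶ (ind N M h'').obj (W N d)}
    {ψ : (spec K M h).obj (O K a) ⟶ (spec L M h').obj (O L b)}
    {ψ' : (spec L M h').obj (O L b) ⟶ (spec N M h'').obj (O N d)}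
    (h1 : Matches u v χ h h' φ ψ) (h2 : Matches u v χ h' h'' φ' ψ') :
    Matches u v χ h h'' (φ ≫ φ') (ψ ≫ ψ') := by
  intro c z z'' hz
  obtain ⟨z', hz', -⟩ := hW.universal L M h' c _ (u K M h c ≫ (ind K M h).map z ≫ φ)
  have h3 := h1 c z z' hz'
  have hz'' : u K M h c ≫ (ind K M h).map z ≫ φ = u L M h' c ≫ (ind L M h').map z' := hz'
  have h4 := h2 c z' z'' (by
    rw [← hz, ← assoc (u L M h' c), ← hz'']
    simp only [assoc])
  rw [← h4, ← assoc (v L M h' c), ← h3]
  simp only [assoc]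

theorem matches_add (hW : Data ind spec W O u v) (hχ : AdditiveBijections χ)
    [∀ L M h, (ind L M h).Additive] [∀ L M h, (spec L M h).Additive] {K L M : ι} {h : K ≤ M}
    {h' : L ≤ M} {a b : A} {φ φ' : (ind K M h).obj (W K a) ⟶ (ind L M h').obj (W L b)}
    {ψ ψ' : (spec K M h).obj (O K a) ⟶ (spec L M h').obj (O L b)}
    (h1 : Matches u v χ h h' φ ψ) (h2 : Matches u v χ h h' φ' ψ') :
    Matches u v χ h h' (φ + φ') (ψ + ψ') := by
  intro c z z'' hz
  obtain ⟨z₁, hz₁, -⟩ := hW.universal L M h' c _ (u K M h c ≫ (ind K M h).map z ≫ φ)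
  obtain ⟨z₂, hz₂, -⟩ := hW.universal L M h' c _ (u K M h c ≫ (ind K M h).map z ≫ φ')
  have h3 := h1 c z z₁ hz₁
  have h4 := h2 c z z₂ hz₂
  have hz₁' : u K M h c ≫ (ind K M h).map z ≫ φ = u L M h' c ≫ (ind L M h').map z₁ := hz₁
  have hz₂' : u K M h c ≫ (ind K M h).map z ≫ φ' = u L M h' c ≫ (ind L M h').map z₂ := hz₂
  have h5 : z₁ + z₂ = z'' := by
    refine (hW.universal L M h' c _ (u L M h' c ≫ (ind L M h').map z'')).unique ?_ rfl
    show u L M h' c ≫ (ind L M h').map z'' = u L M h' c ≫ (ind L M h').map (z₁ + z₂)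
    rw [← hz, Functor.map_add, Preadditive.comp_add, Preadditive.comp_add, Preadditive.comp_add,
      hz₁', hz₂']
  rw [← h5, hχ.map_add, Functor.map_add, Preadditive.comp_add, Preadditive.comp_add,
    Preadditive.comp_add, h3, h4]

theorem matches_injective (hW : Data ind spec W O u v) (hχ : AdditiveBijections χ) {K L M : ι}
    {h : K ≤ M} {h' : L ≤ M} {a b : A}
    {φ φ' : (ind K M h).obj (W K a) ⟶ (ind L M h').obj (W L b)}
    {ψ : (spec K M h).obj (O K a) ⟶ (spec L M h').obj (O L b)}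
    (h1 : Matches u v χ h h' φ ψ) (h2 : Matches u v χ h h' φ' ψ) : φ = φ' := by
  apply hW.separating M
  intro c w
  obtain ⟨z, hz, -⟩ := hW.universal K M h c _ w
  have hz' : w = u K M h c ≫ (ind K M h).map z := hz
  obtain ⟨z₁, hz₁, -⟩ := hW.universal L M h' c _ (w ≫ φ)
  obtain ⟨z₂, hz₂, -⟩ := hW.universal L M h' c _ (w ≫ φ')
  have hz₁' : w ≫ φ = u L M h' c ≫ (ind L M h').map z₁ := hz₁
  have hz₂' : w ≫ φ' = u L M h' c ≫ (ind L M h').map z₂ := hz₂
  have h3 := h1 c z z₁ (by rw [← hz₁', hz', assoc])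
  have h4 := h2 c z z₂ (by rw [← hz₂', hz', assoc])
  have h5 : χ L c b z₁ = χ L c b z₂ := (hW.spec_free L M h' c b _).unique h3 h4
  rw [hz₁', hz₂', (hχ.bijective L c b).1 h5]

theorem matches_map (hW : Data ind spec W O u v) (hc : MapsComp χ) {K M : ι} (h : K ≤ M)
    {a b : A} (z : W K a ⟶ W K b) :
    Matches u v χ h h ((ind K M h).map z) ((spec K M h).map (χ K a b z)) := by
  intro c p q hpq
  have h1 : p ≫ z = q := by
    refine (hW.universal K M h c _ (u K M h c ≫ (ind K M h).map q)).unique ?_ rfl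
    show u K M h c ≫ (ind K M h).map q = u K M h c ≫ (ind K M h).map (p ≫ z)
    rw [← hpq, Functor.map_comp]
  rw [← h1, hc, Functor.map_comp]

omit [Preorder ι] in
theorem map_one (hχ : AdditiveBijections χ) (hc : MapsComp χ) (M : ι) (a : A) :
    χ M a a (𝟙 (W M a)) = 𝟙 (O M a) := by
  obtain ⟨c, hc'⟩ := (hχ.bijective M a a).2 (𝟙 (O M a))
  have h1 := hc M a a a c (𝟙 (W M a))
  rw [comp_id, hc', id_comp] at h1
  exact h1.symm

theorem matches_unique (hM : Matching u v χ) {K L M : ι} {h : K ≤ M} {h' : L ≤ M} {a b : A}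
    {φ : (ind K M h).obj (W K a) ⟶ (ind L M h').obj (W L b)}
    {ψ ψ' : (spec K M h).obj (O K a) ⟶ (spec L M h').obj (O L b)}
    (h1 : Matches u v χ h h' φ ψ) (h2 : Matches u v χ h h' φ ψ') : ψ = ψ' :=
  ((hM K L M h h' a b).1 φ).unique h1 h2

/-- The functor on the full subcategory of the induced Whittaker objects. -/
theorem exists_pre (hW : Data ind spec W O u v) (hχ : AdditiveBijections χ)
    [∀ L M h, (ind L M h).Additive] [∀ L M h, (spec L M h).Additive] (hM : Matching u v χ)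
    (M : ι) :
    ∃ Φ : Build.Pre (fun p : {L : ι // L ≤ M} × A => (ind p.1 M p.1.2).obj (W p.1 p.2))
      (fun p : {L : ι // L ≤ M} × A => (spec p.1 M p.1.2).obj (O p.1 p.2)),
      (∀ K L, Function.Bijective (Φ.map K L)) ∧
      ∀ (K L : {L : ι // L ≤ M} × A)
        (φ : (ind K.1 M K.1.2).obj (W K.1 K.2) ⟶ (ind L.1 M L.1.2).obj (W L.1 L.2)),
        Matches u v χ K.1.2 L.1.2 φ (Φ.map K L φ) := by
  have h0 : ∀ (K L : {L : ι // L ≤ M} × A)
      (φ : (ind K.1 M K.1.2).obj (W K.1 K.2) ⟶ (ind L.1 M L.1.2).obj (W L.1 L.2)),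
      ∃ ψ : (spec K.1 M K.1.2).obj (O K.1 K.2) ⟶ (spec L.1 M L.1.2).obj (O L.1 L.2),
        Matches u v χ K.1.2 L.1.2 φ ψ :=
    fun K L φ => ((hM K.1 L.1 M K.1.2 L.1.2 K.2 L.2).1 φ).exists
  choose f hf using h0
  refine ⟨{ map := f
            map_id := fun K => matches_unique hM (hf K K _) (matches_id hW K.1.2 K.2)
            map_comp := fun K L N φ φ' => matches_unique hM (hf K N _)
              (matches_comp hW (hf K L φ) (hf L N φ'))
            map_add := fun K L φ φ' => matches_unique hM (hf K L _)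
              (matches_add hW hχ (hf K L φ) (hf K L φ')) }, fun K L => ⟨?_, ?_⟩, hf⟩
  · intro φ φ' h
    have h' : f K L φ = f K L φ' := h
    refine matches_injective hW hχ (hf K L φ) ?_
    rw [h']
    exact hf K L φ'
  · intro ψ
    obtain ⟨φ, hφ⟩ := (hM K.1 L.1 M K.1.2 L.1.2 K.2 L.2).2 ψ
    exact ⟨φ, matches_unique hM (hf K L φ) hφ⟩

/-- Compatibility of the correspondence of morphisms with induction. -/
theorem matches_ind (hW : Data ind spec W O u v) {K L N M : ι} (hK : K ≤ N) (hL : L ≤ N)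
    (hN : N ≤ M)
    {τK : ind K N hK ⋙ ind N M hN ≅ ind K M (hK.trans hN)}
    {τL : ind L N hL ⋙ ind N M hN ≅ ind L M (hL.trans hN)}
    {σK : spec K N hK ⋙ spec N M hN ≅ spec K M (hK.trans hN)}
    {σL : spec L N hL ⋙ spec N M hN ≅ spec L M (hL.trans hN)}
    (hτK : ∀ a, u N M hN a ≫ (ind N M hN).map (u K N hK a) ≫ τK.hom.app (W K a) =
      u K M (hK.trans hN) a)
    (hτL : ∀ a, u N M hN a ≫ (ind N M hN).map (u L N hL a) ≫ τL.hom.app (W L a) =
      u L M (hL.trans hN) a)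
    (hσK : ∀ a, v N M hN a ≫ (spec N M hN).map (v K N hK a) ≫ σK.hom.app (O K a) =
      v K M (hK.trans hN) a)
    (hσL : ∀ a, v N M hN a ≫ (spec N M hN).map (v L N hL a) ≫ σL.hom.app (O L a) =
      v L M (hL.trans hN) a) {a b : A}
    {φ : (ind K N hK).obj (W K a) ⟶ (ind L N hL).obj (W L b)}
    {ψ : (spec K N hK).obj (O K a) ⟶ (spec L N hL).obj (O L b)}
    (h : Matches u v χ hK hL φ ψ) :
    Matches u v χ (hK.trans hN) (hL.trans hN)
      (τK.inv.app (W K a) ≫ (ind N M hN).map φ ≫ τL.hom.app (W L b))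
      (σK.inv.app (O K a) ≫ (spec N M hN).map ψ ≫ σL.hom.app (O L b)) := by
  intro c z z' hz
  have n1 : (ind N M hN).map ((ind K N hK).map z) ≫ τK.hom.app (W K a) =
      τK.hom.app (W K c) ≫ (ind K M (hK.trans hN)).map z := τK.hom.naturality z
  have n2 : (ind N M hN).map ((ind L N hL).map z') ≫ τL.hom.app (W L b) =
      τL.hom.app (W L c) ≫ (ind L M (hL.trans hN)).map z' := τL.hom.naturality z'
  have n3 : (spec N M hN).map ((spec K N hK).map (χ K c a z)) ≫ σK.hom.app (O K a) =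
      σK.hom.app (O K c) ≫ (spec K M (hK.trans hN)).map (χ K c a z) :=
    σK.hom.naturality (χ K c a z)
  have n4 : (spec N M hN).map ((spec L N hL).map (χ L c b z')) ≫ σL.hom.app (O L b) =
      σL.hom.app (O L c) ≫ (spec L M (hL.trans hN)).map (χ L c b z') :=
    σL.hom.naturality (χ L c b z')
  have e1 : u N M hN c ≫ (ind N M hN).map (u K N hK c ≫ (ind K N hK).map z ≫ φ) =
      u N M hN c ≫ (ind N M hN).map (u L N hL c ≫ (ind L N hL).map z') := by
    rw [← cancel_mono (τL.hom.app (W L b))]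
    calc (u N M hN c ≫ (ind N M hN).map (u K N hK c ≫ (ind K N hK).map z ≫ φ)) ≫
          τL.hom.app (W L b)
        = u K M (hK.trans hN) c ≫ (ind K M (hK.trans hN)).map z ≫ τK.inv.app (W K a) ≫
            (ind N M hN).map φ ≫ τL.hom.app (W L b) := by
          rw [← hτK]
          simp only [assoc, Functor.map_comp]
          rw [← reassoc_of% n1, Iso.hom_inv_id_app_assoc]
      _ = u L M (hL.trans hN) c ≫ (ind L M (hL.trans hN)).map z' := hz
      _ = (u N M hN c ≫ (ind N M hN).map (u L N hL c ≫ (ind L N hL).map z')) ≫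
            τL.hom.app (W L b) := by
          rw [← hτL]
          simp only [assoc, Functor.map_comp]
          rw [n2]
  have e2 : u K N hK c ≫ (ind K N hK).map z ≫ φ = u L N hL c ≫ (ind L N hL).map z' :=
    (hW.universal N M hN c _ _).unique rfl e1
  have e3 := h c z z' e2
  rw [← hσK, ← hσL]
  simp only [assoc]
  rw [← reassoc_of% n3, Iso.hom_inv_id_app_assoc, ← n4]
  simp only [← assoc, ← Functor.map_comp]
  rw [assoc (v N M hN c), assoc (v N M hN c), assoc (v K N hK c), e3]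

/-- The functor for one standard Levi subgroup. -/
theorem exists_functor_of_matching (hW : Data ind spec W O u v) (hT : Transitive ind W u)
    (hT' : Transitive spec O v) [∀ L M h, (ind L M h).Additive]
    [∀ L M h, (spec L M h).Additive] [∀ M, HasFiniteBiproducts (X M)]
    [∀ M, IsIdempotentComplete (X M)] (hχ : AdditiveBijections χ) (hc : MapsComp χ)
    (hM : Matching u v χ) (M : ι) :
    ∃ (F : R M ⥤ X M) (e : ∀ a, F.obj (W M a) ≅ O M a)
      (t : ∀ (L : ι) (h : L ≤ M) (a : A),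
        F.obj ((ind L M h).obj (W L a)) ≅ (spec L M h).obj (O L a)),
      F.Additive ∧ F.Full ∧ F.Faithful ∧
      (∀ (a b : A) (z : W M a ⟶ W M b), F.map z ≫ (e b).hom = (e a).hom ≫ χ M a b z) ∧
      (∀ (L : ι) (h : L ≤ M) (a : A),
        F.map (u L M h a) ≫ (t L h a).hom = (e a).hom ≫ v L M h a) ∧
      ∀ (K L : ι) (h : K ≤ M) (h' : L ≤ M) (a b : A)
        (φ : (ind K M h).obj (W K a) ⟶ (ind L M h').obj (W L b))
        (ψ : (spec K M h).obj (O K a) ⟶ (spec L M h').obj (O L b)),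
        Matches u v χ h h' φ ψ → F.map φ ≫ (t L h' b).hom = (t K h a).hom ≫ ψ := by
  obtain ⟨Φ, hΦ, hΦ'⟩ := exists_pre hW hχ hM M
  obtain ⟨F, t, h1, h2, h3, h4⟩ := Build.exists_functor Φ (hW.generated M) hΦ
  obtain ⟨ρ, hρ⟩ := hT.refl M
  obtain ⟨ρ', hρ'⟩ := hT'.refl M
  have key : ∀ (K L : ι) (h : K ≤ M) (h' : L ≤ M) (a b : A)
      (φ : (ind K M h).obj (W K a) ⟶ (ind L M h').obj (W L b))
      (ψ : (spec K M h).obj (O K a) ⟶ (spec L M h').obj (O L b)),
      Matches u v χ h h' φ ψ →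
        F.map φ ≫ (t (⟨L, h'⟩, b)).hom = (t (⟨K, h⟩, a)).hom ≫ ψ := by
    intro K L h h' a b φ ψ hφ
    rw [← matches_unique hM (hΦ' (⟨K, h⟩, a) (⟨L, h'⟩, b) φ) hφ]
    exact h4 (⟨K, h⟩, a) (⟨L, h'⟩, b) φ
  have hρi : ∀ a, u M M le_rfl a ≫ ρ.inv.app (W M a) = 𝟙 (W M a) := by
    intro a
    rw [← hρ, Iso.hom_inv_id_app]
    rfl
  let e : ∀ a, F.obj (W M a) ≅ O M a := fun a =>
    F.mapIso (ρ.app (W M a)) ≪≫ t (⟨M, le_rfl⟩, a) ≪≫ (ρ'.app (O M a)).symm
  have he : ∀ a, (e a).hom = F.map (u M M le_rfl a) ≫ (t (⟨M, le_rfl⟩, a)).hom ≫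
      ρ'.inv.app (O M a) := by
    intro a
    rw [← hρ]
    rfl
  refine ⟨F, e, fun L h a => t (⟨L, h⟩, a), h1, h2, h3, ?_, ?_, key⟩
  · intro a b z
    have n1 : z ≫ u M M le_rfl b = u M M le_rfl a ≫ (ind M M le_rfl).map z := by
      rw [← hρ, ← hρ]
      exact ρ.hom.naturality z
    have n2 : (spec M M le_rfl).map (χ M a b z) ≫ ρ'.inv.app (O M b) =
        ρ'.inv.app (O M a) ≫ χ M a b z := ρ'.inv.naturality (χ M a b z)
    have n3 := key M M le_rfl le_rfl a b _ _ (matches_map hW hc le_rfl z)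
    rw [he, he, ← assoc, ← F.map_comp, n1, F.map_comp, assoc, reassoc_of% n3, n2]
    simp only [assoc]
  · intro L h a
    obtain ⟨ψ, hψ, -⟩ := (hM M L M le_rfl h a a).1 (ρ.inv.app (W M a) ≫ u L M h a)
    have hψ' : Matches u v χ le_rfl h (ρ.inv.app (W M a) ≫ u L M h a) ψ := hψ
    have e1 := hψ' a (𝟙 _) (𝟙 _) (by
      rw [CategoryTheory.Functor.map_id, CategoryTheory.Functor.map_id, comp_id, id_comp,
        ← assoc, hρi, id_comp])
    rw [map_one hχ hc, map_one hχ hc, CategoryTheory.Functor.map_id,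
      CategoryTheory.Functor.map_id, comp_id, id_comp] at e1
    have e2 := key M L le_rfl h a a _ _ hψ'
    show F.map (u L M h a) ≫ (t (⟨L, h⟩, a)).hom = (e a).hom ≫ v L M h a
    have e3 : F.map (u L M h a) =
        F.map (u M M le_rfl a) ≫ F.map (ρ.inv.app (W M a) ≫ u L M h a) := by
      rw [← F.map_comp, ← assoc, hρi, id_comp]
    rw [e3, assoc, e2, he, ← e1, ← hρ']
    simp only [assoc, Iso.inv_hom_id_app_assoc]

/-- Existence of the family. -/
theorem exists_family (hW : Data ind spec W O u v) (hT : Transitive ind W u)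
    (hT' : Transitive spec O v) [∀ L M h, (ind L M h).Additive]
    [∀ L M h, (spec L M h).Additive] [∀ M, HasFiniteBiproducts (X M)]
    [∀ M, IsIdempotentComplete (X M)] (hχ : AdditiveBijections χ) (hc : MapsComp χ)
    (hM : Matching u v χ) :
    ∃ (F : ∀ M, R M ⥤ X M) (e : ∀ M a, (F M).obj (W M a) ≅ O M a), IsFamily u v χ F e := by
  have key := exists_functor_of_matching hW hT hT' hχ hc hM
  choose F e t h1 h2 h3 h4 h5 h6 using key
  refine ⟨F, e, ⟨h1, h2, h3, h4, ?_⟩⟩
  intro N M hN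
  choose τ hτ using fun K : {K : ι // K ≤ N} => hT.trans K N M K.2 hN
  choose σ hσ using fun K : {K : ι // K ≤ N} => hT'.trans K N M K.2 hN
  have hFN := h1 N
  have hFM := h1 M
  let θ : ∀ p : {K : ι // K ≤ N} × A,
      (ind N M hN ⋙ F M).obj ((ind p.1 N p.1.2).obj (W p.1 p.2)) ≅
      (F N ⋙ spec N M hN).obj ((ind p.1 N p.1.2).obj (W p.1 p.2)) := fun p =>
    (F M).mapIso ((τ p.1).app (W p.1 p.2)) ≪≫ t M p.1 (p.1.2.trans hN) p.2 ≪≫
      ((σ p.1).app (O p.1 p.2)).symm ≪≫ (spec N M hN).mapIso (t N p.1 p.1.2 p.2).symm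
  obtain ⟨Θ, hΘ⟩ := exists_extension_iso (hW.generated N) (ind N M hN ⋙ F M)
    (F N ⋙ spec N M hN) θ (by
      intro K L φ
      obtain ⟨ψ, hψ, -⟩ := (hM K.1 L.1 N K.1.2 L.1.2 K.2 L.2).1 φ
      have hψ' : Matches u v χ K.1.2 L.1.2 φ ψ := hψ
      have e1 := h6 N K.1 L.1 K.1.2 L.1.2 K.2 L.2 φ ψ hψ'
      have e2 := h6 M K.1 L.1 (K.1.2.trans hN) (L.1.2.trans hN) K.2 L.2 _ _
        (matches_ind hW K.1.2 L.1.2 hN (hτ K.1) (hτ L.1) (hσ K.1) (hσ L.1) hψ')
      show (F M).map ((ind N M hN).map φ) ≫ (F M).map ((τ L.1).hom.app (W L.1 L.2)) ≫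
        (t M L.1 (L.1.2.trans hN) L.2).hom ≫ (σ L.1).inv.app (O L.1 L.2) ≫
          (spec N M hN).map (t N L.1 L.1.2 L.2).inv =
        ((F M).map ((τ K.1).hom.app (W K.1 K.2)) ≫ (t M K.1 (K.1.2.trans hN) K.2).hom ≫
          (σ K.1).inv.app (O K.1 K.2) ≫
            (spec N M hN).map (t N K.1 K.1.2 K.2).inv) ≫ (spec N M hN).map ((F N).map φ)
      have e3 : (F M).map ((ind N M hN).map φ) ≫ (F M).map ((τ L.1).hom.app (W L.1 L.2)) =
          (F M).map ((τ K.1).hom.app (W K.1 K.2)) ≫ (F M).map ((τ K.1).inv.app (W K.1 K.2) ≫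
            (ind N M hN).map φ ≫ (τ L.1).hom.app (W L.1 L.2)) := by
        rw [← Functor.map_comp, ← Functor.map_comp, Iso.hom_inv_id_app_assoc]
      rw [reassoc_of% e3, reassoc_of% e2]
      simp only [assoc, Iso.hom_inv_id_app_assoc, ← Functor.map_comp]
      have e4 : ψ ≫ (t N L.1 L.1.2 L.2).inv = (t N K.1 K.1.2 K.2).inv ≫ (F N).map φ := by
        rw [← cancel_epi (t N K.1 K.1.2 K.2).hom, ← cancel_mono (t N L.1 L.1.2 L.2).hom]
        simp only [assoc, Iso.inv_hom_id, comp_id, Iso.hom_inv_id_assoc]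
        exact e1.symm
      rw [e4])
  refine ⟨Θ, fun a => ?_⟩
  -- the value at `W N a` is determined by the value at `ind (W N a)`
  obtain ⟨ρ', hρ'⟩ := hT'.refl N
  have n1 : (F M).map ((ind N M hN).map (u N N le_rfl a)) ≫
      Θ.hom.app ((ind N N le_rfl).obj (W N a)) =
      Θ.hom.app (W N a) ≫ (spec N M hN).map ((F N).map (u N N le_rfl a)) :=
    Θ.hom.naturality (u N N le_rfl a)
  have n2 : Θ.hom.app ((ind N N le_rfl).obj (W N a)) =
      (F M).map ((τ ⟨N, le_rfl⟩).hom.app (W N a)) ≫ (t M N (le_rfl.trans hN) a).hom ≫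
        (σ ⟨N, le_rfl⟩).inv.app (O N a) ≫ (spec N M hN).map (t N N le_rfl a).inv :=
    hΘ (⟨N, le_rfl⟩, a)
  have n3 := hτ ⟨N, le_rfl⟩ a
  have n4 := hσ ⟨N, le_rfl⟩ a
  have n5 := h5 N N le_rfl a
  have n6 := h5 M N hN a
  have iv : IsIso (v N N le_rfl a) := by
    rw [← hρ']
    infer_instance
  rw [← cancel_mono ((spec N M hN).map (v N N le_rfl a))]
  have m1 : (spec N M hN).map (e N a).hom ≫ (spec N M hN).map (v N N le_rfl a) =
      (spec N M hN).map ((F N).map (u N N le_rfl a)) ≫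
        (spec N M hN).map (t N N le_rfl a).hom := by
    rw [← Functor.map_comp, ← Functor.map_comp, n5]
  have m2 : v N M hN a ≫ (σ ⟨N, le_rfl⟩).inv.app (O N a) =
      v N M hN a ≫ (spec N M hN).map (v N N le_rfl a) := by
    rw [← cancel_mono ((σ ⟨N, le_rfl⟩).hom.app (O N a))]
    simp only [assoc, Iso.inv_hom_id_app, comp_id]
    exact n4.symm
  have m3 : (F M).map (u N M hN a) ≫ (F M).map ((ind N M hN).map (u N N le_rfl a)) ≫
      (F M).map ((τ ⟨N, le_rfl⟩).hom.app (W N a)) = (F M).map (u N M hN a) := by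
    rw [← Functor.map_comp, ← Functor.map_comp]
    exact congrArg (F M).map n3
  have m4 : (σ ⟨N, le_rfl⟩).inv.app (O N a) ≫ (spec N M hN).map (t N N le_rfl a).inv ≫
      (spec N M hN).map (t N N le_rfl a).hom = (σ ⟨N, le_rfl⟩).inv.app (O N a) := by
    rw [← Functor.map_comp, Iso.inv_hom_id, CategoryTheory.Functor.map_id]
    exact comp_id _
  calc ((F M).map (u N M hN a) ≫ Θ.hom.app (W N a) ≫ (spec N M hN).map (e N a).hom) ≫
        (spec N M hN).map (v N N le_rfl a)
      = (F M).map (u N M hN a) ≫ (Θ.hom.app (W N a) ≫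
          (spec N M hN).map ((F N).map (u N N le_rfl a))) ≫
            (spec N M hN).map (t N N le_rfl a).hom := by
        simp only [assoc]
        rw [m1]
    _ = ((F M).map (u N M hN a) ≫ (F M).map ((ind N M hN).map (u N N le_rfl a)) ≫
          (F M).map ((τ ⟨N, le_rfl⟩).hom.app (W N a))) ≫ (t M N (le_rfl.trans hN) a).hom ≫
            (σ ⟨N, le_rfl⟩).inv.app (O N a) := by
        rw [← n1, n2]
        simp only [assoc]
        rw [m4]
    _ = ((e M a).hom ≫ v N M hN a) ≫ (σ ⟨N, le_rfl⟩).inv.app (O N a) := by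
        rw [m3, ← n6, assoc]
    _ = ((e M a).hom ≫ v N M hN a) ≫ (spec N M hN).map (v N N le_rfl a) := by
        rw [assoc, m2, assoc]

end build

section converse

variable {ι : Type w} [Preorder ι] {A : Type w'} {R : ι → Type u} [∀ M, Category.{v} (R M)]
  [∀ M, Preadditive (R M)] {X : ι → Type u'} [∀ M, Category.{v'} (X M)]
  [∀ M, Preadditive (X M)]
  {ind : ∀ L M : ι, L ≤ M → (R L ⥤ R M)} {spec : ∀ L M : ι, L ≤ M → (X L ⥤ X M)}
  {W : ∀ M, A → R M} {O : ∀ M, A → X M}
  {u : ∀ (L M : ι) (h : L ≤ M) (a : A), W M a ⟶ (ind L M h).obj (W L a)}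
  {v : ∀ (L M : ι) (h : L ≤ M) (a : A), O M a ⟶ (spec L M h).obj (O L a)}
  {χ : ∀ (M : ι) (a b : A), (W M a ⟶ W M b) → (O M a ⟶ O M b)}

/-- For a family, the correspondence of morphisms is given by the functors. -/
theorem exists_matching_iso (hW : Data ind spec W O u v) {F : ∀ M, R M ⥤ X M}
    {e : ∀ M a, (F M).obj (W M a) ≅ O M a} (hF : IsFamily u v χ F e) :
    ∃ t : ∀ (L M : ι) (h : L ≤ M) (a : A),
        (F M).obj ((ind L M h).obj (W L a)) ≅ (spec L M h).obj (O L a),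
      (∀ (L M : ι) (h : L ≤ M) (a : A),
        (F M).map (u L M h a) ≫ (t L M h a).hom = (e M a).hom ≫ v L M h a) ∧
      ∀ (K L M : ι) (h : K ≤ M) (h' : L ≤ M) (a b : A)
        (φ : (ind K M h).obj (W K a) ⟶ (ind L M h').obj (W L b))
        (ψ : (spec K M h).obj (O K a) ⟶ (spec L M h').obj (O L b)),
        Matches u v χ h h' φ ψ ↔ (F M).map φ ≫ (t L M h' b).hom = (t K M h a).hom ≫ ψ := by
  have := hF.full
  have := hF.faithful
  choose η hη using hF.induction
  refine ⟨fun L M h a => (η L M h).app (W L a) ≪≫ (spec L M h).mapIso (e L a), hη, ?_⟩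
  have ht : ∀ (L M : ι) (h : L ≤ M) (a : A), (F M).map (u L M h a) ≫
      ((η L M h).app (W L a) ≪≫ (spec L M h).mapIso (e L a)).hom =
      (e M a).hom ≫ v L M h a := hη
  have ht' : ∀ (L M : ι) (h : L ≤ M) (a b : A) (z : W L a ⟶ W L b),
      (F M).map ((ind L M h).map z) ≫
        ((η L M h).app (W L b) ≪≫ (spec L M h).mapIso (e L b)).hom =
      ((η L M h).app (W L a) ≪≫ (spec L M h).mapIso (e L a)).hom ≫
        (spec L M h).map (χ L a b z) := by
    intro L M h a b z
    have n1 : (F M).map ((ind L M h).map z) ≫ (η L M h).hom.app (W L b) =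
        (η L M h).hom.app (W L a) ≫ (spec L M h).map ((F L).map z) := (η L M h).hom.naturality z
    have n2 := hF.induces L a b z
    simp only [Iso.trans_hom, Iso.app_hom, Functor.mapIso_hom]
    rw [reassoc_of% n1, ← Functor.map_comp, n2, Functor.map_comp, assoc]
  intro K L M h h' a b φ ψ
  constructor
  · intro hφ
    obtain ⟨φ', hφ'⟩ : ∃ φ' : (ind K M h).obj (W K a) ⟶ (ind L M h').obj (W L b),
        (F M).map φ' = ((η K M h).app (W K a) ≪≫ (spec K M h).mapIso (e K a)).hom ≫ ψ ≫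
          ((η L M h').app (W L b) ≪≫ (spec L M h').mapIso (e L b)).inv :=
      (F M).map_surjective _
    have e1 : φ = φ' := by
      apply hW.separating M
      intro c w
      obtain ⟨z, hz, -⟩ := hW.universal K M h c _ w
      have hz' : w = u K M h c ≫ (ind K M h).map z := hz
      obtain ⟨z', hz₁, -⟩ := hW.universal L M h' c _ (w ≫ φ)
      have hz₁' : w ≫ φ = u L M h' c ≫ (ind L M h').map z' := hz₁
      have e2 := hφ c z z' (by rw [← hz₁', hz', assoc])
      apply (F M).map_injective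
      rw [hz₁', (F M).map_comp w, hφ', hz',
        ← cancel_mono ((η L M h').app (W L b) ≪≫ (spec L M h').mapIso (e L b)).hom]
      simp only [Functor.map_comp, assoc]
      rw [Iso.inv_hom_id, comp_id, ht' L M h', reassoc_of% (ht' K M h c a z),
        reassoc_of% (ht L M h' c), reassoc_of% (ht K M h c), e2]
    rw [e1, hφ']
    simp only [assoc, Iso.inv_hom_id, comp_id]
  · intro hφ c z z' hz
    rw [← cancel_epi (e M c).hom, ← reassoc_of% (ht K M h c), ← reassoc_of% (ht' K M h c a z),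
      ← hφ, ← reassoc_of% (ht L M h' c), ← ht' L M h', ← Functor.map_comp_assoc,
      ← Functor.map_comp_assoc, ← Functor.map_comp_assoc, assoc, hz]

theorem matching_of_family (hW : Data ind spec W O u v) {F : ∀ M, R M ⥤ X M}
    {e : ∀ M a, (F M).obj (W M a) ≅ O M a} (hF : IsFamily u v χ F e) : Matching u v χ := by
  have := hF.full
  obtain ⟨t, -, key⟩ := exists_matching_iso hW hF
  intro K L M h h' a b
  refine ⟨fun φ => ⟨(t K M h a).inv ≫ (F M).map φ ≫ (t L M h' b).hom, ?_, ?_⟩, fun ψ => ?_⟩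
  · show Matches u v χ h h' φ _
    rw [key, Iso.hom_inv_id_assoc]
  · intro ψ hψ
    have hψ' : Matches u v χ h h' φ ψ := hψ
    rw [key] at hψ'
    rw [hψ', Iso.inv_hom_id_assoc]
  · obtain ⟨φ, hφ⟩ : ∃ φ : (ind K M h).obj (W K a) ⟶ (ind L M h').obj (W L b),
          (F M).map φ = (t K M h a).hom ≫ ψ ≫ (t L M h' b).inv := (F M).map_surjective _
    refine ⟨φ, ?_⟩
    rw [key, hφ]
    simp only [assoc, Iso.inv_hom_id, comp_id]

theorem mapsComp_of_family {F : ∀ M, R M ⥤ X M}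
    {e : ∀ M a, (F M).obj (W M a) ≅ O M a} (hF : IsFamily u v χ F e) : MapsComp χ := by
  intro M a b c f g
  have h1 := hF.induces M a b f
  have h2 := hF.induces M b c g
  have h3 := hF.induces M a c (f ≫ g)
  rw [← cancel_epi (e M a).hom, ← h3, Functor.map_comp, assoc, h2, reassoc_of% h1]

theorem uniquelyIso_of_family (hW : Data ind spec W O u v) (hT : Transitive ind W u)
    {F F' : ∀ M, R M ⥤ X M} {e : ∀ M a, (F M).obj (W M a) ≅ O M a}
    {e' : ∀ M a, (F' M).obj (W M a) ≅ O M a} (hF : IsFamily u v χ F e)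
    (hF' : IsFamily u v χ F' e') : UniquelyIso e e' := by
  have := hF'.full
  have := hF'.faithful
  have := hF.additive
  have := hF'.additive
  obtain ⟨t, ht, key⟩ := exists_matching_iso hW hF
  obtain ⟨t', ht', key'⟩ := exists_matching_iso hW hF'
  have hM := matching_of_family hW hF
  intro M
  obtain ⟨Θ, hΘ⟩ := exists_extension_iso (hW.generated M) (F M) (F' M)
    (fun p => t p.1 M p.1.2 p.2 ≪≫ (t' p.1 M p.1.2 p.2).symm) (by
      intro K L φ
      obtain ⟨ψ, hψ, -⟩ := (hM K.1 L.1 M K.1.2 L.1.2 K.2 L.2).1 φ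
      have hψ' : Matches u v χ K.1.2 L.1.2 φ ψ := hψ
      have e1 := (key _ _ _ _ _ _ _ _ _).1 hψ'
      have e2 := (key' _ _ _ _ _ _ _ _ _).1 hψ'
      simp only [Iso.trans_hom, Iso.symm_hom]
      rw [← cancel_mono (t' L.1 M L.1.2 L.2).hom]
      simp only [assoc, Iso.inv_hom_id, comp_id]
      rw [e1, e2, Iso.inv_hom_id_assoc])
  obtain ⟨ρ, hρ⟩ := hT.refl M
  have hval : ∀ a, Θ.hom.app (W M a) ≫ (e' M a).hom = (e M a).hom := by
    intro a
    have n1 : (F M).map (u M M le_rfl a) ≫ Θ.hom.app ((ind M M le_rfl).obj (W M a)) =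
        Θ.hom.app (W M a) ≫ (F' M).map (u M M le_rfl a) := Θ.hom.naturality (u M M le_rfl a)
    have n2 : Θ.hom.app ((ind M M le_rfl).obj (W M a)) =
        (t M M le_rfl a).hom ≫ (t' M M le_rfl a).inv := hΘ (⟨M, le_rfl⟩, a)
    have iu : IsIso (u M M le_rfl a) := by
      rw [← hρ]
      infer_instance
    have n3 := ht M M le_rfl a
    have n4 := ht' M M le_rfl a
    have iv : IsIso (v M M le_rfl a) := by
      have h5 : v M M le_rfl a = (e M a).inv ≫ (F M).map (u M M le_rfl a) ≫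
          (t M M le_rfl a).hom := by
        rw [n3, Iso.inv_hom_id_assoc]
      rw [h5]
      infer_instance
    rw [← cancel_mono (v M M le_rfl a), assoc, ← n4, ← n3, ← reassoc_of% n1, n2]
    simp only [assoc, Iso.inv_hom_id, comp_id]
  refine ⟨Θ, hval, fun θ' hθ' => ?_⟩
  ext x
  have h2 : ∀ (a : A) (w : W M a ⟶ x),
      (F M).map w ≫ θ'.hom.app x = (F M).map w ≫ Θ.hom.app x := by
    intro a w
    have h3 : θ'.hom.app (W M a) = Θ.hom.app (W M a) := by
      rw [← cancel_mono (e' M a).hom, hθ' a, hval a]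
    rw [θ'.hom.naturality, Θ.hom.naturality, h3]
  obtain ⟨g, hg⟩ : ∃ g : x ⟶ x, (F' M).map g = θ'.inv.app x ≫ Θ.hom.app x :=
    (F' M).map_surjective _
  have h4 : g = 𝟙 x := by
    apply hW.separating M
    intro a w
    apply (F' M).map_injective
    rw [Functor.map_comp, hg, comp_id, ← cancel_epi (θ'.hom.app (W M a)), ← assoc,
      ← θ'.hom.naturality]
    rw [assoc, ← assoc (θ'.hom.app x), Iso.hom_inv_id_app, id_comp, ← h2]
  rw [h4, CategoryTheory.Functor.map_id] at hg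
  rw [← cancel_epi (θ'.inv.app x), ← hg, Iso.inv_hom_id_app]

end converse

end Multi

end TwistDescent
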