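import Pool.Agent.Lib.MP_7428c0_nt.Rigid

/-!
# Normalised commutation isomorphisms

A fully faithful functor which commutes with every twist up to some isomorphism commutes with
the twists coherently, if the identity functor has no natural automorphism besides the automorphisms
of one equivariant object `W`: the isomorphisms are normalised on `W`.
-/

set_option autoImplicit false

namespace TwistDescent

open CategoryTheory Category

universe v u v' u' w

variable {C : Type u} [Category.{v} C] {D : Type u'} [Category.{v'} D]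
  {A : Type w} [AddGroup A] [HasShift C A] [HasShift D A]

/-- The isomorphism `κ` of `F (x twisted by a)` with `F x` twisted by `a` is compatible with the
linearizations of `W` and `O` and the isomorphism `e : F W ≅ O`. -/
def Normalised (F : C ⥤ D) (W : Equivariant C A) (O : Equivariant D A) (e : F.obj W.obj ≅ O.obj)
    (a : A) (κ : shiftFunctor C a ⋙ F ≅ F ⋙ shiftFunctor D a) : Prop :=
  F.map (W.lin a).hom ≫ κ.hom.app W.obj ≫ e.hom⟦a⟧' = e.hom ≫ (O.lin a).hom

theorem Normalised.unique {F : C ⥤ D} [F.Full] [F.Faithful] {W : Equivariant C A}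
    {O : Equivariant D A} {e : F.obj W.obj ≅ O.obj} (hR : Rigid (𝟭 C) W.obj (𝟙 W.obj)) {a : A}
    {κ κ' : shiftFunctor C a ⋙ F ≅ F ⋙ shiftFunctor D a} (h : Normalised F W O e a κ)
    (h' : Normalised F W O e a κ') : κ = κ' := by
  have h1 : Rigid (shiftFunctor C a ⋙ F) W.obj (F.map (𝟙 W.obj) ≫ F.map (W.lin a).hom) :=
    Rigid.twist (P := F) W (Rigid.comp (P := 𝟭 C) hR F) a
  refine Rigid.unique (P := shiftFunctor C a ⋙ F) h1 κ κ' ?_
  have h2 : F.map (W.lin a).hom ≫ κ.hom.app W.obj = F.map (W.lin a).hom ≫ κ'.hom.app W.obj := by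
    rw [← cancel_mono (e.hom⟦a⟧'), assoc, assoc]
    exact h.trans h'.symm
  rw [assoc, assoc]
  exact congrArg (fun t => F.map (𝟙 W.obj) ≫ t) h2

theorem exists_normalised (F : C ⥤ D) [F.Full] [F.Faithful] (W : Equivariant C A)
    (O : Equivariant D A) (e : F.obj W.obj ≅ O.obj) (hZ : CenterOnto W.obj) (a : A)
    (h : Nonempty (shiftFunctor C a ⋙ F ≅ F ⋙ shiftFunctor D a)) :
    ∃ κ : shiftFunctor C a ⋙ F ≅ F ⋙ shiftFunctor D a, Normalised F W O e a κ := by
  obtain ⟨κ₀⟩ := h
  let t : F.obj W.obj ≅ F.obj W.obj :=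
    e ≪≫ O.lin a ≪≫ ((shiftFunctor D a).mapIso e).symm ≪≫ (κ₀.app W.obj).symm ≪≫
      (F.mapIso (W.lin a)).symm
  obtain ⟨z, hz⟩ := hZ (F.preimageIso t)
  have hz' : F.map (z.hom.app W.obj) = t.hom := by
    rw [hz, Functor.preimageIso_hom, Functor.map_preimage]
  have hnat : ∀ {x y : C} (f : x ⟶ y), f ≫ z.hom.app y = z.hom.app x ≫ f :=
    fun f => z.hom.naturality f
  let κ : shiftFunctor C a ⋙ F ≅ F ⋙ shiftFunctor D a :=
    NatIso.ofComponents (fun x => F.mapIso (z.app (x⟦a⟧)) ≪≫ κ₀.app x) (by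
      intro x y f
      simp only [Functor.comp_map, Iso.trans_hom, Functor.mapIso_hom, Iso.app_hom, assoc]
      rw [← F.map_comp_assoc, hnat (f⟦a⟧'), F.map_comp_assoc]
      congr 1
      exact κ₀.hom.naturality f)
  refine ⟨κ, ?_⟩
  have hκ : κ.hom.app W.obj = F.map (z.hom.app (W.obj⟦a⟧)) ≫ κ₀.hom.app W.obj := rfl
  unfold Normalised
  rw [hκ, assoc, ← F.map_comp_assoc, hnat (W.lin a).hom, F.map_comp_assoc, hz']
  simp [t]

/-- A functor which commutes with every twist up to some isomorphism commutes with the twists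
coherently. -/
@[instance_reducible]
noncomputable def commShiftOf (F : C ⥤ D) [F.Full] [F.Faithful] (W : Equivariant C A)
    (O : Equivariant D A) (e : F.obj W.obj ≅ O.obj) (hR : Rigid (𝟭 C) W.obj (𝟙 W.obj))
    (hZ : CenterOnto W.obj)
    (h : ∀ a : A, Nonempty (shiftFunctor C a ⋙ F ≅ F ⋙ shiftFunctor D a)) : F.CommShift A where
  commShiftIso a := (exists_normalised F W O e hZ a (h a)).choose
  commShiftIso_zero := by
    refine Normalised.unique hR (exists_normalised F W O e hZ 0 (h 0)).choose_spec ?_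
    unfold Normalised
    rw [Functor.CommShift.isoZero_hom_app, W.lin_zero, O.lin_zero, assoc, ← F.map_comp_assoc,
      Iso.inv_hom_id_app]
    have h1 := (shiftFunctorZero D A).inv.naturality e.hom
    simp only [Functor.id_map] at h1
    have h6 : F.map (𝟙 ((𝟭 C).obj W.obj)) = 𝟙 (F.obj W.obj) := CategoryTheory.Functor.map_id _ _
    exact (congrArg (fun t : F.obj W.obj ⟶ F.obj W.obj =>
      t ≫ (shiftFunctorZero D A).inv.app (F.obj W.obj) ≫ e.hom⟦(0 : A)⟧') h6).trans
        ((id_comp _).trans h1.symm)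
  commShiftIso_add a b := by
    refine Normalised.unique hR (exists_normalised F W O e hZ (a + b) (h (a + b))).choose_spec ?_
    have ha := (exists_normalised F W O e hZ a (h a)).choose_spec
    have hb := (exists_normalised F W O e hZ b (h b)).choose_spec
    set κa := (exists_normalised F W O e hZ a (h a)).choose
    set κb := (exists_normalised F W O e hZ b (h b)).choose
    unfold Normalised at ha hb ⊢
    rw [Functor.CommShift.isoAdd_hom_app, W.lin_add, O.lin_add]
    have h1 := (shiftFunctorAdd D a b).inv.naturality e.hom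
    have h2 : F.map ((W.lin a).hom⟦b⟧') ≫ κb.hom.app (W.obj⟦a⟧) =
        κb.hom.app W.obj ≫ (F.map (W.lin a).hom)⟦b⟧' := κb.hom.naturality (W.lin a).hom
    have h3 : (shiftFunctorAdd D a b).inv.app (F.obj W.obj) ≫ e.hom⟦a + b⟧' =
        (e.hom⟦a⟧')⟦b⟧' ≫ (shiftFunctorAdd D a b).inv.app O.obj := h1.symm
    simp only [Functor.map_comp, assoc]
    rw [← F.map_comp_assoc ((shiftFunctorAdd C a b).inv.app W.obj), Iso.inv_hom_id_app, h3]
    have h4 : F.map (𝟙 ((shiftFunctor C a ⋙ shiftFunctor C b).obj W.obj)) =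
        𝟙 (F.obj ((shiftFunctor C a ⋙ shiftFunctor C b).obj W.obj)) :=
      CategoryTheory.Functor.map_id _ _
    rw [h4]
    have h5 : F.map ((W.lin a).hom⟦b⟧') ≫
        𝟙 (F.obj ((shiftFunctor C a ⋙ shiftFunctor C b).obj W.obj)) =
        F.map ((W.lin a).hom⟦b⟧') := comp_id _
    rw [← assoc (F.map ((W.lin a).hom⟦b⟧')), h5, ← assoc (F.map ((W.lin a).hom⟦b⟧')), h2, assoc,
      ← assoc ((F.map (W.lin a).hom)⟦b⟧'), ← Functor.map_comp,
      ← assoc _ ((e.hom⟦a⟧')⟦b⟧'), ← Functor.map_comp, assoc, ha, Functor.map_comp, assoc,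
      ← assoc (κb.hom.app W.obj), ← assoc, hb, assoc]

theorem commShiftOf_normalised (F : C ⥤ D) [F.Full] [F.Faithful] (W : Equivariant C A)
    (O : Equivariant D A) (e : F.obj W.obj ≅ O.obj) (hR : Rigid (𝟭 C) W.obj (𝟙 W.obj))
    (hZ : CenterOnto W.obj)
    (h : ∀ a : A, Nonempty (shiftFunctor C a ⋙ F ≅ F ⋙ shiftFunctor D a)) (a : A) :
    Normalised F W O e a ((commShiftOf F W O e hR hZ h).commShiftIso a) :=
  (exists_normalised F W O e hZ a (h a)).choose_spec

end TwistDescent
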