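import Pool.Agent.Lib.MP_7428c0_nt.Equiv

/-!
# Natural isomorphisms determined by one value

`Rigid P W u`: a natural automorphism of the functor `P` which fixes the vector `u : Y ⟶ P W` is the
identity. If `W` is equivariant this passes to the functors `P (· twisted by a)`.
-/

set_option autoImplicit false

namespace TwistDescent

open CategoryTheory Category

universe v u v' u' v'' u'' w

variable {C : Type u} [Category.{v} C] {D : Type u'} [Category.{v'} D]
  {E : Type u''} [Category.{v''} E]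

/-- A natural automorphism of `P` which fixes `u : Y ⟶ P W` is the identity. -/
def Rigid (P : C ⥤ D) (W : C) {Y : D} (u : Y ⟶ P.obj W) : Prop :=
  ∀ θ : P ≅ P, u ≫ θ.hom.app W = u → ∀ x, θ.hom.app x = 𝟙 (P.obj x)

/-- Every automorphism of `W` is the value at `W` of a natural automorphism of the identity. -/
def CenterOnto (W : C) : Prop :=
  ∀ g : W ≅ W, ∃ z : 𝟭 C ≅ 𝟭 C, z.hom.app W = g.hom

/-- `u : Y ⟶ P W` is a free generator over the endomorphisms of `W`. -/
def FreeOn (P : C ⥤ D) (W : C) {Y : D} (u : Y ⟶ P.obj W) : Prop :=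
  ∀ f : Y ⟶ P.obj W, ∃! z : W ⟶ W, f = u ≫ P.map z

theorem Rigid.unique {P Q : C ⥤ D} {W : C} {Y : D} {u : Y ⟶ P.obj W} (h : Rigid P W u)
    (α β : P ≅ Q) (hab : u ≫ α.hom.app W = u ≫ β.hom.app W) : α = β := by
  have h1 := h (α ≪≫ β.symm) (by
    simp only [Iso.trans_hom, Iso.symm_hom, NatTrans.comp_app]
    rw [← assoc, hab, assoc, Iso.hom_inv_id_app, comp_id])
  ext x
  have h2 := h1 x
  simp only [Iso.trans_hom, Iso.symm_hom, NatTrans.comp_app] at h2
  rw [← cancel_mono (β.inv.app x), h2, Iso.hom_inv_id_app]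

theorem Rigid.comp {P : C ⥤ D} {W : C} {Y : D} {u : Y ⟶ P.obj W} (h : Rigid P W u) (F : D ⥤ E)
    [F.Full] [F.Faithful] : Rigid (P ⋙ F) W (F.map u) := by
  intro θ hθ x
  have h1 := h (NatIso.ofComponents (fun x => F.preimageIso (θ.app x)) (by
    intro x y f
    apply F.map_injective
    simp only [Functor.preimageIso_hom, Functor.map_comp, Functor.map_preimage, Iso.app_hom]
    exact θ.hom.naturality f)) (by
    apply F.map_injective
    simp only [NatIso.ofComponents_hom_app, Functor.preimageIso_hom, Functor.map_comp,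
      Functor.map_preimage, Iso.app_hom]
    exact hθ) x
  simp only [NatIso.ofComponents_hom_app, Functor.preimageIso_hom, Iso.app_hom] at h1
  have h2 := congrArg F.map h1
  rw [Functor.map_preimage, CategoryTheory.Functor.map_id] at h2
  exact h2

section twist

variable {A : Type w} [AddGroup A] [HasShift C A]

theorem Equivariant.lin_add' (x : Equivariant C A) {a b c : A} (h : a + b = c) :
    (x.lin c).hom = (x.lin b).hom ≫ (x.lin a).hom⟦b⟧' ≫
      (shiftFunctorAdd' C a b c h).inv.app x.obj := by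
  subst h
  rw [x.lin_add, shiftFunctorAdd'_eq_shiftFunctorAdd]

theorem Equivariant.lin_neg (x : Equivariant C A) {a b : A} (h : b + a = 0) :
    (x.lin a).hom ≫ (x.lin b).hom⟦a⟧' ≫ (shiftFunctorCompIsoId C b a h).hom.app x.obj =
      𝟙 x.obj := by
  have h1 := x.lin_add' h
  rw [x.lin_zero] at h1
  simp only [shiftFunctorCompIsoId, Iso.trans_hom, Iso.symm_hom, NatTrans.comp_app]
  rw [← cancel_mono ((shiftFunctorZero C A).inv.app x.obj)]
  simp only [assoc, Iso.hom_inv_id_app, id_comp]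
  rw [h1]
  congr 1
  congr 1
  exact comp_id _

theorem Rigid.twist {P : C ⥤ D} (W : Equivariant C A) {Y : D} {u : Y ⟶ P.obj W.obj}
    (h : Rigid P W.obj u) (a : A) :
    Rigid (shiftFunctor C a ⋙ P) W.obj (u ≫ P.map (W.lin a).hom) := by
  intro θ hθ
  have hba : -a + a = 0 := neg_add_cancel a
  have hab : a + -a = 0 := add_neg_cancel a
  -- the automorphism of `P`
  let φ : (shiftFunctor C (-a) ⋙ shiftFunctor C a) ⋙ P ≅ P :=
    Functor.isoWhiskerRight (shiftFunctorCompIsoId C (-a) a hba) P ≪≫ P.leftUnitor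
  let θ' : P ≅ P := φ.symm ≪≫ (Functor.associator _ _ _) ≪≫
    Functor.isoWhiskerLeft (shiftFunctor C (-a)) θ ≪≫ (Functor.associator _ _ _).symm ≪≫ φ
  have hθ' : ∀ x, θ'.hom.app x = P.map ((shiftFunctorCompIsoId C (-a) a hba).inv.app x) ≫
      θ.hom.app ((shiftFunctor C (-a)).obj x) ≫
        P.map ((shiftFunctorCompIsoId C (-a) a hba).hom.app x) := by
    intro x
    simp [θ', φ]
  have hnat : ∀ {x y : C} (f : x ⟶ y), P.map (f⟦a⟧') ≫ θ.hom.app y = θ.hom.app x ≫ P.map (f⟦a⟧') :=
    fun f => θ.hom.naturality f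
  have hlin := W.lin_neg hba
  have hW : u ≫ θ'.hom.app W.obj = u := by
    rw [hθ']
    have e1 : (shiftFunctorCompIsoId C (-a) a hba).inv.app W.obj =
        (W.lin a).hom ≫ (W.lin (-a)).hom⟦a⟧' := by
      rw [← cancel_mono ((shiftFunctorCompIsoId C (-a) a hba).hom.app W.obj), assoc, hlin,
        Iso.inv_hom_id_app]
      rfl
    have e2 := hnat (W.lin (-a)).hom
    have e3 : u ≫ P.map (W.lin a).hom ≫ θ.hom.app W.obj = u ≫ P.map (W.lin a).hom := by
      rw [← assoc]
      exact hθ
    rw [e1]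
    calc u ≫ P.map ((W.lin a).hom ≫ (W.lin (-a)).hom⟦a⟧') ≫
          θ.hom.app ((shiftFunctor C (-a)).obj W.obj) ≫
            P.map ((shiftFunctorCompIsoId C (-a) a hba).hom.app W.obj)
        = (u ≫ P.map (W.lin a).hom ≫ θ.hom.app W.obj) ≫ P.map ((W.lin (-a)).hom⟦a⟧') ≫
            P.map ((shiftFunctorCompIsoId C (-a) a hba).hom.app W.obj) := by
          rw [Functor.map_comp, assoc, assoc, assoc, ← assoc (P.map ((W.lin (-a)).hom⟦a⟧')), e2,
            assoc]
      _ = u ≫ P.map ((W.lin a).hom ≫ (W.lin (-a)).hom⟦a⟧' ≫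
            (shiftFunctorCompIsoId C (-a) a hba).hom.app W.obj) := by
          rw [e3, Functor.map_comp, Functor.map_comp, assoc]
      _ = u := by
          rw [hlin, CategoryTheory.Functor.map_id, comp_id]
  have h1 := h θ' hW
  have h2 : ∀ x, θ.hom.app ((shiftFunctor C (-a)).obj x) = 𝟙 _ := by
    intro x
    have h3 := h1 x
    rw [hθ'] at h3
    rw [← cancel_epi (P.map ((shiftFunctorCompIsoId C (-a) a hba).inv.app x)),
      ← cancel_mono (P.map ((shiftFunctorCompIsoId C (-a) a hba).hom.app x)), assoc, h3]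
    simp only [Functor.comp_obj, comp_id]
    rw [← Functor.map_comp, Iso.inv_hom_id_app]
    simp
  intro y
  have h4 := hnat ((shiftFunctorCompIsoId C a (-a) hab).inv.app y)
  have h5 : θ.hom.app ((shiftFunctor C a ⋙ shiftFunctor C (-a)).obj y) = 𝟙 _ := h2 _
  rw [h5] at h4
  have h6 : P.map (((shiftFunctorCompIsoId C a (-a) hab).inv.app y)⟦a⟧') =
      θ.hom.app y ≫ P.map (((shiftFunctorCompIsoId C a (-a) hab).inv.app y)⟦a⟧') :=
    (comp_id _).symm.trans h4
  have h7 : IsIso (P.map (((shiftFunctorCompIsoId C a (-a) hab).inv.app y)⟦a⟧')) := inferInstance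
  rw [← cancel_mono (P.map (((shiftFunctorCompIsoId C a (-a) hab).inv.app y)⟦a⟧')), ← h6]
  simp

end twist

end TwistDescent
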