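import Pool.Agent.Lib.MP_7428c0_nt.Induct

/-!
# The normalised square is compatible with the twists
-/

set_option autoImplicit false

namespace TwistDescent

open CategoryTheory Category

universe v₁ u₁ v₂ u₂ v₃ u₃ v₄ u₄ w

section equivariantMap

variable {C : Type u₁} [Category.{v₁} C] {D : Type u₂} [Category.{v₂} D] {A : Type w} [AddGroup A]
  [HasShift C A] [HasShift D A]

/-- The morphism `u : x ⟶ i y` of `D` is equivariant. -/
def IsEquivariant (i : C ⥤ D) [i.CommShift A] (x : Equivariant D A) (y : Equivariant C A)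
    (u : x.obj ⟶ i.obj y.obj) : Prop :=
  ∀ a : A, (x.lin a).hom ≫ u⟦a⟧' =
    u ≫ i.map (y.lin a).hom ≫ (i.commShiftIso a).hom.app y.obj

end equivariantMap

section square

variable {CM : Type u₁} [Category.{v₁} CM] {CG : Type u₂} [Category.{v₂} CG]
  {DM : Type u₃} [Category.{v₃} DM] {DG : Type u₄} [Category.{v₄} DG]
  {A : Type w} [AddGroup A] [HasShift CM A] [HasShift CG A] [HasShift DM A] [HasShift DG A]

/-- The normalised square commutes with the twists. -/
theorem square_twist {i : CM ⥤ CG} {s : DM ⥤ DG} [i.CommShift A] [s.CommShift A]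
    (FM : CM ⥤ DM) (FG : CG ⥤ DG) [FM.CommShift A] [FG.CommShift A] [FG.Full] [FG.Faithful]
    {WM : Equivariant CM A} {WG : Equivariant CG A} {OM : Equivariant DM A}
    {OG : Equivariant DG A} (u : WG.obj ⟶ i.obj WM.obj) (v : OG.obj ⟶ s.obj OM.obj)
    (hu : IsEquivariant i WG WM u) (hv : IsEquivariant s OG OM v)
    (hR : Rigid i WM.obj u) (eM : FM.obj WM.obj ≅ OM.obj)
    (eG : FG.obj WG.obj ≅ OG.obj)
    (hM : ∀ a, Normalised FM WM OM eM a (FM.commShiftIso a))
    (hG : ∀ a, Normalised FG WG OG eG a (FG.commShiftIso a))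
    (η : i ⋙ FG ≅ FM ⋙ s)
    (hη : FG.map u ≫ η.hom.app WM.obj ≫ s.map eM.hom = eG.hom ≫ v) (a : A) (x : CM) :
    FG.map ((i.commShiftIso a).hom.app x) ≫ (FG.commShiftIso a).hom.app (i.obj x) ≫
        (η.hom.app x)⟦a⟧' =
      η.hom.app (x⟦a⟧) ≫ s.map ((FM.commShiftIso a).hom.app x) ≫
        (s.commShiftIso a).hom.app (FM.obj x) := by
  have hR' : Rigid (shiftFunctor CM a ⋙ (i ⋙ FG)) WM.obj
      (FG.map u ≫ (i ⋙ FG).map (WM.lin a).hom) :=
    Rigid.twist (P := i ⋙ FG) WM (Rigid.comp hR FG) a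
  let α : shiftFunctor CM a ⋙ (i ⋙ FG) ≅ (FM ⋙ s) ⋙ shiftFunctor DG a :=
    (Functor.commShiftIso (i ⋙ FG) a) ≪≫ Functor.isoWhiskerRight η _
  let β : shiftFunctor CM a ⋙ (i ⋙ FG) ≅ (FM ⋙ s) ⋙ shiftFunctor DG a :=
    Functor.isoWhiskerLeft _ η ≪≫ (Functor.commShiftIso (FM ⋙ s) a)
  have hα : ∀ y, α.hom.app y = FG.map ((i.commShiftIso a).hom.app y) ≫
      (FG.commShiftIso a).hom.app (i.obj y) ≫ (η.hom.app y)⟦a⟧' := by
    intro y
    simp [α, Functor.CommShift.comp_commShiftIso_hom_app]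
  have hβ : ∀ y, β.hom.app y = η.hom.app (y⟦a⟧) ≫ s.map ((FM.commShiftIso a).hom.app y) ≫
        (s.commShiftIso a).hom.app (FM.obj y) := by
    intro y
    simp [β, Functor.CommShift.comp_commShiftIso_hom_app]
  have hua := hu a
  have hva := hv a
  have hMa := hM a
  have hGa := hG a
  unfold Normalised at hMa hGa
  have hnat : ∀ {x y : CM} (f : x ⟶ y),
      FG.map (i.map f) ≫ η.hom.app y = η.hom.app x ≫ s.map (FM.map f) :=
    fun f => η.hom.naturality f
  have hL : FG.map u ≫ FG.map (i.map (WM.lin a).hom) ≫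
      FG.map ((i.commShiftIso a).hom.app WM.obj) ≫
      (FG.commShiftIso a).hom.app (i.obj WM.obj) ≫ (η.hom.app WM.obj)⟦a⟧' ≫
        (s.map eM.hom)⟦a⟧' = eG.hom ≫ v ≫ s.map (OM.lin a).hom ≫
          (s.commShiftIso a).hom.app OM.obj := by
    have h1 : FG.map u ≫ FG.map (i.map (WM.lin a).hom) ≫
        FG.map ((i.commShiftIso a).hom.app WM.obj) =
        FG.map (WG.lin a).hom ≫ FG.map (u⟦a⟧') := by
      rw [← FG.map_comp, ← FG.map_comp, ← FG.map_comp, hua]
    have h2 : FG.map (u⟦a⟧') ≫ (FG.commShiftIso a).hom.app (i.obj WM.obj) =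
        (FG.commShiftIso a).hom.app WG.obj ≫ (FG.map u)⟦a⟧' :=
      FG.commShiftIso_hom_naturality u a
    calc _ = (FG.map u ≫ FG.map (i.map (WM.lin a).hom) ≫
          FG.map ((i.commShiftIso a).hom.app WM.obj)) ≫
            (FG.commShiftIso a).hom.app (i.obj WM.obj) ≫ (η.hom.app WM.obj)⟦a⟧' ≫
              (s.map eM.hom)⟦a⟧' := by simp only [assoc]
      _ = FG.map (WG.lin a).hom ≫ (FG.map (u⟦a⟧') ≫
            (FG.commShiftIso a).hom.app (i.obj WM.obj)) ≫ (η.hom.app WM.obj)⟦a⟧' ≫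
              (s.map eM.hom)⟦a⟧' := by rw [h1]; simp only [assoc]
      _ = FG.map (WG.lin a).hom ≫ (FG.commShiftIso a).hom.app WG.obj ≫
            (FG.map u ≫ η.hom.app WM.obj ≫ s.map eM.hom)⟦a⟧' := by
          rw [h2]; simp only [assoc, Functor.map_comp]
      _ = (FG.map (WG.lin a).hom ≫ (FG.commShiftIso a).hom.app WG.obj ≫ eG.hom⟦a⟧') ≫
            v⟦a⟧' := by
          rw [hη]; simp only [assoc, Functor.map_comp]
      _ = eG.hom ≫ (OG.lin a).hom ≫ v⟦a⟧' := by rw [hGa, assoc]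
      _ = _ := by rw [hva]
  have hRR : FG.map u ≫ FG.map (i.map (WM.lin a).hom) ≫
      η.hom.app (WM.obj⟦a⟧) ≫ s.map ((FM.commShiftIso a).hom.app WM.obj) ≫
      (s.commShiftIso a).hom.app (FM.obj WM.obj) ≫ (s.map eM.hom)⟦a⟧' =
      eG.hom ≫ v ≫ s.map (OM.lin a).hom ≫ (s.commShiftIso a).hom.app OM.obj := by
    have h1 : s.map (eM.hom⟦a⟧') ≫ (s.commShiftIso a).hom.app OM.obj =
        (s.commShiftIso a).hom.app (FM.obj WM.obj) ≫ (s.map eM.hom)⟦a⟧' :=
      s.commShiftIso_hom_naturality eM.hom a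
    have h2 := hnat (WM.lin a).hom
    calc _ = FG.map u ≫ (FG.map (i.map (WM.lin a).hom) ≫ η.hom.app (WM.obj⟦a⟧)) ≫
            s.map ((FM.commShiftIso a).hom.app WM.obj) ≫
              (s.commShiftIso a).hom.app (FM.obj WM.obj) ≫ (s.map eM.hom)⟦a⟧' := by
          simp only [assoc]
      _ = FG.map u ≫ η.hom.app WM.obj ≫ s.map (FM.map (WM.lin a).hom ≫
            (FM.commShiftIso a).hom.app WM.obj ≫ eM.hom⟦a⟧') ≫
              (s.commShiftIso a).hom.app OM.obj := by
          rw [h2, ← h1]; simp only [assoc, Functor.map_comp]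
      _ = (FG.map u ≫ η.hom.app WM.obj ≫ s.map eM.hom) ≫ s.map (OM.lin a).hom ≫
              (s.commShiftIso a).hom.app OM.obj := by
          rw [hMa]; simp only [assoc, Functor.map_comp]
      _ = _ := by rw [hη, assoc]
  have hab : α = β := by
    refine Rigid.unique hR' α β ?_
    rw [hα, hβ, ← cancel_mono ((s.map eM.hom)⟦a⟧')]
    have h5 : (i ⋙ FG).map (WM.lin a).hom = FG.map (i.map (WM.lin a).hom) := rfl
    rw [h5]
    simp only [assoc]
    exact hL.trans hRR.symm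
  rw [← hα, ← hβ, hab]

/-- The normalised square gives an isomorphism between the functors on equivariant objects. -/
theorem square_mapEq {i : CM ⥤ CG} {s : DM ⥤ DG} [i.CommShift A] [s.CommShift A]
    (FM : CM ⥤ DM) (FG : CG ⥤ DG) [FM.CommShift A] [FG.CommShift A] (η : i ⋙ FG ≅ FM ⋙ s)
    (h : ∀ (a : A) (x : CM),
      FG.map ((i.commShiftIso a).hom.app x) ≫ (FG.commShiftIso a).hom.app (i.obj x) ≫
          (η.hom.app x)⟦a⟧' =
        η.hom.app (x⟦a⟧) ≫ s.map ((FM.commShiftIso a).hom.app x) ≫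
          (s.commShiftIso a).hom.app (FM.obj x)) :
    Nonempty (mapEq (A := A) i ⋙ mapEq FG ≅ mapEq FM ⋙ mapEq s) := by
  have hnat : ∀ {x y : CM} (f : x ⟶ y),
      FG.map (i.map f) ≫ η.hom.app y = η.hom.app x ≫ s.map (FM.map f) :=
    fun f => η.hom.naturality f
  refine ⟨NatIso.ofComponents (fun x => Equivariant.mkIso (η.app x.obj) ?_) ?_⟩
  · intro a
    have h1 := h a x.obj
    have h2 := hnat (x.lin a).hom
    have h3 : (FG.map (i.map (x.lin a).hom ≫ (i.commShiftIso a).hom.app x.obj) ≫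
        (FG.commShiftIso a).hom.app (i.obj x.obj)) ≫ (η.hom.app x.obj)⟦a⟧' =
        η.hom.app x.obj ≫ s.map (FM.map (x.lin a).hom ≫ (FM.commShiftIso a).hom.app x.obj) ≫
          (s.commShiftIso a).hom.app (FM.obj x.obj) := by
      calc _ = FG.map (i.map (x.lin a).hom) ≫ FG.map ((i.commShiftIso a).hom.app x.obj) ≫
            (FG.commShiftIso a).hom.app (i.obj x.obj) ≫ (η.hom.app x.obj)⟦a⟧' := by
            simp only [assoc, Functor.map_comp]
        _ = (FG.map (i.map (x.lin a).hom) ≫ η.hom.app (x.obj⟦a⟧)) ≫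
              s.map ((FM.commShiftIso a).hom.app x.obj) ≫
                (s.commShiftIso a).hom.app (FM.obj x.obj) := by rw [h1]; simp only [assoc]
        _ = _ := by rw [h2]; simp only [assoc, Functor.map_comp]
    exact h3
  · intro x y f
    apply Equivariant.hom_ext
    exact hnat (Equivariant.Hom.hom f)

end square

end TwistDescent
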